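import Mathlib

/-!
# The length of a set which is locally a graph over a parameter
-/

set_option autoImplicit false

open Set Filter Topology MeasureTheory
open scoped ENNReal NNReal

namespace TH321.YR

variable {E : Type*} [MetricSpace E] [MeasurableSpace E] [BorelSpace E]

/-- the length of a graph piece -/
theorem piece_le {φ : ℝ × ℝ → E} {τ : ℝ × ℝ → ℝ} {A : Set (ℝ × ℝ)}
    (hA : ∀ p ∈ A, ∀ q ∈ A, dist (φ p) (φ q) ≤ 157 / 100 * |τ p - τ q| ∧ (τ p = τ q → p = q)) :
    μH[1] (φ '' A) ≤ ENNReal.ofReal (157 / 100) * volume (τ '' A) := by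
  classical
  choose! c hc using fun (t : ℝ) (ht : t ∈ τ '' A) => ht
  have himg : φ '' A ⊆ (fun t => φ (c t)) '' (τ '' A) := by
    rintro _ ⟨p, hp, rfl⟩
    refine ⟨τ p, mem_image_of_mem _ hp, ?_⟩
    obtain ⟨h1, h2⟩ := hc (τ p) (mem_image_of_mem _ hp)
    simp only
    rw [(hA _ h1 _ hp).2 h2]
  have hlip : LipschitzOnWith (157 / 100) (fun t => φ (c t)) (τ '' A) := by
    refine LipschitzOnWith.of_dist_le_mul fun s hs t ht => ?_
    obtain ⟨h1, h2⟩ := hc s hs
    obtain ⟨g1, g2⟩ := hc t ht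
    have := (hA _ h1 _ g1).1
    rw [h2, g2] at this
    rw [Real.dist_eq]
    simpa using this
  calc μH[1] (φ '' A) ≤ μH[1] ((fun t => φ (c t)) '' (τ '' A)) := measure_mono himg
    _ ≤ ((157 / 100 : ℝ≥0) : ℝ≥0∞) ^ (1 : ℝ) * μH[1] (τ '' A) :=
        hlip.hausdorffMeasure_image_le zero_le_one
    _ = ENNReal.ofReal (157 / 100) * volume (τ '' A) := by
        rw [ENNReal.rpow_one, hausdorffMeasure_real]
        congr 1
        rw [ENNReal.ofReal]
        congr 1
        ext
        rw [Real.coe_toNNReal _ (by norm_num)]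
        norm_num

/-- the length of a set which is locally a graph and meets the levels of the parameter in at most
`N` points -/
theorem cover_le {H : Set (ℝ × ℝ)} (hH : MeasurableSet H) {φ : ℝ × ℝ → E} {τ : ℝ × ℝ → ℝ}
    (hτ : Continuous τ) {J : Set ℝ} (hJ : MeasurableSet J) (hHJ : ∀ p ∈ H, τ p ∈ J) {N : ℝ}
    (hloc : ∀ p ∈ H, ∃ U : Set (ℝ × ℝ), IsOpen U ∧ p ∈ U ∧ ∀ q ∈ U ∩ H, ∀ q' ∈ U ∩ H,
      dist (φ q) (φ q') ≤ 157 / 100 * |τ q - τ q'| ∧ (τ q = τ q' → q = q'))
    (hcard : ∀ t, ∀ Z : Finset (ℝ × ℝ), (∀ z ∈ Z, z ∈ H ∧ τ z = t) → (Z.card : ℝ) ≤ N) :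
    μH[1] (φ '' H) ≤ ENNReal.ofReal (157 / 100) * (ENNReal.ofReal N * volume J) := by
  classical
  rcases H.eq_empty_or_nonempty with he | hne
  · rw [he, image_empty, measure_empty]; exact zero_le
  -- countable cover
  choose! U hUo hpU hUlip using hloc
  obtain ⟨t, ht, htc, hcov⟩ := TopologicalSpace.countable_cover_nhdsWithin (f := U)
    (s := H) fun p hp => mem_nhdsWithin_of_mem_nhds ((hUo p hp).mem_nhds (hpU p hp))
  have htne : t.Nonempty := by
    obtain ⟨p, hp⟩ := hne
    obtain ⟨q, hq, -⟩ := mem_iUnion₂.1 (hcov hp)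
    exact ⟨q, hq⟩
  obtain ⟨e, he⟩ := htc.exists_eq_range htne
  have het : ∀ n, e n ∈ H := fun n => ht (he ▸ mem_range_self n)
  let V : ℕ → Set (ℝ × ℝ) := fun n => U (e n)
  let A : ℕ → Set (ℝ × ℝ) := fun n => H ∩ disjointed V n
  have hVcov : H ⊆ ⋃ n, V n := by
    intro p hp
    obtain ⟨q, hq, hpq⟩ := mem_iUnion₂.1 (hcov hp)
    rw [he] at hq
    obtain ⟨n, rfl⟩ := hq
    exact mem_iUnion.2 ⟨n, hpq⟩
  have hAU : H ⊆ ⋃ n, A n := by
    intro p hp
    have := hVcov hp
    rw [← iUnion_disjointed] at this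
    obtain ⟨n, hn⟩ := mem_iUnion.1 this
    exact mem_iUnion.2 ⟨n, hp, hn⟩
  have hAV : ∀ n, A n ⊆ V n := fun n p hp => disjointed_subset V n hp.2
  have hAlip : ∀ n, ∀ p ∈ A n, ∀ q ∈ A n,
      dist (φ p) (φ q) ≤ 157 / 100 * |τ p - τ q| ∧ (τ p = τ q → p = q) :=
    fun n p hp q hq => hUlip (e n) (het n) p ⟨hAV n hp, hp.1⟩ q ⟨hAV n hq, hq.1⟩
  have hAmeas : ∀ n, MeasurableSet (A n) := fun n =>
    hH.inter (MeasurableSet.disjointed (fun m => (hUo (e m) (het m)).measurableSet) n)
  have hAdisj : Pairwise (Function.onFun Disjoint A) := by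
    intro m n hmn
    exact (disjoint_disjointed V hmn).mono inter_subset_right inter_subset_right
  let B : ℕ → Set ℝ := fun n => τ '' A n
  have hBmeas : ∀ n, MeasurableSet (B n) := fun n =>
    (hAmeas n).image_of_continuousOn_injOn hτ.continuousOn
      (fun p hp q hq hpq => (hAlip n p hp q hq).2 hpq)
  -- the total
  have hcount : ∀ y, (∑' n, (B n).indicator (fun _ => (1 : ℝ≥0∞)) y) ≤
      J.indicator (fun _ => ENNReal.ofReal N) y := by
    intro y
    by_cases hy : y ∈ J
    · rw [indicator_of_mem hy, ENNReal.tsum_eq_iSup_sum]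
      refine iSup_le fun T => ?_
      have e1 : (∑ n ∈ T, (B n).indicator (fun _ => (1 : ℝ≥0∞)) y) =
          ((T.filter fun n => y ∈ B n).card : ℝ≥0∞) := by
        rw [Finset.card_filter, Nat.cast_sum]
        refine Finset.sum_congr rfl fun n _ => ?_
        by_cases h : y ∈ B n
        · rw [indicator_of_mem h, if_pos h, Nat.cast_one]
        · rw [indicator_of_notMem h, if_neg h, Nat.cast_zero]
      rw [e1]
      set T' := T.filter fun n => y ∈ B n with hT'
      have hch : ∀ n ∈ T', ∃ z, z ∈ A n ∧ τ z = y := by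
        intro n hn
        obtain ⟨p, hp, hpy⟩ := (Finset.mem_filter.1 hn).2
        exact ⟨p, hp, hpy⟩
      choose! ξ hξ using hch
      have hinj : Set.InjOn ξ T' := by
        intro m hm n hn hmn
        by_contra hne'
        have h1 := (hξ m hm).1
        have h2 := (hξ n hn).1
        rw [hmn] at h1
        exact (Set.disjoint_left.1 (hAdisj hne') h1) h2
      have hcard' : (T'.image ξ).card = T'.card := Finset.card_image_of_injOn hinj
      have hb := hcard y (T'.image ξ) (fun z hz => by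
        obtain ⟨n, hn, rfl⟩ := Finset.mem_image.1 hz
        exact ⟨(hξ n hn).1.1, (hξ n hn).2⟩)
      rw [hcard'] at hb
      rw [← ENNReal.ofReal_natCast]
      exact ENNReal.ofReal_le_ofReal hb
    · rw [indicator_of_notMem hy]
      refine le_of_eq (ENNReal.tsum_eq_zero.2 fun n => indicator_of_notMem ?_ _)
      rintro ⟨p, hp, rfl⟩
      exact hy (hHJ p hp.1)
  have hvol : (∑' n, volume (B n)) ≤ ENNReal.ofReal N * volume J := by
    calc (∑' n, volume (B n)) = ∑' n, ∫⁻ y, (B n).indicator (fun _ => (1 : ℝ≥0∞)) y := by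
          refine tsum_congr fun n => ?_
          rw [lintegral_indicator (hBmeas n), setLIntegral_one]
      _ = ∫⁻ y, ∑' n, (B n).indicator (fun _ => (1 : ℝ≥0∞)) y :=
          (lintegral_tsum fun n => (measurable_const.indicator (hBmeas n)).aemeasurable).symm
      _ ≤ ∫⁻ y, J.indicator (fun _ => ENNReal.ofReal N) y := lintegral_mono hcount
      _ = ENNReal.ofReal N * volume J := by
          rw [lintegral_indicator hJ, setLIntegral_const]
  calc μH[1] (φ '' H) ≤ μH[1] (⋃ n, φ '' A n) := by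
        rw [← image_iUnion]
        exact measure_mono (image_mono hAU)
    _ ≤ ∑' n, μH[1] (φ '' A n) := measure_iUnion_le _
    _ ≤ ∑' n, ENNReal.ofReal (157 / 100) * volume (B n) :=
        ENNReal.tsum_le_tsum fun n => piece_le (hAlip n)
    _ = ENNReal.ofReal (157 / 100) * ∑' n, volume (B n) := ENNReal.tsum_mul_left
    _ ≤ ENNReal.ofReal (157 / 100) * (ENNReal.ofReal N * volume J) := by gcongr

end TH321.YR
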