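import Mathlib
import Pool.Agent.TH266.LT.Sturm2

/-!
# Bounded functions on the line: maximum principle and sign changes

* `exists_opposite_left`, `exists_opposite_right`: the maximum principle on half lines for bounded
  functions (Phragmén–Lindelöf).
* `Alt f k y`: alternating sequences; `Alt.step`: `f'' - q f`, `q ≥ c₀ > 0`, has at least as many
  sign changes as the bounded function `f`.
-/

set_option autoImplicit false

open Set Filter Topology

namespace TH321.YR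

open TH266.LT

/-- the maximum principle on a left half line, positive case -/
theorem pl_left {f f' f'' q : ℝ → ℝ} (hf : ∀ x, HasDerivAt f (f' x) x)
    (hf' : ∀ x, HasDerivAt f' (f'' x) x) {c₀ C z x : ℝ} (hc₀ : 0 < c₀)
    (hq : ∀ t, t < z → c₀ ≤ q t) (hC : ∀ t, t ≤ z → f t ≤ C)
    (hz : f z ≤ 0) (hx : x < z) (hfx : 0 < f x) :
    ∃ m, m < z ∧ f'' m - q m * f m < 0 := by
  by_contra hcon
  push Not at hcon
  set δ := √c₀ with hδ
  have hδ0 : 0 < δ := Real.sqrt_pos.2 hc₀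
  have hδ2 : δ ^ 2 = c₀ := Real.sq_sqrt hc₀.le
  have hCpos : 0 < C := hfx.trans_le (hC x hx.le)
  -- the comparison function
  set ε := f x / (2 * Real.exp (δ * (z - x))) with hε
  have hex : 0 < Real.exp (δ * (z - x)) := Real.exp_pos _
  have hε0 : 0 < ε := by positivity
  let e : ℝ → ℝ := fun t => ε * Real.exp (δ * (z - t))
  have he0 : ∀ t, 0 < e t := fun t => mul_pos hε0 (Real.exp_pos _)
  have hlin : ∀ t, HasDerivAt (fun t : ℝ => δ * (z - t)) (-δ) t := by
    intro t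
    simpa using ((hasDerivAt_id t).const_sub z).const_mul δ
  have he1 : ∀ t, HasDerivAt e (-δ * e t) t := by
    intro t
    have h1 := ((hlin t).exp).const_mul ε
    refine h1.congr_deriv ?_
    simp only [e]; ring
  have he2 : ∀ t, HasDerivAt (fun t => -δ * e t) (δ ^ 2 * e t) t := by
    intro t
    refine ((he1 t).const_mul (-δ)).congr_deriv ?_
    ring
  let w : ℝ → ℝ := fun t => f t - e t
  have hw1 : ∀ t, HasDerivAt w (f' t - (-δ * e t)) t := fun t => (hf t).sub (he1 t)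
  have hw2 : ∀ t, HasDerivAt (fun t => f' t - (-δ * e t)) (f'' t - δ ^ 2 * e t) t :=
    fun t => (hf' t).sub (he2 t)
  have hwc : Continuous w := continuous_iff_continuousAt.2 fun t => (hw1 t).continuousAt
  have hwx : 0 < w x := by
    simp only [w, e, hε]
    have : f x / (2 * Real.exp (δ * (z - x))) * Real.exp (δ * (z - x)) = f x / 2 := by
      field_simp
    rw [this]; linarith
  -- far to the left `w` is negative
  obtain ⟨T, hT, hTw⟩ : ∃ T, T < x ∧ w T < 0 := by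
    have h1 : Tendsto (fun t : ℝ => ε * Real.exp (δ * (z - t))) atBot atTop := by
      refine Tendsto.const_mul_atTop hε0 (Real.tendsto_exp_atTop.comp ?_)
      refine Tendsto.const_mul_atTop hδ0 ?_
      exact tendsto_atTop_add_const_left _ z tendsto_neg_atBot_atTop
    obtain ⟨T, hT1, hT2⟩ := ((h1.eventually_gt_atTop C).and (eventually_lt_atBot x)).exists
    refine ⟨T, hT2, ?_⟩
    have := hC T (hT2.le.trans hx.le)
    simp only [w, e]; linarith
  obtain ⟨m, hm, hmax⟩ := isCompact_Icc.exists_isMaxOn (nonempty_Icc.2 (hT.trans hx).le)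
    (hwc.continuousOn (s := Icc T z))
  have hwm : w x ≤ w m := hmax ⟨hT.le, hx.le⟩
  have hwz : w z < 0 := by
    have := he0 z
    simp only [w]; linarith
  have hm1 : T < m := lt_of_le_of_ne hm.1 (by rintro rfl; linarith)
  have hm2 : m < z := lt_of_le_of_ne hm.2 (by rintro rfl; linarith)
  have hloc : IsLocalMax w m := hmax.isLocalMax (Icc_mem_nhds hm1 hm2)
  have h2 := second_nonpos hw1 hw2 hloc
  have h3 := hcon m hm2
  have h4 := hq m hm2
  have h5 : e m < f m := by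
    have : 0 < w m := hwx.trans_le hwm
    simp only [w] at this; linarith
  have h6 := he0 m
  have h7 : c₀ * f m ≤ q m * f m := mul_le_mul_of_nonneg_right h4 (h6.trans h5).le
  have h8 : δ ^ 2 * e m < c₀ * f m := by
    rw [hδ2]; exact mul_lt_mul_of_pos_left h5 hc₀
  linarith

/-- the maximum principle on a left half line -/
theorem exists_opposite_left {f f' f'' q : ℝ → ℝ} (hf : ∀ x, HasDerivAt f (f' x) x)
    (hf' : ∀ x, HasDerivAt f' (f'' x) x) {c₀ C z x : ℝ} (hc₀ : 0 < c₀)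
    (hq : ∀ t, t < z → c₀ ≤ q t) (hC : ∀ t, |f t| ≤ C)
    (hz : f z = 0) (hx : x < z) (hfx : f x ≠ 0) :
    ∃ m, m < z ∧ (f'' m - q m * f m) * f x < 0 := by
  rcases lt_or_gt_of_ne hfx with h | h
  · obtain ⟨m, h1, h2⟩ := pl_left (f := fun t => - f t) (f' := fun t => - f' t)
      (f'' := fun t => - f'' t) (fun t => (hf t).neg) (fun t => (hf' t).neg) hc₀ hq
      (C := C) (fun t _ => (neg_le_abs (f t)).trans (hC t)) (by simp [hz]) hx (by linarith)
    refine ⟨m, h1, ?_⟩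
    have : 0 < f'' m - q m * f m := by linarith
    exact mul_neg_of_pos_of_neg this h
  · obtain ⟨m, h1, h2⟩ := pl_left hf hf' hc₀ hq (C := C)
      (fun t _ => (le_abs_self (f t)).trans (hC t)) hz.le hx h
    exact ⟨m, h1, mul_neg_of_neg_of_pos h2 h⟩

/-- the reflected function -/
theorem hasDerivAt_reflect {f f' : ℝ → ℝ} (hf : ∀ x, HasDerivAt f (f' x) x) (x : ℝ) :
    HasDerivAt (fun t => f (-t)) (-f' (-x)) x := by
  have h1 : HasDerivAt (fun t : ℝ => -t) (-1) x := hasDerivAt_neg x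
  have := (hf (-x)).comp x h1
  simpa [Function.comp_def] using this

theorem hasDerivAt_reflect' {f f' : ℝ → ℝ} (hf : ∀ x, HasDerivAt f (f' x) x) (x : ℝ) :
    HasDerivAt (fun t => - f (-t)) (f' (-x)) x := by
  have h := (hasDerivAt_reflect hf x).fun_neg
  rwa [neg_neg] at h

/-- the maximum principle on a right half line -/
theorem exists_opposite_right {f f' f'' q : ℝ → ℝ} (hf : ∀ x, HasDerivAt f (f' x) x)
    (hf' : ∀ x, HasDerivAt f' (f'' x) x) {c₀ C z x : ℝ} (hc₀ : 0 < c₀)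
    (hq : ∀ t, z < t → c₀ ≤ q t) (hC : ∀ t, |f t| ≤ C)
    (hz : f z = 0) (hx : z < x) (hfx : f x ≠ 0) :
    ∃ m, z < m ∧ (f'' m - q m * f m) * f x < 0 := by
  obtain ⟨m, h1, h2⟩ := exists_opposite_left (f := fun t => f (-t)) (f' := fun t => - f' (-t))
    (f'' := fun t => f'' (-t)) (q := fun t => q (-t)) (hasDerivAt_reflect hf)
    (hasDerivAt_reflect' hf') (z := -z) (x := -x) hc₀ (fun t ht => hq _ (by linarith))
    (fun t => hC _) (by simpa using hz) (by linarith) (by simpa using hfx)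
  refine ⟨-m, by linarith, ?_⟩
  simpa using h2

/-- alternating sequences with `k` sign changes ending at `y` -/
def Alt (f : ℝ → ℝ) : ℕ → ℝ → Prop
  | 0, y => f y ≠ 0
  | k + 1, y => ∃ x, x < y ∧ Alt f k x ∧ f x * f y < 0

theorem Alt.ne {f : ℝ → ℝ} : ∀ {k : ℕ} {y : ℝ}, Alt f k y → f y ≠ 0
  | 0, _, h => h
  | _ + 1, _, ⟨_, _, _, h⟩ => fun h0 => by rw [h0, mul_zero] at h; exact lt_irrefl _ h

theorem Alt.of_altTo {f : ℝ → ℝ} {A : ℝ} : ∀ {k : ℕ} {y : ℝ}, AltTo f A k y → Alt f k y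
  | 0, _, h => h.2
  | _ + 1, _, ⟨x, hx, h1, hs⟩ => ⟨x, hx, Alt.of_altTo h1, hs⟩

theorem Alt.congr' {f g : ℝ → ℝ} {c : ℝ} (hc : c ≠ 0) (h : ∀ x, g x = c * f x) :
    ∀ {k : ℕ} {y : ℝ}, Alt f k y → Alt g k y
  | 0, _, h2 => by
    show g _ ≠ 0
    rw [h]; exact mul_ne_zero hc h2
  | _ + 1, y, ⟨x, hx, h1, hs⟩ => ⟨x, hx, Alt.congr' hc h h1, by
      rw [h, h]
      have : c * f x * (c * f y) = (c * c) * (f x * f y) := by ring
      rw [this]
      exact mul_neg_of_pos_of_neg (mul_self_pos.2 hc) hs⟩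

/-- an alternating sequence gives zeros -/
theorem Alt.zeros {f : ℝ → ℝ} (hf : Continuous f) :
    ∀ {k : ℕ} {y : ℝ}, Alt f k y → ∃ Z : Finset ℝ, Z.card = k ∧ ∀ z ∈ Z, z < y ∧ f z = 0
  | 0, _, _ => ⟨∅, rfl, by simp⟩
  | k + 1, y, ⟨x, hx, h1, hs⟩ => by
    obtain ⟨Z, hZ, hZ'⟩ := Alt.zeros hf h1
    obtain ⟨z, h2, h3, h4⟩ := exists_zero_between hf hx hs
    refine ⟨insert z Z, ?_, ?_⟩
    · rw [Finset.card_insert_of_notMem, hZ]
      intro h
      linarith [(hZ' z h).1]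
    · intro u hu
      rcases Finset.mem_insert.1 hu with rfl | hu
      · exact ⟨h3, h4⟩
      · exact ⟨(hZ' u hu).1.trans hx, (hZ' u hu).2⟩

theorem Alt.step_aux {f f' f'' q : ℝ → ℝ} (hf : ∀ x, HasDerivAt f (f' x) x)
    (hf' : ∀ x, HasDerivAt f' (f'' x) x) {c₀ C : ℝ} (hc₀ : 0 < c₀) (hq : ∀ t, c₀ ≤ q t)
    (hC : ∀ t, |f t| ≤ C) :
    ∀ {k : ℕ} {y z : ℝ}, Alt f k y → y < z → f z = 0 →
      ∃ m, m < z ∧ Alt (fun x => f'' x - q x * f x) k m ∧ (f'' m - q m * f m) * f y < 0 := by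
  have hc : Continuous f := continuous_iff_continuousAt.2 fun x => (hf x).continuousAt
  intro k
  induction k with
  | zero =>
    intro y z hy hyz hz
    obtain ⟨m, h1, h2⟩ := exists_opposite_left hf hf' hc₀ (fun t _ => hq t) hC hz hyz hy
    refine ⟨m, h1, ?_, h2⟩
    show f'' m - q m * f m ≠ 0
    intro h0
    rw [h0, zero_mul] at h2
    exact lt_irrefl _ h2
  | succ k ih =>
    rintro y z ⟨x, hx, h1, hs⟩ hyz hz
    obtain ⟨z', hxz, hzy, hz0⟩ := exists_zero_between hc hx hs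
    obtain ⟨m', hm', halt, hm's⟩ := ih h1 hxz hz0
    have hy : f y ≠ 0 := fun h => by rw [h, mul_zero] at hs; exact lt_irrefl _ hs
    obtain ⟨m, hm1, hm2, hm⟩ := exists_opposite hf hf' (fun t => hc₀.trans_le (hq t)) hz0 hz
      hzy hyz hy
    refine ⟨m, hm2, ⟨m', hm'.trans hm1, halt, ?_⟩, hm⟩
    simp only
    -- signs
    have h3 : 0 < (f'' m' - q m' * f m') * f y := mul_pos_of_two_neg hm's hs
    have h4 : (f'' m - q m * f m) * (f'' m' - q m' * f m') < 0 :=
      mul_neg_of_neg_pos hm (by rw [mul_comm]; exact h3)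
    rw [mul_comm]; exact h4

/-- the maximum principle on the line: no sign change is lost -/
theorem Alt.step {f f' f'' q : ℝ → ℝ} (hf : ∀ x, HasDerivAt f (f' x) x)
    (hf' : ∀ x, HasDerivAt f' (f'' x) x) {c₀ C : ℝ} (hc₀ : 0 < c₀) (hq : ∀ t, c₀ ≤ q t)
    (hC : ∀ t, |f t| ≤ C) {k : ℕ} {y : ℝ} (h : Alt f (k + 1) y) :
    ∃ m, Alt (fun x => f'' x - q x * f x) (k + 1) m := by
  have hc : Continuous f := continuous_iff_continuousAt.2 fun x => (hf x).continuousAt
  obtain ⟨x, hx, h1, hs⟩ := h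
  obtain ⟨z', hxz, hzy, hz0⟩ := exists_zero_between hc hx hs
  obtain ⟨m', hm', halt, hm's⟩ := Alt.step_aux hf hf' hc₀ hq hC h1 hxz hz0
  have hy : f y ≠ 0 := fun h => by rw [h, mul_zero] at hs; exact lt_irrefl _ hs
  obtain ⟨m, hm1, hm⟩ := exists_opposite_right hf hf' hc₀ (fun t _ => hq t) hC hz0 hzy hy
  refine ⟨m, m', hm'.trans hm1, halt, ?_⟩
  simp only
  have h3 : 0 < (f'' m' - q m' * f m') * f y := mul_pos_of_two_neg hm's hs
  have h4 : (f'' m - q m * f m) * (f'' m' - q m' * f m') < 0 :=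
    mul_neg_of_neg_pos hm (by rw [mul_comm]; exact h3)
  rw [mul_comm]; exact h4

end TH321.YR
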