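import Mathlib
import Pool.Agent.TH266.LT.Int1
import Pool.Agent.TH321.YR.Line

/-!
# Zeros of solutions on half lines

The potential satisfies `0 ≤ b ≤ B (2 e^x)²`; zeros on the left half line are separated in the
variable `2 e^x`.
-/

set_option autoImplicit false

open Set Filter Topology MeasureTheory intervalIntegral

namespace TH321.YR

open TH266.LT

/-- the potentials -/
structure Pot (b : ℝ → ℝ) (B : ℝ) : Prop where
  cont : Continuous b
  pos : 0 < B
  nonneg : ∀ x, 0 ≤ b x
  leB : ∀ x, b x ≤ B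
  left : ∀ x, b x ≤ B * (2 * Real.exp x) ^ 2
  right : ∀ x, b x ≤ B * (2 * Real.exp (-x)) ^ 2

theorem Pot.reflect {b : ℝ → ℝ} {B : ℝ} (P : Pot b B) : Pot (fun x => b (-x)) B where
  cont := P.cont.comp continuous_neg
  pos := P.pos
  nonneg := fun x => P.nonneg _
  leB := fun x => P.leB _
  left := fun x => by simpa using P.right (-x)
  right := fun x => P.left (-x)

/-- the weighted Poincaré inequality -/
theorem weighted {h h' b : ℝ → ℝ} {B : ℝ} (P : Pot b B) (hh : ∀ x, HasDerivAt h (h' x) x)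
    (hc : Continuous h') {p q : ℝ} (hpq : p ≤ q) (hq : h q = 0) :
    ∫ x in p..q, b x * h x ^ 2 ≤
      B / 2 * (2 * Real.exp q - 2 * Real.exp p) ^ 2 * ∫ x in p..q, h' x ^ 2 := by
  set D := ∫ x in p..q, h' x ^ 2 with hD
  have hhc : Continuous h := continuous_iff_continuousAt.2 fun x => (hh x).continuousAt
  have hc2 : Continuous fun x => h' x ^ 2 := hc.pow 2
  have hD0 : 0 ≤ D := intervalIntegral.integral_nonneg hpq fun x _ => sq_nonneg _
  have hpt : ∀ x ∈ Icc p q, h x ^ 2 ≤ (q - x) * D := by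
    intro x hx
    have h1 : ∫ t in x..q, h' t = - h x := by
      rw [integral_eq_sub_of_hasDerivAt (fun t _ => hh t) (hc.intervalIntegrable _ _), hq]
      ring
    have h2 := sq_integral_le hc hx.2
    rw [h1, neg_sq] at h2
    have h3 : ∫ t in x..q, h' t ^ 2 ≤ D := by
      have h4 : (∫ t in p..x, h' t ^ 2) + ∫ t in x..q, h' t ^ 2 = D :=
        integral_add_adjacent_intervals (hc2.intervalIntegrable _ _) (hc2.intervalIntegrable _ _)
      have h5 : 0 ≤ ∫ t in p..x, h' t ^ 2 :=
        intervalIntegral.integral_nonneg hx.1 fun x _ => sq_nonneg _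
      linarith
    exact h2.trans (mul_le_mul_of_nonneg_left h3 (by linarith [hx.2]))
  have hB := P.pos
  have hmain : ∀ x ∈ Icc p q, b x * h x ^ 2 ≤
      B * D * ((2 * Real.exp q - 2 * Real.exp x) * (2 * Real.exp x)) := by
    intro x hx
    have h1 := hpt x hx
    have hex := Real.exp_pos x
    have h2 : (q - x) * (2 * Real.exp x) ≤ 2 * Real.exp q - 2 * Real.exp x := by
      have h3 := Real.add_one_le_exp (q - x)
      have h4 : Real.exp q = Real.exp (q - x) * Real.exp x := by
        rw [← Real.exp_add]; congr 1; ring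
      rw [h4]
      nlinarith
    have h5 : 0 ≤ (q - x) * D := mul_nonneg (by linarith [hx.2]) hD0
    calc b x * h x ^ 2 ≤ b x * ((q - x) * D) := mul_le_mul_of_nonneg_left h1 (P.nonneg x)
      _ ≤ (B * (2 * Real.exp x) ^ 2) * ((q - x) * D) := mul_le_mul_of_nonneg_right (P.left x) h5
      _ = B * D * (((q - x) * (2 * Real.exp x)) * (2 * Real.exp x)) := by ring
      _ ≤ _ := by
        refine mul_le_mul_of_nonneg_left ?_ (mul_nonneg hB.le hD0)
        exact mul_le_mul_of_nonneg_right h2 (by positivity)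
  have hint : ∫ x in p..q, ((2 * Real.exp q - 2 * Real.exp x) * (2 * Real.exp x)) =
      (2 * Real.exp q - 2 * Real.exp p) ^ 2 / 2 := by
    have h1 : ∀ x : ℝ, HasDerivAt (fun t => -((2 * Real.exp q - 2 * Real.exp t) ^ 2 / 2))
        ((2 * Real.exp q - 2 * Real.exp x) * (2 * Real.exp x)) x := by
      intro x
      have h2 : HasDerivAt (fun t => 2 * Real.exp q - 2 * Real.exp t) (-(2 * Real.exp x)) x :=
        ((Real.hasDerivAt_exp x).const_mul 2).const_sub _
      have h3 := ((h2.pow 2).div_const 2).fun_neg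
      refine h3.congr_deriv ?_
      simp only [Nat.cast_ofNat, Nat.add_one_sub_one, pow_one]
      ring
    rw [integral_eq_sub_of_hasDerivAt (fun t _ => h1 t)
      (by apply Continuous.intervalIntegrable; fun_prop)]
    ring
  calc ∫ x in p..q, b x * h x ^ 2
      ≤ ∫ x in p..q, B * D * ((2 * Real.exp q - 2 * Real.exp x) * (2 * Real.exp x)) := by
        refine intervalIntegral.integral_mono_on hpq ?_ ?_ hmain
        · exact (P.cont.mul (hhc.pow 2)).intervalIntegrable _ _
        · apply Continuous.intervalIntegrable; fun_prop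
    _ = _ := by rw [intervalIntegral.integral_const_mul, hint]; ring

/-- integration by parts for the energy -/
theorem energy_eq {h h' h'' : ℝ → ℝ} (hh : ∀ x, HasDerivAt h (h' x) x)
    (hh' : ∀ x, HasDerivAt h' (h'' x) x) (hc : Continuous h'') (p q : ℝ) :
    ∫ x in p..q, h' x ^ 2 = h q * h' q - h p * h' p - ∫ x in p..q, h x * h'' x := by
  have hhc : Continuous h := continuous_iff_continuousAt.2 fun x => (hh x).continuousAt
  have hhc' : Continuous h' := continuous_iff_continuousAt.2 fun x => (hh' x).continuousAt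
  have h1 : ∀ x, HasDerivAt (fun t => h t * h' t) (h' x ^ 2 + h x * h'' x) x := by
    intro x
    refine ((hh x).mul (hh' x)).congr_deriv ?_
    ring
  have i1 : IntervalIntegrable (fun x => h' x ^ 2) volume p q :=
    (hhc'.pow 2).intervalIntegrable _ _
  have i2 : IntervalIntegrable (fun x => h x * h'' x) volume p q :=
    (hhc.mul hc).intervalIntegrable _ _
  have h2 := integral_eq_sub_of_hasDerivAt (fun t (_ : t ∈ uIcc p q) => h1 t) (i1.add i2)
  rw [intervalIntegral.integral_add i1 i2] at h2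
  linarith

/-- a bounded solution with a zero too close to the end vanishes -/
theorem first_gap {X X' b : ℝ → ℝ} {B κ C : ℝ} (P : Pot b B) (hκ : 0 ≤ κ)
    (hX : ∀ x, HasDerivAt X (X' x) x) (hX' : ∀ x, HasDerivAt X' ((κ - b x) * X x) x)
    (hC : ∀ x, |X x| ≤ C) {z : ℝ} (hz : X z = 0) (hgap : B / 2 * (2 * Real.exp z) ^ 2 < 1) :
    ∀ x, X x = 0 := by
  have hXc : Continuous X := continuous_iff_continuousAt.2 fun x => (hX x).continuousAt
  have hXc' : Continuous X' := continuous_iff_continuousAt.2 fun x => (hX' x).continuousAt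
  have hC0 : 0 ≤ C := (abs_nonneg _).trans (hC 0)
  set θ := B / 2 * (2 * Real.exp z) ^ 2 with hθ
  have hB := P.pos
  have key : ∀ A, A ≤ z → (1 - θ) * ∫ x in A..z, X' x ^ 2 ≤ C * |X' A| := by
    intro A hA
    have hD0 : 0 ≤ ∫ x in A..z, X' x ^ 2 :=
      intervalIntegral.integral_nonneg hA fun x _ => sq_nonneg _
    have h1 := energy_eq hX hX' ((continuous_const.sub P.cont).mul hXc) A z
    rw [hz, zero_mul, zero_sub] at h1
    have h2 := weighted P hX hXc' hA hz
    have h3 : B / 2 * (2 * Real.exp z - 2 * Real.exp A) ^ 2 ≤ θ := by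
      rw [hθ]
      refine mul_le_mul_of_nonneg_left ?_ (by positivity)
      have e1 := Real.exp_pos A
      have e2 := Real.exp_le_exp.2 hA
      exact pow_le_pow_left₀ (by linarith) (by linarith) 2
    have h4 : - ∫ x in A..z, X x * ((κ - b x) * X x) ≤ ∫ x in A..z, b x * X x ^ 2 := by
      rw [← intervalIntegral.integral_neg]
      refine intervalIntegral.integral_mono_on hA ?_ ?_ fun x _ => ?_
      · exact (hXc.mul ((continuous_const.sub P.cont).mul hXc)).neg.intervalIntegrable _ _
      · exact (P.cont.mul (hXc.pow 2)).intervalIntegrable _ _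
      · nlinarith [mul_nonneg hκ (sq_nonneg (X x))]
    have h5 : - (X A * X' A) ≤ C * |X' A| := by
      calc - (X A * X' A) ≤ |X A * X' A| := neg_le_abs _
        _ = |X A| * |X' A| := abs_mul _ _
        _ ≤ _ := mul_le_mul_of_nonneg_right (hC A) (abs_nonneg _)
    have h6 := mul_le_mul_of_nonneg_right h3 hD0
    nlinarith
  -- points with small derivative
  have hsmall : ∀ n : ℕ, 0 < n → ∃ A, A < z - n ∧ |X' A| ≤ 2 * C / n := by
    intro n hn
    have hn' : (0 : ℝ) < n := by exact_mod_cast hn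
    obtain ⟨A, hA, hA'⟩ := exists_hasDerivAt_eq_slope X X' (a := z - 2 * n) (b := z - n)
      (by linarith) hXc.continuousOn (fun x _ => hX x)
    refine ⟨A, hA.2, ?_⟩
    rw [hA']
    have e : z - (n : ℝ) - (z - 2 * n) = n := by ring
    rw [e, abs_div, abs_of_pos hn']
    refine div_le_div_of_nonneg_right ?_ hn'.le
    calc |X (z - n) - X (z - 2 * n)| ≤ |X (z - n)| + |X (z - 2 * n)| := by
          rw [sub_eq_add_neg]
          refine (abs_add_le _ _).trans ?_
          rw [abs_neg]
      _ ≤ 2 * C := by linarith [hC (z - n), hC (z - 2 * n)]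
  have hD : ∫ x in (z - 1)..z, X' x ^ 2 ≤ 0 := by
    by_contra hcon
    push Not at hcon
    set D := ∫ x in (z - 1)..z, X' x ^ 2 with hDdef
    have hpos : 0 < (1 - θ) * D := mul_pos (by linarith) hcon
    obtain ⟨n, hn⟩ := exists_nat_gt (2 * C ^ 2 / ((1 - θ) * D))
    have hn1 : (0 : ℝ) < (n + 1 : ℕ) := by positivity
    obtain ⟨A, hA, hA'⟩ := hsmall (n + 1) (Nat.succ_pos n)
    have hAz : A ≤ z - 1 := by
      have : (1 : ℝ) ≤ (n + 1 : ℕ) := by push_cast; linarith [(Nat.cast_nonneg n : (0 : ℝ) ≤ n)]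
      linarith
    have h1 := key A (by linarith)
    have h2 : D ≤ ∫ x in A..z, X' x ^ 2 := by
      have c2 : Continuous fun x => X' x ^ 2 := hXc'.pow 2
      have h4 : (∫ t in A..(z - 1), X' t ^ 2) + ∫ t in (z - 1)..z, X' t ^ 2 =
          ∫ t in A..z, X' t ^ 2 :=
        integral_add_adjacent_intervals (c2.intervalIntegrable _ _) (c2.intervalIntegrable _ _)
      have h5 : 0 ≤ ∫ t in A..(z - 1), X' t ^ 2 :=
        intervalIntegral.integral_nonneg hAz fun x _ => sq_nonneg _
      linarith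
    have h3 : (1 - θ) * D ≤ C * (2 * C / (n + 1 : ℕ)) :=
      ((mul_le_mul_of_nonneg_left h2 (by linarith)).trans h1).trans
        (mul_le_mul_of_nonneg_left hA' hC0)
    have h4 : C * (2 * C / (n + 1 : ℕ)) = 2 * C ^ 2 / (n + 1 : ℕ) := by ring
    rw [h4, le_div_iff₀ hn1] at h3
    rw [div_lt_iff₀ hpos] at hn
    push_cast at h3
    nlinarith
  have hXz' : X' z = 0 := by
    by_contra hne
    have hc2 : Continuous fun x => X' x ^ 2 := hXc'.pow 2
    have hpos : 0 < ∫ x in (z - 1)..z, X' x ^ 2 := by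
      refine intervalIntegral.integral_pos (by linarith) hc2.continuousOn
        (fun x _ => sq_nonneg _) ⟨z, right_mem_Icc.2 (by linarith), by positivity⟩
    linarith
  intro x
  refine (ode_unique (v := X) (v' := X') (a := b) (μ := κ) (K := κ + B) hX hX' (fun x => ?_)
    hz hXz' x).1
  rw [abs_le]
  constructor <;> linarith [P.nonneg x, P.leB x]

/-- comparison of two bounded solutions near the left end -/
theorem compare {X₀ X₀' X₁ X₁' b : ℝ → ℝ} {κ₀ κ₁ C : ℝ}
    (hκ : κ₀ ≤ κ₁) (hκ₁ : 1 ≤ κ₁)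
    (h0 : ∀ x, HasDerivAt X₀ (X₀' x) x) (h0' : ∀ x, HasDerivAt X₀' ((κ₀ - b x) * X₀ x) x)
    (h1 : ∀ x, HasDerivAt X₁ (X₁' x) x) (h1' : ∀ x, HasDerivAt X₁' ((κ₁ - b x) * X₁ x) x)
    (hC : ∀ x, |X₁ x| ≤ C) {τ : ℝ} (hτ : ∀ t, t < τ → b t ≤ 1 / 2)
    (hpos : ∀ t, t ≤ τ → 0 < X₀ t) :
    ∀ t, t ≤ τ → |X₁ t| ≤ |X₁ τ| / X₀ τ * X₀ t := by
  have hτpos := hpos τ le_rfl
  set K := |X₁ τ| / X₀ τ with hK
  have hK0 : 0 ≤ K := by positivity
  have hKτ : K * X₀ τ = |X₁ τ| := by rw [hK]; field_simp
  -- one sided statement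
  have main : ∀ Y Y' : ℝ → ℝ, (∀ x, HasDerivAt Y (Y' x) x) →
      (∀ x, HasDerivAt Y' ((κ₁ - b x) * Y x) x) → (∀ x, Y x ≤ C) → Y τ ≤ K * X₀ τ →
      ∀ t, t ≤ τ → Y t ≤ K * X₀ t := by
    intro Y Y' hY hY' hYC hYτ t ht
    by_contra hcon
    push Not at hcon
    have htτ : t < τ := lt_of_le_of_ne ht (by rintro rfl; linarith)
    obtain ⟨m, hm, hm'⟩ := pl_left (f := fun x => Y x - K * X₀ x)
      (f' := fun x => Y' x - K * X₀' x)
      (f'' := fun x => (κ₁ - b x) * Y x - K * ((κ₀ - b x) * X₀ x))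
      (q := fun x => κ₁ - b x) (c₀ := 1 / 2) (C := C) (z := τ) (x := t)
      (fun x => (hY x).sub ((h0 x).const_mul K)) (fun x => (hY' x).sub ((h0' x).const_mul K))
      (by norm_num) (fun s hs => by linarith [hτ s hs])
      (fun s hs => by
        have := mul_nonneg hK0 (hpos s hs).le
        linarith [hYC s]) (by linarith) htτ (by linarith)
    have h3 : 0 ≤ K * ((κ₁ - κ₀) * X₀ m) :=
      mul_nonneg hK0 (mul_nonneg (by linarith) (hpos m hm.le).le)
    nlinarith
  intro t ht
  rw [abs_le]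
  constructor
  · have := main (fun x => - X₁ x) (fun x => - X₁' x) (fun x => (h1 x).fun_neg)
      (fun x => by
        have := (h1' x).fun_neg
        refine this.congr_deriv ?_
        ring) (fun x => (neg_le_abs _).trans (hC x)) (by rw [hKτ]; exact neg_le_abs _) t ht
    linarith
  · exact main X₁ X₁' h1 h1' (fun x => (le_abs_self _).trans (hC x))
      (by rw [hKτ]; exact le_abs_self _) t ht

end TH321.YR
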