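import Mathlib
import Pool.Agent.TH321.YR.Gap

/-!
# Zeros of the normalised iterates
-/

set_option autoImplicit false

open Set Filter Topology MeasureTheory intervalIntegral

namespace TH321.YR

open TH266.LT

section
variable {s : Finset ℕ} {X X' : ℕ → ℝ → ℝ} {b : ℝ → ℝ} {B : ℝ}

/-- the family of modes -/
structure Modes (s : Finset ℕ) (X X' : ℕ → ℝ → ℝ) (b : ℝ → ℝ) (B : ℝ) : Prop where
  P : Pot b B
  hX : ∀ k ∈ s, ∀ x, HasDerivAt (X k) (X' k x) x
  hX' : ∀ k ∈ s, ∀ x, HasDerivAt (X' k) (((k : ℝ) ^ 2 - b x) * X k x) x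
  bdd : ∀ k ∈ s, ∃ C, ∀ x, |X k x| ≤ C

theorem Modes.reflect (h : Modes s X X' b B) :
    Modes s (fun k x => X k (-x)) (fun k x => - X' k (-x)) (fun x => b (-x)) B where
  P := h.P.reflect
  hX := fun k hk => hasDerivAt_reflect (h.hX k hk)
  hX' := fun k hk => hasDerivAt_reflect' (f' := fun x => ((k : ℝ) ^ 2 - b x) * X k x) (h.hX' k hk)
  bdd := fun k hk => by
    obtain ⟨C, hC⟩ := h.bdd k hk
    exact ⟨C, fun x => hC _⟩

/-- the tail: all modes are dominated by the lowest one -/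
theorem Modes.tail (h : Modes s X X' b B) {k₀ : ℕ} (hk₀ : k₀ ∈ s) (hne : ∃ x, X k₀ x ≠ 0)
    {ℓ : ℝ} (hℓ : 0 < ℓ) (hℓB : B / 2 * ℓ ^ 2 < 1) :
    ∃ τ, τ < 0 ∧ (∀ t, t ≤ τ → 2 * Real.exp t ≤ ℓ) ∧
      ∀ k ∈ s, k₀ < k → ∃ C, 0 ≤ C ∧ ∀ z, z ≤ 0 → 2 * Real.exp z ≤ ℓ →
        |X k z| ≤ C * |X k₀ z| := by
  have hB := h.P.pos
  -- no zeros
  obtain ⟨C₀, hC₀⟩ := h.bdd k₀ hk₀
  have hnz : ∀ z, 2 * Real.exp z ≤ ℓ → X k₀ z ≠ 0 := by
    intro z hz h0
    obtain ⟨x, hx⟩ := hne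
    refine hx (first_gap h.P (by positivity) (h.hX k₀ hk₀) (h.hX' k₀ hk₀) hC₀ h0 ?_ x)
    refine lt_of_le_of_lt ?_ hℓB
    refine mul_le_mul_of_nonneg_left ?_ (by positivity)
    exact pow_le_pow_left₀ (by positivity) hz 2
  -- the threshold
  obtain ⟨τ, hτ0, hτℓ, hτB⟩ : ∃ τ : ℝ, τ < 0 ∧ 2 * Real.exp τ ≤ ℓ ∧
      B * (2 * Real.exp τ) ^ 2 ≤ 1 / 2 := by
    have h1 : Tendsto (fun t : ℝ => 2 * Real.exp t) atBot (𝓝 0) := by
      simpa using Real.tendsto_exp_atBot.const_mul 2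
    have h2 : Tendsto (fun t : ℝ => B * (2 * Real.exp t) ^ 2) atBot (𝓝 0) := by
      simpa using (h1.pow 2).const_mul B
    obtain ⟨τ, ⟨h3, h4⟩, h5⟩ := (((eventually_lt_atBot (0 : ℝ)).and
      (h1.eventually (gt_mem_nhds hℓ))).and
      (h2.eventually (gt_mem_nhds (by norm_num : (0 : ℝ) < 1 / 2)))).exists
    exact ⟨τ, h3, h4.le, h5.le⟩
  have hmono : ∀ t, t ≤ τ → 2 * Real.exp t ≤ ℓ := fun t ht => by
    have := Real.exp_le_exp.2 ht
    linarith
  have hbt : ∀ t, t < τ → b t ≤ 1 / 2 := fun t ht => by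
    refine (h.P.left t).trans (le_trans ?_ hτB)
    refine mul_le_mul_of_nonneg_left ?_ hB.le
    have := Real.exp_le_exp.2 ht.le
    exact pow_le_pow_left₀ (by positivity) (by linarith) 2
  refine ⟨τ, hτ0, hmono, fun k hk hkk => ?_⟩
  have hcont₀ : Continuous (X k₀) :=
    continuous_iff_continuousAt.2 fun x => (h.hX k₀ hk₀ x).continuousAt
  obtain ⟨C₁, hC₁⟩ := h.bdd k hk
  have hC₁0 : 0 ≤ C₁ := (abs_nonneg _).trans (hC₁ 0)
  -- left part
  have hleft : ∃ C, 0 ≤ C ∧ ∀ t, t ≤ τ → |X k t| ≤ C * |X k₀ t| := by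
    have hkk' : (k₀ : ℝ) ^ 2 ≤ (k : ℝ) ^ 2 := by
      have : (k₀ : ℝ) ≤ k := by exact_mod_cast hkk.le
      exact pow_le_pow_left₀ (by positivity) this 2
    have hk1 : (1 : ℝ) ≤ (k : ℝ) ^ 2 := by
      have : (1 : ℝ) ≤ k := by exact_mod_cast (by omega : 1 ≤ k)
      nlinarith
    rcases lt_or_gt_of_ne (hnz τ hτℓ) with hs | hs
    · have hneg : ∀ t, t ≤ τ → 0 < - X k₀ t := by
        intro t ht
        by_contra hcon
        have h1 : 0 ≤ X k₀ t := by linarith [not_lt.1 hcon]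
        obtain ⟨u, hu, hu0⟩ := intermediate_value_Icc' ht hcont₀.continuousOn ⟨hs.le, h1⟩
        exact hnz u (hmono u hu.2) hu0
      refine ⟨|X k τ| / (-X k₀ τ), div_nonneg (abs_nonneg _) (hneg τ le_rfl).le, fun t ht => ?_⟩
      have := compare (X₀ := fun x => - X k₀ x) (X₀' := fun x => - X' k₀ x)
        (κ₀ := (k₀ : ℝ) ^ 2) (κ₁ := (k : ℝ) ^ 2) hkk' hk1
        (fun x => (h.hX k₀ hk₀ x).fun_neg)
        (fun x => by
          refine (h.hX' k₀ hk₀ x).fun_neg.congr_deriv ?_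
          ring)
        (h.hX k hk) (h.hX' k hk) hC₁ hbt hneg t ht
      have e : |X k₀ t| = - X k₀ t := abs_of_neg (by linarith [hneg t ht])
      rw [e]; exact this
    · have hpos : ∀ t, t ≤ τ → 0 < X k₀ t := by
        intro t ht
        by_contra hcon
        have h1 : X k₀ t ≤ 0 := not_lt.1 hcon
        obtain ⟨u, hu, hu0⟩ := intermediate_value_Icc ht hcont₀.continuousOn ⟨h1, hs.le⟩
        exact hnz u (hmono u hu.2) hu0
      refine ⟨|X k τ| / (X k₀ τ), div_nonneg (abs_nonneg _) (hpos τ le_rfl).le, fun t ht => ?_⟩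
      have := compare (κ₀ := (k₀ : ℝ) ^ 2) (κ₁ := (k : ℝ) ^ 2) hkk' hk1
        (h.hX k₀ hk₀) (h.hX' k₀ hk₀) (h.hX k hk) (h.hX' k hk) hC₁ hbt hpos t ht
      rw [abs_of_pos (hpos t ht)]; exact this
  obtain ⟨C, hC, hC'⟩ := hleft
  -- the compact part
  let K : Set ℝ := {z | τ ≤ z ∧ z ≤ 0 ∧ 2 * Real.exp z ≤ ℓ}
  have hKc : IsCompact K := by
    have : K = Icc τ 0 ∩ {z | 2 * Real.exp z ≤ ℓ} := by
      ext z; simp only [K, Set.mem_ofPred_eq, mem_inter_iff, mem_Icc]; tauto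
    rw [this]
    exact isCompact_Icc.inter_right (isClosed_le (by fun_prop) continuous_const)
  have hcomp : ∃ c, 0 < c ∧ ∀ z ∈ K, c ≤ |X k₀ z| := by
    rcases K.eq_empty_or_nonempty with he | hn
    · exact ⟨1, one_pos, fun z hz => by rw [he] at hz; exact absurd hz (notMem_empty z)⟩
    · obtain ⟨m, hm, hmin⟩ := hKc.exists_isMinOn hn (hcont₀.abs.continuousOn)
      exact ⟨|X k₀ m|, abs_pos.2 (hnz m hm.2.2), fun z hz => hmin hz⟩
  obtain ⟨c, hc, hcK⟩ := hcomp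
  refine ⟨C + C₁ / c, by positivity, fun z hz hzℓ => ?_⟩
  have ha := abs_nonneg (X k₀ z)
  rcases le_or_gt z τ with hzt | hzt
  · refine (hC' z hzt).trans ?_
    have : 0 ≤ C₁ / c * |X k₀ z| := by positivity
    linarith
  · have h1 := hcK z ⟨hzt.le, hz, hzℓ⟩
    have h2 : C₁ ≤ C₁ / c * |X k₀ z| := by
      calc C₁ = C₁ / c * c := by field_simp
        _ ≤ _ := mul_le_mul_of_nonneg_left h1 (by positivity)
    have h3 : 0 ≤ C * |X k₀ z| := by positivity
    have := hC₁ z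
    linarith

/-- the zeros of the normalised iterates on the left half line -/
theorem Modes.left_eventually (h : Modes s X X' b B) {k₀ : ℕ} (hk₀ : k₀ ∈ s)
    (hne : ∃ x, X k₀ x ≠ 0) (hmin : ∀ k ∈ s, k ≠ k₀ → k₀ < k) {r : ℕ → ℝ} (hr0 : r k₀ = 1)
    (hr : ∀ k ∈ s, k ≠ k₀ → |r k| < 1) {ℓ : ℝ} (hℓ : 0 < ℓ) (hℓB : B / 2 * ℓ ^ 2 < 1) :
    ∀ᶠ m : ℕ in atTop,
      (∀ z, z ≤ 0 → (∑ k ∈ s, r k ^ m * X k z) = 0 → ℓ < 2 * Real.exp z) ∧
      (∀ p q, p < q → q ≤ 0 → (∑ k ∈ s, r k ^ m * X k p) = 0 →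
        (∑ k ∈ s, r k ^ m * X k q) = 0 → ℓ ≤ 2 * Real.exp q - 2 * Real.exp p) := by
  have hB := h.P.pos
  have hXc : ∀ k ∈ s, Continuous (X k) := fun k hk =>
    continuous_iff_continuousAt.2 fun x => (h.hX k hk x).continuousAt
  have hXc' : ∀ k ∈ s, Continuous (X' k) := fun k hk =>
    continuous_iff_continuousAt.2 fun x => (h.hX' k hk x).continuousAt
  obtain ⟨τ, hτ0, hτℓ, htail⟩ := h.tail hk₀ hne hℓ hℓB
  -- constants
  have hC1 : ∀ k : ℕ, ∃ C, 0 ≤ C ∧ (k ∈ s → k ≠ k₀ → ∀ z, z ≤ 0 → 2 * Real.exp z ≤ ℓ →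
      |X k z| ≤ C * |X k₀ z|) := by
    intro k
    by_cases hk : k ∈ s ∧ k ≠ k₀
    · obtain ⟨C, hC, hC'⟩ := htail k hk.1 (hmin k hk.1 hk.2)
      exact ⟨C, hC, fun _ _ => hC'⟩
    · exact ⟨0, le_rfl, fun h1 h2 => absurd ⟨h1, h2⟩ hk⟩
  choose C hC hC' using hC1
  have hM1 : ∀ k : ℕ, ∃ M, 0 ≤ M ∧ (k ∈ s → ∀ z ∈ Icc τ 0, |X k z| ≤ M ∧ |X' k z| ≤ M) := by
    intro k
    by_cases hk : k ∈ s
    · obtain ⟨M₁, hM₁⟩ := isCompact_Icc.exists_bound_of_continuousOn
        ((hXc k hk).continuousOn (s := Icc τ 0))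
      obtain ⟨M₂, hM₂⟩ := isCompact_Icc.exists_bound_of_continuousOn
        ((hXc' k hk).continuousOn (s := Icc τ 0))
      refine ⟨max (max M₁ M₂) 0, le_max_right _ _, fun _ z hz => ⟨?_, ?_⟩⟩
      · exact (hM₁ z hz).trans ((le_max_left _ _).trans (le_max_left _ _))
      · exact (hM₂ z hz).trans ((le_max_right _ _).trans (le_max_left _ _))
    · exact ⟨0, le_rfl, fun h1 => absurd h1 hk⟩
  choose M hM hM' using hM1
  let w : ℕ → ℝ := fun k => C k + M k * (1 + |(k : ℝ) ^ 2 - (k₀ : ℝ) ^ 2|)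
  have hw : ∀ k, 0 ≤ w k := fun k => by
    have := hC k; have := hM k; positivity
  have hwC : ∀ k, C k ≤ w k := fun k => by
    have : 0 ≤ M k * (1 + |(k : ℝ) ^ 2 - (k₀ : ℝ) ^ 2|) := by have := hM k; positivity
    simp only [w]; linarith
  have hwM : ∀ k, M k ≤ w k := fun k => by
    have h1 := hC k
    have h2 : 0 ≤ M k * |(k : ℝ) ^ 2 - (k₀ : ℝ) ^ 2| := mul_nonneg (hM k) (abs_nonneg _)
    simp only [w]; linarith
  have hwM' : ∀ k : ℕ, |(k : ℝ) ^ 2 - (k₀ : ℝ) ^ 2| * M k ≤ w k := fun k => by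
    have h1 := hC k
    have h2 := hM k
    simp only [w]; linarith
  let η : ℕ → ℝ := fun m => ∑ j ∈ s.erase k₀, |r j| ^ m * w j
  have hη0 : ∀ m, 0 ≤ η m := fun m => Finset.sum_nonneg fun j _ =>
    mul_nonneg (pow_nonneg (abs_nonneg _) _) (hw j)
  have hη : Tendsto η atTop (𝓝 0) := by
    have : (0 : ℝ) = ∑ j ∈ s.erase k₀, 0 * w j := by simp
    rw [this]
    refine tendsto_finsetSum _ fun j hj => ?_
    have hj' := Finset.mem_erase.1 hj
    exact (tendsto_pow_atTop_nhds_zero_of_abs_lt_one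
      (by rw [abs_abs]; exact hr j hj'.2 hj'.1)).mul_const _
  have hbd : ∀ (m : ℕ) (g : ℕ → ℝ) (c : ℝ), 0 ≤ c → (∀ j ∈ s.erase k₀, |g j| ≤ w j * c) →
      |∑ j ∈ s.erase k₀, r j ^ m * g j| ≤ η m * c := by
    intro m g c hc hg
    rw [Finset.sum_mul]
    refine (Finset.abs_sum_le_sum_abs _ _).trans (Finset.sum_le_sum fun j hj => ?_)
    rw [abs_mul, abs_pow, mul_assoc]
    exact mul_le_mul_of_nonneg_left (hg j hj) (by positivity)
  -- the lower bound on the compact part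
  have hlow : ∃ c, 0 < c ∧ ∀ z ∈ Icc τ 0, c ≤ X k₀ z ^ 2 + X' k₀ z ^ 2 := by
    obtain ⟨m, _, hmn⟩ := isCompact_Icc.exists_isMinOn (nonempty_Icc.2 hτ0.le)
      ((((hXc k₀ hk₀).pow 2).add ((hXc' k₀ hk₀).pow 2)).continuousOn (s := Icc τ 0))
    refine ⟨X k₀ m ^ 2 + X' k₀ m ^ 2, ?_, fun z hz => hmn hz⟩
    by_contra hcon
    have h1 : X k₀ m ^ 2 + X' k₀ m ^ 2 = 0 := le_antisymm (not_lt.1 hcon) (by positivity)
    have h2 : X k₀ m = 0 := by nlinarith [sq_nonneg (X k₀ m), sq_nonneg (X' k₀ m)]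
    have h3 : X' k₀ m = 0 := by nlinarith [sq_nonneg (X k₀ m), sq_nonneg (X' k₀ m)]
    obtain ⟨y, hy⟩ := hne
    refine hy (ode_unique (h.hX k₀ hk₀) (h.hX' k₀ hk₀) (K := (k₀ : ℝ) ^ 2 + B) (fun x => ?_)
      h2 h3 y).1
    rw [abs_le]
    constructor <;> nlinarith [h.P.nonneg x, h.P.leB x, sq_nonneg (k₀ : ℝ)]
  obtain ⟨c, hc, hclow⟩ := hlow
  set θ := B / 2 * ℓ ^ 2 with hθ
  set L := -τ with hL
  have hL0 : 0 < L := by rw [hL]; linarith
  have hθ1 : 0 < 1 - θ := by linarith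
  -- the largeness of `m`
  have hlim : Tendsto (fun m => (η m * (L ^ 2 / (1 - θ)) + η m) ^ 2 + η m ^ 2) atTop (𝓝 0) := by
    have := ((((hη.mul_const (L ^ 2 / (1 - θ))).add hη).pow 2).add (hη.pow 2))
    simpa using this
  filter_upwards [hη.eventually (gt_mem_nhds one_pos), hlim.eventually (gt_mem_nhds hc)] with m
    hm1 hm2
  have hsplit : ∀ z, (∑ k ∈ s, r k ^ m * X k z) = X k₀ z + ∑ j ∈ s.erase k₀, r j ^ m * X j z := by
    intro z
    rw [← Finset.add_sum_erase s _ hk₀, hr0, one_pow, one_mul]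
  have first : ∀ z, z ≤ 0 → (∑ k ∈ s, r k ^ m * X k z) = 0 → ℓ < 2 * Real.exp z := by
    intro z hz h0
    by_contra hcon
    push Not at hcon
    rw [hsplit] at h0
    have h1 := hbd m (fun j => X j z) (|X k₀ z|) (abs_nonneg _) (fun j hj => by
      have hj' := Finset.mem_erase.1 hj
      exact (hC' j hj'.2 hj'.1 z hz hcon).trans
        (mul_le_mul_of_nonneg_right (hwC j) (abs_nonneg _)))
    have h2 : |X k₀ z| ≤ η m * |X k₀ z| := by
      have : X k₀ z = - ∑ j ∈ s.erase k₀, r j ^ m * X j z := by linarith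
      calc |X k₀ z| = |∑ j ∈ s.erase k₀, r j ^ m * X j z| := by
            conv_lhs => rw [this]
            rw [abs_neg]
        _ ≤ _ := h1
    have h3 : X k₀ z ≠ 0 := by
      intro h0
      obtain ⟨C₀, hC₀⟩ := h.bdd k₀ hk₀
      obtain ⟨x, hx⟩ := hne
      refine hx (first_gap h.P (by positivity) (h.hX k₀ hk₀) (h.hX' k₀ hk₀) hC₀ h0 ?_ x)
      refine lt_of_le_of_lt ?_ hℓB
      refine mul_le_mul_of_nonneg_left ?_ (by positivity)
      exact pow_le_pow_left₀ (by positivity) hcon 2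
    have h4 := abs_pos.2 h3
    nlinarith
  refine ⟨first, fun p q hpq hq hp0 hq0 => ?_⟩
  by_contra hcon
  push Not at hcon
  have hpτ : τ < p := by
    by_contra hle
    push Not at hle
    have := first p (hpq.le.trans hq) hp0
    linarith [hτℓ p hle]
  have hIcc : ∀ x ∈ Icc p q, x ∈ Icc τ 0 := fun x hx => ⟨hpτ.le.trans hx.1, hx.2.trans hq⟩
  let f : ℝ → ℝ := fun x => ∑ k ∈ s, r k ^ m * X k x
  let f' : ℝ → ℝ := fun x => ∑ k ∈ s, r k ^ m * X' k x
  let f'' : ℝ → ℝ := fun x => ∑ k ∈ s, r k ^ m * (((k : ℝ) ^ 2 - b x) * X k x)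
  have hf : ∀ x, HasDerivAt f (f' x) x :=
    fun x => HasDerivAt.fun_sum fun j hj => (h.hX j hj x).const_mul _
  have hf' : ∀ x, HasDerivAt f' (f'' x) x :=
    fun x => HasDerivAt.fun_sum fun j hj => (h.hX' j hj x).const_mul _
  have hfc : Continuous f := continuous_iff_continuousAt.2 fun x => (hf x).continuousAt
  have hfc' : Continuous f' := continuous_iff_continuousAt.2 fun x => (hf' x).continuousAt
  have hfc'' : Continuous f'' := by
    refine continuous_finsetSum _ fun j hj => ?_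
    exact continuous_const.mul ((continuous_const.sub h.P.cont).mul (hXc j hj))
  -- the error
  let e : ℝ → ℝ := fun x => ∑ j ∈ s.erase k₀, r j ^ m * (((j : ℝ) ^ 2 - (k₀ : ℝ) ^ 2) * X j x)
  have he : ∀ x, f'' x = ((k₀ : ℝ) ^ 2 - b x) * f x + e x := by
    intro x
    simp only [f, f'', e]
    rw [← Finset.add_sum_erase s _ hk₀, ← Finset.add_sum_erase s _ hk₀, hr0]
    rw [mul_add, Finset.mul_sum, add_assoc, ← Finset.sum_add_distrib]
    congr 1
    · ring
    · refine Finset.sum_congr rfl fun j _ => ?_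
      ring
  have heb : ∀ x ∈ Icc τ 0, |e x| ≤ η m := by
    intro x hx
    have := hbd m (fun j => ((j : ℝ) ^ 2 - (k₀ : ℝ) ^ 2) * X j x) 1 zero_le_one (fun j hj => by
      have hj' := Finset.mem_erase.1 hj
      rw [abs_mul, mul_one]
      exact (mul_le_mul_of_nonneg_left (hM' j hj'.2 x hx).1 (abs_nonneg _)).trans (hwM' j))
    simpa using this
  have hec : Continuous e := by
    refine continuous_finsetSum _ fun j hj => ?_
    exact continuous_const.mul (continuous_const.mul (hXc j (Finset.mem_erase.1 hj).2))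
  set D := ∫ x in p..q, f' x ^ 2 with hD
  have hD0 : 0 ≤ D := intervalIntegral.integral_nonneg hpq.le fun x _ => sq_nonneg _
  have hlen : q - p ≤ L := by rw [hL]; linarith
  -- pointwise bound by the energy
  have hpt : ∀ x ∈ Icc p q, |f x| ≤ √(L * D) := by
    intro x hx
    have h1 : ∫ t in x..q, f' t = - f x := by
      rw [integral_eq_sub_of_hasDerivAt (fun t _ => hf t) (hfc'.intervalIntegrable _ _)]
      have : f q = 0 := hq0
      rw [this]; ring
    have h2 := sq_integral_le hfc' hx.2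
    rw [h1, neg_sq] at h2
    have c2 : Continuous fun x => f' x ^ 2 := hfc'.pow 2
    have h3 : ∫ t in x..q, f' t ^ 2 ≤ D := by
      have h4 : (∫ t in p..x, f' t ^ 2) + ∫ t in x..q, f' t ^ 2 = D :=
        integral_add_adjacent_intervals (c2.intervalIntegrable _ _) (c2.intervalIntegrable _ _)
      have h5 : 0 ≤ ∫ t in p..x, f' t ^ 2 :=
        intervalIntegral.integral_nonneg hx.1 fun x _ => sq_nonneg _
      linarith
    apply Real.abs_le_sqrt
    refine h2.trans ?_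
    have h6 : q - x ≤ L := by linarith [hx.1]
    calc (q - x) * ∫ t in x..q, f' t ^ 2 ≤ (q - x) * D :=
          mul_le_mul_of_nonneg_left h3 (by linarith [hx.2])
      _ ≤ L * D := mul_le_mul_of_nonneg_right h6 hD0
  have henergy : D ≤ θ * D + η m * (L * √(L * D)) := by
    have h1 := energy_eq hf hf' hfc'' p q
    have hp0' : f p = 0 := hp0
    have hq0' : f q = 0 := hq0
    rw [hp0', hq0', zero_mul, zero_mul, sub_zero, zero_sub, ← hD] at h1
    have h2 := weighted h.P hf hfc' hpq.le hq0'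
    rw [← hD] at h2
    have h3 : B / 2 * (2 * Real.exp q - 2 * Real.exp p) ^ 2 ≤ θ := by
      rw [hθ]
      refine mul_le_mul_of_nonneg_left ?_ (by positivity)
      have e2 := Real.exp_le_exp.2 hpq.le
      exact pow_le_pow_left₀ (by linarith) hcon.le 2
    have h4 : - ∫ x in p..q, f x * f'' x ≤
        ∫ x in p..q, (b x * f x ^ 2 + η m * √(L * D)) := by
      rw [← intervalIntegral.integral_neg]
      refine intervalIntegral.integral_mono_on hpq.le ?_ ?_ fun x hx => ?_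
      · exact (hfc.mul hfc'').neg.intervalIntegrable _ _
      · exact ((h.P.cont.mul (hfc.pow 2)).add continuous_const).intervalIntegrable _ _
      · rw [he x]
        have h5 : - (f x * e x) ≤ η m * √(L * D) := by
          calc - (f x * e x) ≤ |f x * e x| := neg_le_abs _
            _ = |e x| * |f x| := by rw [abs_mul, mul_comm]
            _ ≤ η m * √(L * D) :=
              mul_le_mul (heb x (hIcc x hx)) (hpt x hx) (abs_nonneg _) (hη0 m)
        have h6 : 0 ≤ (k₀ : ℝ) ^ 2 * f x ^ 2 := by positivity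
        nlinarith
    have i1 : IntervalIntegrable (fun x => b x * f x ^ 2) volume p q :=
      (h.P.cont.mul (hfc.pow 2)).intervalIntegrable _ _
    have i2 : IntervalIntegrable (fun _ : ℝ => η m * √(L * D)) volume p q :=
      continuous_const.intervalIntegrable _ _
    rw [intervalIntegral.integral_add i1 i2, intervalIntegral.integral_const,
      smul_eq_mul] at h4
    have h7 : (q - p) * (η m * √(L * D)) ≤ η m * (L * √(L * D)) := by
      have : 0 ≤ η m * √(L * D) := mul_nonneg (hη0 m) (Real.sqrt_nonneg _)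
      calc (q - p) * (η m * √(L * D)) ≤ L * (η m * √(L * D)) :=
            mul_le_mul_of_nonneg_right hlen this
        _ = _ := by ring
    have h8 := mul_le_mul_of_nonneg_right h3 hD0
    linarith
  -- hence `√(L D)` is small
  have hsmall : √(L * D) ≤ η m * (L ^ 2 / (1 - θ)) := by
    set S := √(L * D) with hS
    have hS0 : 0 ≤ S := Real.sqrt_nonneg _
    have hS2 : S ^ 2 = L * D := Real.sq_sqrt (by positivity)
    have h1 : (1 - θ) * S ^ 2 ≤ η m * L ^ 2 * S := by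
      rw [hS2]
      nlinarith [mul_le_mul_of_nonneg_left henergy hL0.le]
    rcases hS0.eq_or_lt with h0 | h0
    · rw [← h0]
      have := hη0 m
      positivity
    · have h2 : (1 - θ) * S ≤ η m * L ^ 2 := by
        by_contra hlt
        push Not at hlt
        nlinarith
      rw [← mul_div_assoc, le_div_iff₀ hθ1]
      linarith
  obtain ⟨ξ, hξ, hξ0⟩ := exists_hasDerivAt_eq_zero hpq hfc.continuousOn
    (hp0.trans hq0.symm) (fun x _ => hf x)
  have hξI : ξ ∈ Icc p q := ⟨hξ.1.le, hξ.2.le⟩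
  have h1 : |f ξ| ≤ η m * (L ^ 2 / (1 - θ)) := (hpt ξ hξI).trans hsmall
  have h2 : |f ξ - X k₀ ξ| ≤ η m := by
    have e1 : f ξ - X k₀ ξ = ∑ j ∈ s.erase k₀, r j ^ m * X j ξ := by
      have := hsplit ξ
      simp only [f]
      rw [this]; ring
    rw [e1]
    have := hbd m (fun j => X j ξ) 1 zero_le_one (fun j hj => by
      have hj' := Finset.mem_erase.1 hj
      rw [mul_one]
      exact (hM' j hj'.2 ξ (hIcc ξ hξI)).1.trans (hwM j))
    simpa using this
  have h3 : |f' ξ - X' k₀ ξ| ≤ η m := by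
    have e1 : f' ξ - X' k₀ ξ = ∑ j ∈ s.erase k₀, r j ^ m * X' j ξ := by
      simp only [f']
      rw [← Finset.add_sum_erase s _ hk₀, hr0]
      ring
    rw [e1]
    have := hbd m (fun j => X' j ξ) 1 zero_le_one (fun j hj => by
      have hj' := Finset.mem_erase.1 hj
      rw [mul_one]
      exact (hM' j hj'.2 ξ (hIcc ξ hξI)).2.trans (hwM j))
    simpa using this
  have h4 : |X k₀ ξ| ≤ η m * (L ^ 2 / (1 - θ)) + η m := by
    have := abs_sub_abs_le_abs_sub (X k₀ ξ) (f ξ)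
    rw [abs_sub_comm] at this
    linarith
  have h5 : |X' k₀ ξ| ≤ η m := by
    rwa [hξ0, zero_sub, abs_neg] at h3
  have h6 : X k₀ ξ ^ 2 ≤ (η m * (L ^ 2 / (1 - θ)) + η m) ^ 2 := by
    rw [← sq_abs (X k₀ ξ)]; exact pow_le_pow_left₀ (abs_nonneg _) h4 2
  have h7 : X' k₀ ξ ^ 2 ≤ η m ^ 2 := by
    rw [← sq_abs (X' k₀ ξ)]; exact pow_le_pow_left₀ (abs_nonneg _) h5 2
  linarith [hclow ξ (hIcc ξ hξI)]

end

end TH321.YR
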