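import Mathlib
import Pool.Agent.TH321.YR.Gap2

/-!
# The number of simple zeros of a combination of modes on the line
-/

set_option autoImplicit false

open Set Filter Topology MeasureTheory

namespace TH321.YR

open TH266.LT

/-- separated points -/
theorem card_sep {ℓ : ℝ} (Z : Finset ℝ) : (∀ z ∈ Z, ℓ ≤ 2 * Real.exp z) →
    (∀ p ∈ Z, ∀ q ∈ Z, p < q → ℓ ≤ 2 * Real.exp q - 2 * Real.exp p) →
    ∀ y, (∀ z ∈ Z, z ≤ y) → (Z.card : ℝ) * ℓ ≤ 2 * Real.exp y := by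
  induction Z using Finset.induction_on_max with
  | empty =>
    intro _ _ y _
    simp only [Finset.card_empty, Nat.cast_zero, zero_mul]
    positivity
  | insert a s hs ih =>
    intro h1 h2 y hy
    have hnot : a ∉ s := fun h => lt_irrefl _ (hs a h)
    rw [Finset.card_insert_of_notMem hnot]
    have hay := Real.exp_le_exp.2 (hy a (Finset.mem_insert_self _ _))
    rcases s.eq_empty_or_nonempty with rfl | hne
    · have := h1 a (Finset.mem_insert_self _ _)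
      simp only [Finset.card_empty, Nat.cast_zero, zero_add, Nat.cast_one, one_mul]
      linarith
    · have hM := s.max'_mem hne
      have h3 := ih (fun z hz => h1 z (Finset.mem_insert_of_mem hz))
        (fun p hp q hq => h2 p (Finset.mem_insert_of_mem hp) q (Finset.mem_insert_of_mem hq))
        (s.max' hne) (fun z hz => s.le_max' z hz)
      have h4 := h2 _ (Finset.mem_insert_of_mem hM) a (Finset.mem_insert_self _ _) (hs _ hM)
      push_cast
      linarith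

section
variable {s : Finset ℕ} {X X' : ℕ → ℝ → ℝ} {b : ℝ → ℝ} {B : ℝ}

/-- the iterates keep the sign changes -/
theorem Modes.iterate (h : Modes s X X' b B) {N : ℕ} {y : ℝ}
    (halt : Alt (fun x => ∑ k ∈ s, X k x) (N + 1) y) (m : ℕ) :
    ∃ y', Alt (fun x => ∑ k ∈ s, ((k : ℝ) ^ 2 - (B + 1)) ^ m * X k x) (N + 1) y' := by
  induction m with
  | zero => exact ⟨y, by simpa using halt⟩
  | succ m ih =>
    obtain ⟨y', hy'⟩ := ih
    have hbd : ∃ C, ∀ x, |∑ k ∈ s, ((k : ℝ) ^ 2 - (B + 1)) ^ m * X k x| ≤ C := by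
      have h1 : ∀ k : ℕ, ∃ C, k ∈ s → ∀ x, |X k x| ≤ C := by
        intro k
        by_cases hk : k ∈ s
        · obtain ⟨C, hC⟩ := h.bdd k hk
          exact ⟨C, fun _ => hC⟩
        · exact ⟨0, fun h => absurd h hk⟩
      choose C hC using h1
      refine ⟨∑ k ∈ s, |((k : ℝ) ^ 2 - (B + 1)) ^ m| * C k, fun x => ?_⟩
      refine (Finset.abs_sum_le_sum_abs _ _).trans (Finset.sum_le_sum fun k hk => ?_)
      rw [abs_mul]
      exact mul_le_mul_of_nonneg_left (hC k hk x) (abs_nonneg _)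
    obtain ⟨C, hC⟩ := hbd
    obtain ⟨m', hm'⟩ := Alt.step
      (f := fun x => ∑ k ∈ s, ((k : ℝ) ^ 2 - (B + 1)) ^ m * X k x)
      (f' := fun x => ∑ k ∈ s, ((k : ℝ) ^ 2 - (B + 1)) ^ m * X' k x)
      (f'' := fun x => ∑ k ∈ s, ((k : ℝ) ^ 2 - (B + 1)) ^ m * (((k : ℝ) ^ 2 - b x) * X k x))
      (q := fun x => (B + 1) - b x) (c₀ := 1)
      (fun x => HasDerivAt.fun_sum fun j hj => (h.hX j hj x).const_mul _)
      (fun x => HasDerivAt.fun_sum fun j hj => (h.hX' j hj x).const_mul _)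
      one_pos (fun x => by linarith [h.P.leB x]) hC hy'
    refine ⟨m', ?_⟩
    have e : (fun x => ∑ k ∈ s, ((k : ℝ) ^ 2 - (B + 1)) ^ m * (((k : ℝ) ^ 2 - b x) * X k x) -
        ((B + 1) - b x) * ∑ k ∈ s, ((k : ℝ) ^ 2 - (B + 1)) ^ m * X k x) =
        fun x => ∑ k ∈ s, ((k : ℝ) ^ 2 - (B + 1)) ^ (m + 1) * X k x := by
      funext x
      rw [Finset.mul_sum, ← Finset.sum_sub_distrib]
      refine Finset.sum_congr rfl fun j _ => ?_
      ring
    rw [← e]
    exact hm'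

/-- the count for sign changes -/
theorem Modes.alt_le (h : Modes s X X' b B) (hk : ∀ k ∈ s, (k : ℝ) ^ 2 ≤ B) {k₀ : ℕ}
    (hk₀ : k₀ ∈ s) (hne : ∃ x, X k₀ x ≠ 0) (hmin : ∀ k ∈ s, k ≠ k₀ → k₀ < k) {N : ℕ} {y : ℝ}
    (halt : Alt (fun x => ∑ k ∈ s, X k x) (N + 1) y) {ℓ : ℝ} (hℓ : 0 < ℓ)
    (hℓB : B / 2 * ℓ ^ 2 < 1) : ((N + 1 : ℕ) : ℝ) * ℓ ≤ 4 := by
  set κ := B + 1 with hκ
  let r : ℕ → ℝ := fun k => ((k : ℝ) ^ 2 - κ) / ((k₀ : ℝ) ^ 2 - κ)
  have hj₀κ : (k₀ : ℝ) ^ 2 - κ < 0 := by linarith [hk k₀ hk₀]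
  have hr0 : r k₀ = 1 := div_self hj₀κ.ne
  have hr : ∀ k ∈ s, k ≠ k₀ → |r k| < 1 := by
    intro j hj hjj
    have h1 : (j : ℝ) ^ 2 - κ < 0 := by linarith [hk j hj]
    have h2 : (k₀ : ℝ) < j := by exact_mod_cast hmin j hj hjj
    have h3 : (k₀ : ℝ) ^ 2 < (j : ℝ) ^ 2 := pow_lt_pow_left₀ h2 (by positivity) two_ne_zero
    simp only [r]
    rw [abs_div, div_lt_one (abs_pos.2 hj₀κ.ne), abs_of_neg h1, abs_of_neg hj₀κ]
    linarith
  have hL := h.left_eventually hk₀ hne hmin hr0 hr hℓ hℓB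
  have hR := h.reflect.left_eventually hk₀ (by
    obtain ⟨x, hx⟩ := hne
    exact ⟨-x, by simpa using hx⟩) hmin hr0 hr hℓ hℓB
  obtain ⟨m, hmL, hmR⟩ := (hL.and hR).exists
  obtain ⟨y', hy'⟩ := h.iterate halt m
  have hden : ((k₀ : ℝ) ^ 2 - κ) ^ m ≠ 0 := pow_ne_zero _ hj₀κ.ne
  have hg : ∀ x, (∑ k ∈ s, r k ^ m * X k x) =
      (((k₀ : ℝ) ^ 2 - κ) ^ m)⁻¹ * ∑ k ∈ s, ((k : ℝ) ^ 2 - κ) ^ m * X k x := by
    intro x
    rw [Finset.mul_sum]
    refine Finset.sum_congr rfl fun j _ => ?_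
    simp only [r, div_pow]
    field_simp
  have halt' : Alt (fun x => ∑ k ∈ s, r k ^ m * X k x) (N + 1) y' :=
    Alt.congr' (inv_ne_zero hden) hg hy'
  have hcont : Continuous fun x => ∑ k ∈ s, r k ^ m * X k x :=
    continuous_iff_continuousAt.2 fun x =>
      (HasDerivAt.fun_sum fun j hj => (h.hX j hj x).const_mul _).continuousAt
  obtain ⟨Z, hZc, hZ⟩ := Alt.zeros hcont halt'
  -- the two halves
  have c1 : ((Z.filter fun z => z ≤ 0).card : ℝ) * ℓ ≤ 2 := by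
    have := card_sep (ℓ := ℓ) (Z.filter fun z => z ≤ 0)
      (fun z hz => by
        have h1 := Finset.mem_filter.1 hz
        exact (hmL.1 z h1.2 (hZ z h1.1).2).le)
      (fun p hp q hq hpq => by
        have h1 := Finset.mem_filter.1 hp
        have h2 := Finset.mem_filter.1 hq
        exact hmL.2 p q hpq h2.2 (hZ p h1.1).2 (hZ q h2.1).2)
      0 (fun z hz => (Finset.mem_filter.1 hz).2)
    simpa using this
  have c2 : ((Z.filter fun z => ¬ z ≤ 0).card : ℝ) * ℓ ≤ 2 := by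
    have hcard : ((Z.filter fun z => ¬ z ≤ 0).image fun z => -z).card =
        (Z.filter fun z => ¬ z ≤ 0).card :=
      Finset.card_image_of_injective _ neg_injective
    rw [← hcard]
    have hmem : ∀ z ∈ (Z.filter fun z => ¬ z ≤ 0).image fun z => -z, z ≤ 0 ∧
        (∑ k ∈ s, r k ^ m * X k (-z)) = 0 := by
      intro z hz
      obtain ⟨w, hw, rfl⟩ := Finset.mem_image.1 hz
      have h1 := Finset.mem_filter.1 hw
      refine ⟨by linarith [not_le.1 h1.2], ?_⟩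
      rw [neg_neg]
      exact (hZ w h1.1).2
    have := card_sep (ℓ := ℓ) ((Z.filter fun z => ¬ z ≤ 0).image fun z => -z)
      (fun z hz => (hmR.1 z (hmem z hz).1 (hmem z hz).2).le)
      (fun p hp q hq hpq => hmR.2 p q hpq (hmem q hq).1 (hmem p hp).2 (hmem q hq).2)
      0 (fun z hz => (hmem z hz).1)
    simpa using this
  have hsum := Finset.card_filter_add_card_filter_not (s := Z) (fun z => z ≤ 0)
  have : (Z.card : ℝ) = (Z.filter fun z => z ≤ 0).card + (Z.filter fun z => ¬ z ≤ 0).card := by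
    exact_mod_cast hsum.symm
  rw [← hZc, this]
  linarith

/-- the number of simple zeros -/
theorem Modes.card_le (h : Modes s X X' b B) (hk : ∀ k ∈ s, (k : ℝ) ^ 2 ≤ B) {Z : Finset ℝ}
    (hZ0 : ∀ z ∈ Z, ∑ k ∈ s, X k z = 0) (hZ1 : ∀ z ∈ Z, ∑ k ∈ s, X' k z ≠ 0) :
    (Z.card : ℝ) ^ 2 ≤ 8 * B := by
  classical
  have hB := h.P.pos
  rcases Z.eq_empty_or_nonempty with rfl | hZne
  · simp only [Finset.card_empty, Nat.cast_zero]; nlinarith
  let s' := s.filter fun k => ∃ x, X k x ≠ 0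
  have hz : ∀ k ∈ s, k ∉ s' → ∀ x, X k x = 0 ∧ X' k x = 0 := by
    intro k hks hk' x
    have h1 : ∀ x, X k x = 0 := by
      by_contra hcon
      push Not at hcon
      exact hk' (Finset.mem_filter.2 ⟨hks, hcon⟩)
    refine ⟨h1 x, ?_⟩
    have h2 : HasDerivAt (X k) 0 x := by
      have : X k = fun _ => 0 := funext h1
      rw [this]; exact hasDerivAt_const x 0
    exact (h.hX k hks x).unique h2
  have hval : ∀ x, ∑ k ∈ s, X k x = ∑ k ∈ s', X k x := fun x =>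
    (Finset.sum_subset (Finset.filter_subset _ _) fun k hks hk' => (hz k hks hk' x).1).symm
  have hval' : ∀ x, ∑ k ∈ s, X' k x = ∑ k ∈ s', X' k x := fun x =>
    (Finset.sum_subset (Finset.filter_subset _ _) fun k hks hk' => (hz k hks hk' x).2).symm
  have hM : Modes s' X X' b B :=
    { P := h.P
      hX := fun k hk => h.hX k (Finset.mem_filter.1 hk).1
      hX' := fun k hk => h.hX' k (Finset.mem_filter.1 hk).1
      bdd := fun k hk => h.bdd k (Finset.mem_filter.1 hk).1 }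
  have hne : s'.Nonempty := by
    rw [Finset.nonempty_iff_ne_empty]
    intro he
    obtain ⟨z, hz⟩ := hZne
    apply hZ1 z hz
    rw [hval', he, Finset.sum_empty]
  set k₀ := s'.min' hne with hk₀
  have hmem : k₀ ∈ s' := s'.min'_mem hne
  obtain ⟨N, hN⟩ : ∃ N, Z.card = N + 1 := ⟨Z.card - 1, by have := hZne.card_pos; omega⟩
  obtain ⟨y, -, hy⟩ := alt_of_simple (f := fun x => ∑ k ∈ s', X k x)
    (f' := fun x => ∑ k ∈ s', X' k x)
    (fun x => HasDerivAt.fun_sum fun j hj => hM.hX j hj x) (A := Z.min' hZne - 1) Z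
    (fun z hz' => ⟨by linarith [Z.min'_le z hz'], by rw [← hval]; exact hZ0 z hz',
      by rw [← hval']; exact hZ1 z hz'⟩) hZne (Z.max' hZne + 1)
    (fun z hz' => by linarith [Z.le_max' z hz'])
  rw [hN] at hy
  have key : ∀ ℓ : ℝ, 0 < ℓ → B / 2 * ℓ ^ 2 < 1 → ((N + 1 : ℕ) : ℝ) * ℓ ≤ 4 := fun ℓ h1 h2 =>
    hM.alt_le (fun k hk' => hk k (Finset.mem_filter.1 hk').1) hmem
      (Finset.mem_filter.1 hmem).2
      (fun k hk' hkk => lt_of_le_of_ne (s'.min'_le k hk') (Ne.symm hkk)) (Alt.of_altTo hy) h1 h2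
  rw [hN]
  by_contra hcon
  push Not at hcon
  have hNpos : (0 : ℝ) < (N + 1 : ℕ) := by positivity
  have h1 : 4 / ((N + 1 : ℕ) : ℝ) < √(2 / B) := by
    apply Real.lt_sqrt_of_sq_lt
    rw [div_pow, div_lt_div_iff₀ (by positivity) hB]
    nlinarith
  obtain ⟨ℓ, hℓ1, hℓ2⟩ := exists_between h1
  have hℓ0 : 0 < ℓ := (by positivity : (0 : ℝ) < 4 / ((N + 1 : ℕ) : ℝ)).trans hℓ1
  have h2 : ℓ ^ 2 < 2 / B := by
    have := Real.lt_sqrt (x := ℓ) (y := 2 / B) hℓ0.le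
    exact this.1 hℓ2
  have h3 := key ℓ hℓ0 (by
    rw [lt_div_iff₀ hB] at h2
    linarith)
  rw [div_lt_iff₀ hNpos] at hℓ1
  linarith

end

end TH321.YR
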