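import Mathlib
import Pool.Agent.TH266.LT.Slice
import Pool.Agent.TH321.YR.Count

/-!
# Fourier decomposition of solutions on the cylinder

Bounded solutions of `F_xx + F_yy + b(x) F = 0` on `ℝ × ℝ/2π` are finite sums of components.
-/

set_option autoImplicit false

open Set Filter Topology MeasureTheory intervalIntegral
open scoped ContDiff

namespace TH321.YR

open TH266.LT

/-- a bounded solution on the cylinder -/
structure Cyl (b : ℝ → ℝ) (B : ℝ) (F : ℝ × ℝ → ℝ) : Prop where
  P : Pot b B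
  hb : ContDiff ℝ ∞ b
  sm : Sm F
  per : ∀ x y, F (x, y + 2 * Real.pi) = F (x, y)
  bdd : ∃ C, ∀ p, |F p| ≤ C
  pde : ∀ p, dx (dx F) p + dy (dy F) p + b p.1 * F p = 0

variable {b : ℝ → ℝ} {B : ℝ} {F G : ℝ × ℝ → ℝ}

/-- a bounded solution of `X'' = q X`, `q ≥ c₀ > 0`, decreases to the left of nonnegative values -/
theorem mono_aux {X X' q : ℝ → ℝ} (hX : ∀ x, HasDerivAt X (X' x) x)
    (hX' : ∀ x, HasDerivAt X' (q x * X x) x) {c₀ C : ℝ} (hc₀ : 0 < c₀) (hq : ∀ x, c₀ ≤ q x)
    (hC : ∀ x, |X x| ≤ C) {p z : ℝ} (hpz : p < z) (hz : 0 ≤ X z) : X p ≤ X z := by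
  by_contra hcon
  push Not at hcon
  obtain ⟨m, -, hm⟩ := pl_left (f := fun x => X x - X z) (f' := X') (f'' := fun x => q x * X x)
    (q := q) (fun x => by simpa using (hX x).sub_const (X z)) hX' (c₀ := c₀) (C := C) (z := z)
    (x := p) hc₀ (fun t _ => hq t) (fun t _ => by
      have := (abs_le.1 (hC t)).2
      linarith) (by simp) hpz (by linarith)
  have : 0 ≤ q m * X z := mul_nonneg (hc₀.le.trans (hq m)) hz
  have e : q m * X m - q m * (X m - X z) = q m * X z := by ring
  rw [e] at hm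
  linarith

/-- bounded solutions of `X'' = q X`, `q ≥ c₀ > 0`, vanish -/
theorem zero_of_bdd {X X' q : ℝ → ℝ} (hX : ∀ x, HasDerivAt X (X' x) x)
    (hX' : ∀ x, HasDerivAt X' (q x * X x) x) {c₀ C : ℝ} (hc₀ : 0 < c₀) (hq : ∀ x, c₀ ≤ q x)
    (hC : ∀ x, |X x| ≤ C) (x : ℝ) : X x = 0 := by
  have key : ∀ {X X' : ℝ → ℝ}, (∀ x, HasDerivAt X (X' x) x) →
      (∀ x, HasDerivAt X' (q x * X x) x) → (∀ x, |X x| ≤ C) → ∀ x, X x ≤ 0 := by
    intro X X' hX hX' hC x
    by_contra hcon
    push Not at hcon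
    have h1 : ∀ p, X p ≤ X x := by
      intro p
      rcases lt_trichotomy p x with h | h | h
      · exact mono_aux hX hX' hc₀ hq hC h hcon.le
      · rw [h]
      · have := mono_aux (X := fun x => X (-x)) (X' := fun x => - X' (-x))
          (q := fun x => q (-x)) (hasDerivAt_reflect hX)
          (hasDerivAt_reflect' (f' := fun x => q x * X x) hX') hc₀ (fun x => hq _)
          (fun x => hC _) (p := -p) (z := -x) (by linarith) (by simpa using hcon.le)
        simpa using this
    have h2 : q x * X x ≤ 0 := second_nonpos (f := X) (f' := X') (f'' := fun x => q x * X x)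
      hX hX' (Filter.Eventually.of_forall h1)
    have : 0 < q x * X x := mul_pos (hc₀.trans_le (hq x)) hcon
    linarith
  refine le_antisymm (key hX hX' hC x) ?_
  have := key (X := fun x => - X x) (X' := fun x => - X' x) (fun x => (hX x).neg)
    (fun x => ((hX' x).neg).congr_deriv (by ring)) (fun x => by simpa using hC x) x
  linarith

/-- partial Fourier integrals -/
noncomputable def I (φ : ℝ → ℝ) (F : ℝ × ℝ → ℝ) (x : ℝ) : ℝ :=
  ∫ y in (0 : ℝ)..(2 * Real.pi), F (x, y) * φ y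

theorem I_hasDerivAt {φ : ℝ → ℝ} (hφ : ContDiff ℝ ∞ φ) (hF : Sm F) (x : ℝ) :
    HasDerivAt (I φ F) (I φ (dx F) x) x := by
  have h1 : Sm ((F ∘ Prod.swap) * fstF φ) := sm_mul (sm_swap hF) (sm_fstF hφ)
  have h2 := hasDerivAt_inner h1 0 (2 * Real.pi) x
  have e2 : dy ((F ∘ Prod.swap) * fstF φ) = (dx F ∘ Prod.swap) * fstF φ := by
    rw [dy_mul (sm_swap hF) (sm_fstF hφ), dy_fstF hφ, dy_swap hF, mul_zero, zero_add, mul_comm]
  rw [e2] at h2
  exact h2

theorem I_contDiff {φ : ℝ → ℝ} (hφ : ContDiff ℝ ∞ φ) (hF : Sm F) : ContDiff ℝ ∞ (I φ F) := by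
  rw [contDiff_infty]
  intro n
  induction n generalizing F with
  | zero =>
    exact contDiff_zero.2 (continuous_iff_continuousAt.2 fun x => (I_hasDerivAt hφ hF x).continuousAt)
  | succ n ih =>
    rw [Nat.cast_succ, contDiff_succ_iff_deriv]
    refine ⟨fun x => (I_hasDerivAt hφ hF x).differentiableAt, fun h => ?_, ?_⟩
    · simp at h
    · have : deriv (I φ F) = I φ (dx F) := funext fun x => (I_hasDerivAt hφ hF x).deriv
      rw [this]
      exact ih hF.dx

theorem I_parts {φ φ' : ℝ → ℝ} (hφ : ∀ y, HasDerivAt φ (φ' y) y) (hφc : Continuous φ')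
    (hφp : φ (2 * Real.pi) = φ 0) (hF : Sm F) (hp : ∀ x y, F (x, y + 2 * Real.pi) = F (x, y))
    (x : ℝ) : I φ (dy F) x = - I φ' F x := by
  unfold I
  have h1 := integral_deriv_mul_eq_sub (u := fun y => F (x, y)) (v := φ)
    (u' := fun y => dy F (x, y)) (v' := φ') (a := 0) (b := 2 * Real.pi)
    (fun y _ => hF.hasDerivAt_y x y) (fun y _ => hφ y) (ii (cy hF.dy.continuous x) _ _)
    (ii hφc _ _)
  have hφ0 : Continuous φ := continuous_iff_continuousAt.2 fun x => (hφ x).continuousAt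
  have i1 : IntervalIntegrable (fun y => dy F (x, y) * φ y) volume 0 (2 * Real.pi) :=
    ii ((cy hF.dy.continuous x).mul hφ0) _ _
  have i2 : IntervalIntegrable (fun y => F (x, y) * φ' y) volume 0 (2 * Real.pi) :=
    ii ((cy hF.continuous x).mul hφc) _ _
  rw [intervalIntegral.integral_add i1 i2] at h1
  have h2 : F (x, 2 * Real.pi) = F (x, 0) := by
    have := hp x 0
    rwa [zero_add] at this
  simp only [h2, hφp, sub_self] at h1
  linarith

theorem I_pde {φ φ' : ℝ → ℝ} {κ : ℝ} (hφ : ∀ y, HasDerivAt φ (φ' y) y)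
    (hφ' : ∀ y, HasDerivAt φ' (-κ * φ y) y)
    (hφp : φ (2 * Real.pi) = φ 0) (hφp' : φ' (2 * Real.pi) = φ' 0) (h : Cyl b B F) (x : ℝ) :
    I φ (dx (dx F)) x = (κ - b x) * I φ F x := by
  have hφ0 : Continuous φ := continuous_iff_continuousAt.2 fun x => (hφ x).continuousAt
  have hφ1 : Continuous φ' := continuous_iff_continuousAt.2 fun x => (hφ' x).continuousAt
  have h1 := I_parts hφ hφ1 hφp h.sm.dy (dy_per₂ h.sm h.per) x
  have h2 := I_parts hφ' (continuous_const.mul hφ0) hφp' h.sm h.per x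
  have h3 : I (fun y => -κ * φ y) F x = -κ * I φ F x := by
    unfold I
    rw [← intervalIntegral.integral_const_mul]
    congr 1; funext y; ring
  have h4 : I φ (dx (dx F)) x = - I φ (dy (dy F)) x - b x * I φ F x := by
    unfold I
    have i1 : IntervalIntegrable (fun y => -(dy (dy F) (x, y) * φ y)) volume 0 (2 * Real.pi) :=
      ii (((cy h.sm.dy.dy.continuous x).mul hφ0).neg) _ _
    have i2 : IntervalIntegrable (fun y => b x * (F (x, y) * φ y)) volume 0 (2 * Real.pi) :=
      ii (continuous_const.mul ((cy h.sm.continuous x).mul hφ0)) _ _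
    rw [← intervalIntegral.integral_const_mul, ← intervalIntegral.integral_neg,
      ← intervalIntegral.integral_sub i1 i2]
    refine intervalIntegral.integral_congr fun y _ => ?_
    have := h.pde (x, y)
    simp only at this ⊢
    have e : dx (dx F) (x, y) = - dy (dy F) (x, y) - b x * F (x, y) := by linarith
    rw [e]; ring
  rw [h4, h1, h2, h3]; ring

theorem I_bdd {φ : ℝ → ℝ} (hφ : ∀ y, |φ y| ≤ 1) {C : ℝ} (hC : ∀ p, |F p| ≤ C) (x : ℝ) :
    |I φ F x| ≤ C * (2 * Real.pi) := by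
  have h := intervalIntegral.norm_integral_le_of_norm_le_const (a := 0) (b := 2 * Real.pi)
    (f := fun y => F (x, y) * φ y) (C := C) (fun y _ => by
      rw [Real.norm_eq_abs, abs_mul]
      calc |F (x, y)| * |φ y| ≤ |F (x, y)| * 1 :=
            mul_le_mul_of_nonneg_left (hφ y) (abs_nonneg _)
        _ ≤ C := by rw [mul_one]; exact hC _)
  rw [sub_zero, abs_of_pos Real.two_pi_pos] at h
  exact h

end TH321.YR
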