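import Mathlib

/-!
# Finite Fourier sums of periodic continuous functions
-/

set_option autoImplicit false

open Set Filter Topology MeasureTheory intervalIntegral
open scoped ContDiff

namespace TH321.YR

theorem fourier_sum {f : ℝ → ℝ} (hf : Continuous f) (hper : Function.Periodic f (2 * Real.pi))
    (t : Finset ℤ)
    (ht : ∀ n : ℤ, n ∉ t → (∫ y in (0 : ℝ)..(2 * Real.pi), f y * Real.cos (n * y)) = 0 ∧
      (∫ y in (0 : ℝ)..(2 * Real.pi), f y * Real.sin (n * y)) = 0) (y : ℝ) :
    f y = ∑ n ∈ t, (1 / (2 * Real.pi)) *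
      ((∫ y in (0 : ℝ)..(2 * Real.pi), f y * Real.cos (n * y)) * Real.cos (n * y) +
        (∫ y in (0 : ℝ)..(2 * Real.pi), f y * Real.sin (n * y)) * Real.sin (n * y)) := by
  have : Fact (0 < 2 * Real.pi) := ⟨Real.two_pi_pos⟩
  let g : ℝ → ℂ := fun y => (f y : ℂ)
  have hgper : Function.Periodic g (2 * Real.pi) := fun y => by
    simp only [g]; rw [hper y]
  have hgc : Continuous (hgper.lift : AddCircle (2 * Real.pi) → ℂ) := by
    refine (QuotientAddGroup.isQuotientMap_mk
      (AddSubgroup.zmultiples (2 * Real.pi))).continuous_iff.2 ?_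
    exact Complex.continuous_ofReal.comp hf
  let f' : C(AddCircle (2 * Real.pi), ℂ) := ⟨hgper.lift, hgc⟩
  have hf' : ∀ y : ℝ, f' (y : AddCircle (2 * Real.pi)) = (f y : ℂ) := fun y => rfl
  have hfou : ∀ (n : ℤ) (y : ℝ), fourier n (y : AddCircle (2 * Real.pi)) =
      ((Real.cos (n * y) : ℝ) : ℂ) + ((Real.sin (n * y) : ℝ) : ℂ) * Complex.I := by
    intro n y
    rw [fourier_coe_apply, Complex.ofReal_cos, Complex.ofReal_sin]
    rw [← Complex.exp_mul_I]
    congr 1
    push_cast
    have : (Real.pi : ℂ) ≠ 0 := Complex.ofReal_ne_zero.2 Real.pi_ne_zero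
    field_simp
  have hcoef : ∀ n : ℤ, fourierCoeff f' n = (1 / (2 * Real.pi) : ℝ) *
      (((∫ y in (0 : ℝ)..(2 * Real.pi), f y * Real.cos (n * y) : ℝ) : ℂ) -
        ((∫ y in (0 : ℝ)..(2 * Real.pi), f y * Real.sin (n * y) : ℝ) : ℂ) * Complex.I) := by
    intro n
    rw [fourierCoeff_eq_intervalIntegral f' n 0, zero_add, Complex.real_smul]
    congr 1
    have e : ∀ x : ℝ, (fourier (-n) (x : AddCircle (2 * Real.pi)) •
        f' (x : AddCircle (2 * Real.pi)) : ℂ) =
        ((f x * Real.cos (n * x) : ℝ) : ℂ) - ((f x * Real.sin (n * x) : ℝ) : ℂ) * Complex.I := by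
      intro x
      rw [hfou, hf']
      push_cast
      rw [smul_eq_mul]
      have e1 : (-(n : ℂ)) * (x : ℂ) = -((n : ℂ) * x) := by ring
      rw [e1, Complex.cos_neg, Complex.sin_neg]
      ring
    simp_rw [e]
    have c1 : Continuous fun x : ℝ => ((f x * Real.cos (n * x) : ℝ) : ℂ) := by fun_prop
    have c2 : Continuous fun x : ℝ => ((f x * Real.sin (n * x) : ℝ) : ℂ) * Complex.I := by
      fun_prop
    rw [intervalIntegral.integral_sub (c1.intervalIntegrable _ _) (c2.intervalIntegrable _ _),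
      intervalIntegral.integral_mul_const, intervalIntegral.integral_ofReal,
      intervalIntegral.integral_ofReal]
  have hzero : ∀ n : ℤ, n ∉ t → fourierCoeff f' n = 0 := by
    intro n hn
    rw [hcoef, (ht n hn).1, (ht n hn).2]
    simp
  have hsum : Summable (fourierCoeff f') := summable_of_ne_finset_zero (s := t) fun n hn => hzero n hn
  have h1 := has_pointwise_sum_fourier_series_of_summable hsum (y : AddCircle (2 * Real.pi))
  have h2 : HasSum (fun i => fourierCoeff f' i • fourier i (y : AddCircle (2 * Real.pi)))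
      (∑ i ∈ t, fourierCoeff f' i • fourier i (y : AddCircle (2 * Real.pi))) :=
    hasSum_sum_of_ne_finset_zero fun n hn => by rw [hzero n hn, zero_smul]
  have h3 := congrArg Complex.re (h1.unique h2)
  rw [hf', Complex.ofReal_re, Complex.re_sum] at h3
  rw [h3]
  refine Finset.sum_congr rfl fun n _ => ?_
  rw [hcoef, hfou, smul_eq_mul, mul_assoc, Complex.re_ofReal_mul]
  congr 1
  simp only [Complex.mul_re, Complex.sub_re, Complex.sub_im, Complex.add_re, Complex.add_im,
    Complex.ofReal_re, Complex.ofReal_im, Complex.mul_im, Complex.I_re, Complex.I_im]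
  ring

end TH321.YR
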