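import Mathlib
import Pool.Agent.TH321.YR.Cyl
import Pool.Agent.TH321.YR.Four

/-!
# The components of a solution on the cylinder
-/

set_option autoImplicit false

open Set Filter Topology MeasureTheory intervalIntegral
open scoped ContDiff

namespace TH321.YR

open TH266.LT

variable {b : ℝ → ℝ} {B : ℝ} {F G : ℝ × ℝ → ℝ}

/-- `cos (n y)` -/
noncomputable def cs (n : ℤ) : ℝ → ℝ := fun y => Real.cos (n * y)
/-- `sin (n y)` -/
noncomputable def sn (n : ℤ) : ℝ → ℝ := fun y => Real.sin (n * y)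

theorem cs_sm (n : ℤ) : ContDiff ℝ ∞ (cs n) := by unfold cs; fun_prop
theorem sn_sm (n : ℤ) : ContDiff ℝ ∞ (sn n) := by unfold sn; fun_prop

theorem cs_d (n : ℤ) (y : ℝ) : HasDerivAt (cs n) (-(n : ℝ) * sn n y) y := by
  have := ((hasDerivAt_id y).const_mul (n : ℝ)).cos
  refine this.congr_deriv ?_
  simp only [sn, id]; ring

theorem sn_d (n : ℤ) (y : ℝ) : HasDerivAt (sn n) ((n : ℝ) * cs n y) y := by
  have := ((hasDerivAt_id y).const_mul (n : ℝ)).sin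
  refine this.congr_deriv ?_
  simp only [cs, id]; ring

theorem cs_dd (n : ℤ) (y : ℝ) :
    HasDerivAt (fun y => -(n : ℝ) * sn n y) (-(n : ℝ) ^ 2 * cs n y) y :=
  ((sn_d n y).const_mul (-(n : ℝ))).congr_deriv (by ring)

theorem sn_dd (n : ℤ) (y : ℝ) :
    HasDerivAt (fun y => (n : ℝ) * cs n y) (-(n : ℝ) ^ 2 * sn n y) y :=
  ((cs_d n y).const_mul (n : ℝ)).congr_deriv (by ring)

theorem cs_per (n : ℤ) (y : ℝ) : cs n (y + 2 * Real.pi) = cs n y := by
  unfold cs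
  rw [mul_add]
  exact Real.cos_add_int_mul_two_pi _ n

theorem sn_per (n : ℤ) (y : ℝ) : sn n (y + 2 * Real.pi) = sn n y := by
  unfold sn
  rw [mul_add]
  exact Real.sin_add_int_mul_two_pi _ n

theorem cs_two_pi (n : ℤ) : cs n (2 * Real.pi) = cs n 0 := by
  have := cs_per n 0
  rwa [zero_add] at this

theorem sn_two_pi (n : ℤ) : sn n (2 * Real.pi) = sn n 0 := by
  have := sn_per n 0
  rwa [zero_add] at this

/-- the `n`-th component -/
noncomputable def gc (F : ℝ × ℝ → ℝ) (n : ℤ) : ℝ × ℝ → ℝ :=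
  (1 / (2 * Real.pi)) • (fstF (I (cs n) F) * sndF (cs n) + fstF (I (sn n) F) * sndF (sn n))

theorem gc_apply (F : ℝ × ℝ → ℝ) (n : ℤ) (x y : ℝ) : gc F n (x, y) =
    (1 / (2 * Real.pi)) * (I (cs n) F x * cs n y + I (sn n) F x * sn n y) := rfl

theorem gc_sm (hF : Sm F) (n : ℤ) : Sm (gc F n) := by
  have h1 : Sm (fstF (I (cs n) F) * sndF (cs n) + fstF (I (sn n) F) * sndF (sn n)) :=
    sm_add (sm_mul (sm_fstF (I_contDiff (cs_sm n) hF)) (sm_sndF (cs_sm n)))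
      (sm_mul (sm_fstF (I_contDiff (sn_sm n) hF)) (sm_sndF (sn_sm n)))
  exact h1.const_smul (1 / (2 * Real.pi))

theorem gc_dx (hF : Sm F) (n : ℤ) : dx (gc F n) = gc (dx F) n := by
  funext ⟨x, y⟩
  rw [dx_eq_deriv (gc_sm hF n)]
  refine HasDerivAt.deriv ?_
  show HasDerivAt (fun t => (1 / (2 * Real.pi)) * (I (cs n) F t * cs n y + I (sn n) F t * sn n y))
    _ x
  exact (((I_hasDerivAt (cs_sm n) hF x).mul_const _).add
    ((I_hasDerivAt (sn_sm n) hF x).mul_const _)).const_mul _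

theorem gc_dxdx (h : Cyl b B F) (n : ℤ) (p : ℝ × ℝ) :
    dx (dx (gc F n)) p = ((n : ℝ) ^ 2 - b p.1) * gc F n p := by
  obtain ⟨x, y⟩ := p
  rw [gc_dx h.sm, gc_dx h.sm.dx, gc_apply, gc_apply,
    I_pde (cs_d n) (cs_dd n) (cs_two_pi n) (by simp only [sn_two_pi]) h,
    I_pde (sn_d n) (sn_dd n) (sn_two_pi n) (by simp only [cs_two_pi]) h]
  ring

theorem gc_dydy (hF : Sm F) (n : ℤ) (p : ℝ × ℝ) :
    dy (dy (gc F n)) p = -(n : ℝ) ^ 2 * gc F n p := by
  obtain ⟨x, y⟩ := p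
  have h1 : ∀ y, dy (gc F n) (x, y) = (1 / (2 * Real.pi)) *
      (I (cs n) F x * (-(n : ℝ) * sn n y) + I (sn n) F x * ((n : ℝ) * cs n y)) := by
    intro y
    rw [dy_eq_deriv (gc_sm hF n)]
    refine HasDerivAt.deriv ?_
    show HasDerivAt (fun t => (1 / (2 * Real.pi)) * (I (cs n) F x * cs n t + I (sn n) F x * sn n t))
      _ y
    exact (((cs_d n y).const_mul _).add ((sn_d n y).const_mul _)).const_mul _
  rw [dy_eq_deriv (gc_sm hF n).dy]
  refine HasDerivAt.deriv ?_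
  have : (fun t => dy (gc F n) (x, t)) = fun y => (1 / (2 * Real.pi)) *
      (I (cs n) F x * (-(n : ℝ) * sn n y) + I (sn n) F x * ((n : ℝ) * cs n y)) := funext h1
  rw [this]
  have h2 := (((cs_dd n y).const_mul (I (cs n) F x)).add
    ((sn_dd n y).const_mul (I (sn n) F x))).const_mul (1 / (2 * Real.pi))
  refine h2.congr_deriv ?_
  rw [gc_apply]; ring

theorem gc_per (F : ℝ × ℝ → ℝ) (n : ℤ) (x y : ℝ) : gc F n (x, y + 2 * Real.pi) = gc F n (x, y) := by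
  rw [gc_apply, gc_apply, cs_per, sn_per]

theorem gc_bdd (h : Cyl b B F) (n : ℤ) : ∃ C, ∀ p, |gc F n p| ≤ C := by
  obtain ⟨C, hC⟩ := h.bdd
  refine ⟨2 * C, fun p => ?_⟩
  obtain ⟨x, y⟩ := p
  have hC0 : 0 ≤ C := (abs_nonneg _).trans (hC (0, 0))
  have h1 : |I (cs n) F x| ≤ C * (2 * Real.pi) := I_bdd (fun y => Real.abs_cos_le_one _) hC x
  have h2 : |I (sn n) F x| ≤ C * (2 * Real.pi) := I_bdd (fun y => Real.abs_sin_le_one _) hC x
  have h3 : |cs n y| ≤ 1 := Real.abs_cos_le_one _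
  have h4 : |sn n y| ≤ 1 := Real.abs_sin_le_one _
  have hpi := Real.two_pi_pos
  rw [gc_apply, abs_mul, abs_of_pos (by positivity)]
  have h5 : |I (cs n) F x * cs n y + I (sn n) F x * sn n y| ≤ 2 * (C * (2 * Real.pi)) := by
    refine (abs_add_le _ _).trans ?_
    rw [abs_mul, abs_mul]
    have e1 := mul_le_mul h1 h3 (abs_nonneg _) (by positivity)
    have e2 := mul_le_mul h2 h4 (abs_nonneg _) (by positivity)
    linarith
  calc 1 / (2 * Real.pi) * |I (cs n) F x * cs n y + I (sn n) F x * sn n y|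
      ≤ 1 / (2 * Real.pi) * (2 * (C * (2 * Real.pi))) :=
        mul_le_mul_of_nonneg_left h5 (by positivity)
    _ = 2 * C := by field_simp

theorem I_zero (h : Cyl b B F) {φ φ' : ℝ → ℝ} {κ : ℝ} (hs : ContDiff ℝ ∞ φ)
    (hφ : ∀ y, HasDerivAt φ (φ' y) y) (hφ' : ∀ y, HasDerivAt φ' (-κ * φ y) y)
    (hφp : φ (2 * Real.pi) = φ 0) (hφp' : φ' (2 * Real.pi) = φ' 0) (h1 : ∀ y, |φ y| ≤ 1)
    (hκ : B < κ) (x : ℝ) : I φ F x = 0 := by
  obtain ⟨C, hC⟩ := h.bdd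
  refine zero_of_bdd (X := I φ F) (X' := I φ (dx F)) (q := fun x => κ - b x) (c₀ := κ - B)
    (C := C * (2 * Real.pi)) (fun x => I_hasDerivAt hs h.sm x) (fun x => ?_) (by linarith)
    (fun x => by linarith [h.P.leB x]) (fun x => I_bdd h1 hC x) x
  have := I_hasDerivAt hs h.sm.dx x
  rwa [I_pde hφ hφ' hφp hφp' h] at this

/-- the relevant frequencies -/
noncomputable def freq (B : ℝ) : Finset ℕ :=
  (Finset.range (⌊B⌋₊ + 1)).filter fun k => (k : ℝ) ^ 2 ≤ B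

theorem mem_freq {B : ℝ} {k : ℕ} : k ∈ freq B ↔ (k : ℝ) ^ 2 ≤ B := by
  unfold freq
  rw [Finset.mem_filter, Finset.mem_range]
  refine ⟨fun h => h.2, fun h => ⟨?_, h⟩⟩
  rw [Nat.lt_succ_iff]
  refine Nat.le_floor ?_
  rcases Nat.eq_zero_or_pos k with rfl | hk
  · simp only [Nat.cast_zero, ne_eq, OfNat.ofNat_ne_zero, not_false_eq_true, zero_pow] at h
    simpa using h
  · have : (1 : ℝ) ≤ k := by exact_mod_cast hk
    nlinarith

/-- the relevant integers -/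
noncomputable def ifreq (B : ℝ) : Finset ℤ :=
  (Finset.Icc (-(⌊B⌋₊ : ℤ)) (⌊B⌋₊ : ℤ)).filter fun n => (n.natAbs) ∈ freq B

theorem mem_ifreq {B : ℝ} {n : ℤ} : n ∈ ifreq B ↔ (n : ℝ) ^ 2 ≤ B := by
  have e : ((n.natAbs : ℕ) : ℝ) ^ 2 = (n : ℝ) ^ 2 := by
    rw [Nat.cast_natAbs, Int.cast_abs, sq_abs]
  unfold ifreq
  rw [Finset.mem_filter, mem_freq, e, Finset.mem_Icc]
  refine ⟨fun h => h.2, fun h => ⟨?_, h⟩⟩
  have h1 : n.natAbs ∈ freq B := mem_freq.2 (by rw [e]; exact h)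
  have h2 : n.natAbs < ⌊B⌋₊ + 1 := by
    have := (Finset.mem_filter.1 h1).1
    exact Finset.mem_range.1 this
  constructor <;> omega

/-- the component of frequency `k` -/
noncomputable def Gc (B : ℝ) (F : ℝ × ℝ → ℝ) (k : ℕ) : ℝ × ℝ → ℝ :=
  ∑ n ∈ (ifreq B).filter (fun n => n.natAbs = k), gc F n

theorem Gc_sm (hF : Sm F) (k : ℕ) : Sm (Gc B F k) := sm_sum _ fun _ _ => gc_sm hF _

theorem natAbs_sq {n : ℤ} {k : ℕ} (h : n.natAbs = k) : (n : ℝ) ^ 2 = (k : ℝ) ^ 2 := by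
  rw [← h, Nat.cast_natAbs, Int.cast_abs, sq_abs]

theorem Gc_dxdx (h : Cyl b B F) (k : ℕ) (p : ℝ × ℝ) :
    dx (dx (Gc B F k)) p = ((k : ℝ) ^ 2 - b p.1) * Gc B F k p := by
  unfold Gc
  rw [dx_sum _ fun _ _ => gc_sm h.sm _, dx_sum _ fun _ _ => (gc_sm h.sm _).dx,
    Finset.sum_apply, Finset.sum_apply, Finset.mul_sum]
  refine Finset.sum_congr rfl fun n hn => ?_
  rw [gc_dxdx h, natAbs_sq (Finset.mem_filter.1 hn).2]

theorem Gc_dydy (h : Cyl b B F) (k : ℕ) (p : ℝ × ℝ) :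
    dy (dy (Gc B F k)) p = -(k : ℝ) ^ 2 * Gc B F k p := by
  unfold Gc
  rw [dy_sum _ fun _ _ => gc_sm h.sm _, dy_sum _ fun _ _ => (gc_sm h.sm _).dy,
    Finset.sum_apply, Finset.sum_apply, Finset.mul_sum]
  refine Finset.sum_congr rfl fun n hn => ?_
  rw [gc_dydy h.sm, natAbs_sq (Finset.mem_filter.1 hn).2]

theorem Gc_per (F : ℝ × ℝ → ℝ) (k : ℕ) (x y : ℝ) :
    Gc B F k (x, y + 2 * Real.pi) = Gc B F k (x, y) := by
  unfold Gc
  rw [Finset.sum_apply, Finset.sum_apply]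
  exact Finset.sum_congr rfl fun n _ => gc_per F n x y

theorem Gc_bdd (h : Cyl b B F) (k : ℕ) : ∃ C, ∀ p, |Gc B F k p| ≤ C := by
  choose C hC using gc_bdd h
  refine ⟨∑ n ∈ (ifreq B).filter (fun n => n.natAbs = k), C n, fun p => ?_⟩
  unfold Gc
  rw [Finset.sum_apply]
  exact (Finset.abs_sum_le_sum_abs _ _).trans (Finset.sum_le_sum fun n _ => hC n p)

/-- the decomposition -/
theorem decomp (h : Cyl b B F) : F = ∑ k ∈ freq B, Gc B F k := by
  funext ⟨x, y⟩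
  have h1 := fourier_sum (f := fun y => F (x, y)) (cy h.sm.continuous x) (fun y => h.per x y)
    (ifreq B) (fun n hn => by
      have hn' : B < (n : ℝ) ^ 2 := by
        by_contra hcon
        exact hn (mem_ifreq.2 (not_lt.1 hcon))
      exact ⟨I_zero h (cs_sm n) (cs_d n) (cs_dd n) (cs_two_pi n) (by simp only [sn_two_pi])
          (fun y => Real.abs_cos_le_one _) hn' x,
        I_zero h (sn_sm n) (sn_d n) (sn_dd n) (sn_two_pi n) (by simp only [cs_two_pi])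
          (fun y => Real.abs_sin_le_one _) hn' x⟩) y
  rw [h1, Finset.sum_apply]
  have h2 : ∀ k, Gc B F k (x, y) = ∑ n ∈ (ifreq B).filter (fun n => n.natAbs = k), gc F n (x, y) :=
    fun k => by unfold Gc; rw [Finset.sum_apply]
  simp only [h2]
  rw [Finset.sum_fiberwise_of_maps_to (s := ifreq B) (t := freq B) (g := fun n => n.natAbs)
    (fun n hn => (Finset.mem_filter.1 hn).2)]
  rfl

end TH321.YR
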