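import Mathlib
import Pool.Agent.TH266.LT.Nodal
import Pool.Agent.TH321.YR.Comp

/-!
# Counting zeros on lines; unique continuation; the singular zeros are countable
-/

set_option autoImplicit false

open Set Filter Topology MeasureTheory intervalIntegral
open scoped ContDiff

namespace TH321.YR

open TH266.LT

variable {b : ℝ → ℝ} {B : ℝ} {F G : ℝ × ℝ → ℝ}

theorem sm_smul (c : ℝ) (h : Sm F) : Sm (c • F) := by
  have := ContDiff.const_smul c h
  exact this

theorem sum_val (h : Cyl b B F) (p : ℝ × ℝ) : F p = ∑ k ∈ freq B, Gc B F k p := by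
  conv_lhs => rw [decomp h]
  rw [Finset.sum_apply]

theorem sum_dx (h : Cyl b B F) (p : ℝ × ℝ) : dx F p = ∑ k ∈ freq B, dx (Gc B F k) p := by
  conv_lhs => rw [decomp h]
  rw [dx_sum _ fun _ _ => Gc_sm h.sm _, Finset.sum_apply]

theorem sum_dy (h : Cyl b B F) (p : ℝ × ℝ) : dy F p = ∑ k ∈ freq B, dy (Gc B F k) p := by
  conv_lhs => rw [decomp h]
  rw [dy_sum _ fun _ _ => Gc_sm h.sm _, Finset.sum_apply]

/-- simple zeros on horizontal lines -/
theorem Cyl.card_x (h : Cyl b B F) (y : ℝ) {Z : Finset ℝ} (hZ0 : ∀ z ∈ Z, F (z, y) = 0)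
    (hZ1 : ∀ z ∈ Z, dx F (z, y) ≠ 0) : (Z.card : ℝ) ^ 2 ≤ 8 * B := by
  have hm : Modes (freq B) (fun k x => Gc B F k (x, y)) (fun k x => dx (Gc B F k) (x, y)) b B :=
    { P := h.P
      hX := fun k _ x => (Gc_sm h.sm k).hasDerivAt_x x y
      hX' := fun k _ x => by
        have := (Gc_sm h.sm (B := B) k).dx.hasDerivAt_x x y
        rwa [Gc_dxdx h] at this
      bdd := fun k _ => by
        obtain ⟨C, hC⟩ := Gc_bdd h k
        exact ⟨C, fun x => hC _⟩ }
  refine hm.card_le (fun k hk => mem_freq.1 hk) (Z := Z) (fun z hz => ?_) (fun z hz => ?_)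
  · rw [← sum_val h]; exact hZ0 z hz
  · rw [← sum_dx h]; exact hZ1 z hz

/-- simple zeros on vertical lines -/
theorem Cyl.card_y (h : Cyl b B F) (x : ℝ) {Z : Finset ℝ} (hZ : ∀ z ∈ Z, z ∈ Ico 0 (2 * Real.pi))
    (hZ0 : ∀ z ∈ Z, F (x, z) = 0) (hZ1 : ∀ z ∈ Z, dy F (x, z) ≠ 0) :
    (Z.card : ℝ) * Real.pi ≤ 2 * Real.pi * √B := by
  classical
  have hB := h.P.pos
  let s' := (freq B).filter fun k => ∃ y, Gc B F k (x, y) ≠ 0
  have hz : ∀ k, k ∈ freq B → k ∉ s' → ∀ y, Gc B F k (x, y) = 0 ∧ dy (Gc B F k) (x, y) = 0 := by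
    intro k hk hk' y
    have h1 : ∀ y, Gc B F k (x, y) = 0 := by
      by_contra hcon
      push Not at hcon
      exact hk' (Finset.mem_filter.2 ⟨hk, hcon⟩)
    refine ⟨h1 y, ?_⟩
    rw [dy_eq_deriv (Gc_sm h.sm k)]
    have : (fun t => Gc B F k (x, t)) = fun _ => 0 := funext h1
    rw [this]; simp
  have hsub : s' ⊆ freq B := Finset.filter_subset _ _
  have hval : ∀ y, F (x, y) = ∑ k ∈ s', Gc B F k (x, y) := by
    intro y
    rw [sum_val h]
    exact (Finset.sum_subset hsub fun k hk hk' => (hz k hk hk' y).1).symm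
  have hder : ∀ y, dy F (x, y) = ∑ k ∈ s', dy (Gc B F k) (x, y) := by
    intro y
    rw [sum_dy h]
    exact (Finset.sum_subset hsub fun k hk hk' => (hz k hk hk' y).2).symm
  rcases s'.eq_empty_or_nonempty with he | hne
  · rcases Z.eq_empty_or_nonempty with rfl | ⟨z, hz⟩
    · simp only [Finset.card_empty, Nat.cast_zero, zero_mul]
      positivity
    · exfalso
      apply hZ1 z hz
      rw [hder, he]; simp
  · set j₀ := s'.max' hne with hj₀
    have hmem : j₀ ∈ s' := Finset.max'_mem _ _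
    refine card_simple_zeros_le (s := s') (v := fun k y => Gc B F k (x, y))
      (v' := fun k y => dy (Gc B F k) (x, y)) (μ := fun k => -(k : ℝ) ^ 2) (a := fun _ => 0)
      Real.two_pi_pos hB continuous_const (fun _ => rfl)
      (fun k _ y => (Gc_sm h.sm k).hasDerivAt_y x y) (fun k _ y => ?_)
      (fun k _ y => Gc_per F k x y) (fun k _ y => ?_)
      hmem (Finset.mem_filter.1 hmem).2 (fun k hk hne' => ?_) (fun y => ?_) hZ (fun z hz => ?_)
      (fun z hz => ?_)
    · have := (Gc_sm h.sm (B := B) k).dy.hasDerivAt_y x y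
      rw [Gc_dydy h] at this
      rwa [sub_zero]
    · exact dy_per₂ (Gc_sm h.sm k) (Gc_per F k) x y
    · have h1 : k < j₀ := lt_of_le_of_ne (Finset.le_max' _ _ hk) hne'
      have h2 : (k : ℝ) < j₀ := by exact_mod_cast h1
      have h3 : (k : ℝ) ^ 2 < (j₀ : ℝ) ^ 2 := pow_lt_pow_left₀ h2 (by positivity) two_ne_zero
      linarith
    · have := mem_freq.1 (hsub hmem)
      linarith
    · rw [← hval]; exact hZ0 z hz
    · rw [← hder]; exact hZ1 z hz

/-! ### unique continuation -/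

/-- the operator `∂_x² + b(x) - κ` -/
noncomputable def Pk (b : ℝ → ℝ) (κ : ℝ) (F : ℝ × ℝ → ℝ) : ℝ × ℝ → ℝ :=
  dx (dx F) + fstF (fun x => b x - κ) * F

theorem sm_bκ (hb : ContDiff ℝ ∞ b) (κ : ℝ) : ContDiff ℝ ∞ (fun x => b x - κ) :=
  hb.sub contDiff_const

theorem Pk_sm (hb : ContDiff ℝ ∞ b) (κ : ℝ) (hF : Sm F) : Sm (Pk b κ F) :=
  sm_add hF.dx.dx (sm_mul (sm_fstF (sm_bκ hb κ)) hF)

theorem van_Pk (hb : ContDiff ℝ ∞ b) (κ : ℝ) {k : ℕ} {p : ℝ × ℝ} (hF : Sm F)
    (h : Van (k + 2) F p) : Van k (Pk b κ F) p :=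
  Van.add hF.dx.dx (sm_mul (sm_fstF (sm_bκ hb κ)) hF) h.2.1.2.1
    (Van.mul hF (sm_fstF (sm_bκ hb κ)) (h.mono (by omega)))

/-- infinite order vanishing passes to components -/
theorem van_components (hb : ContDiff ℝ ∞ b) {p : ℝ × ℝ} (s : Finset ℕ) :
    ∀ g : ℕ → ℝ × ℝ → ℝ, (∀ k, Sm (g k)) →
      (∀ k q, dx (dx (g k)) q = ((k : ℝ) ^ 2 - b q.1) * g k q) →
      (∀ m, Van m (∑ k ∈ s, g k) p) → ∀ k ∈ s, ∀ m, Van m (g k) p := by
  classical
  induction s using Finset.induction_on with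
  | empty => intro g _ _ _ k hk; simp at hk
  | insert j s hj ih =>
    intro g hg hP hv
    have hne : ∀ k ∈ s, ((k : ℝ) ^ 2 - (j : ℝ) ^ 2) ≠ 0 := by
      intro k hk h0
      have h1 : (k : ℝ) ^ 2 = (j : ℝ) ^ 2 := by linarith
      have h2 : (k : ℝ) = j := (sq_eq_sq₀ (by positivity) (by positivity)).1 h1
      have h3 : k = j := by exact_mod_cast h2
      exact hj (h3 ▸ hk)
    have e1 : Pk b ((j : ℝ) ^ 2) (∑ k ∈ insert j s, g k) =
        ∑ k ∈ s, ((k : ℝ) ^ 2 - (j : ℝ) ^ 2) • g k := by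
      funext q
      unfold Pk
      rw [dx_sum _ fun _ _ => hg _, dx_sum _ fun _ _ => (hg _).dx]
      simp only [Pi.add_apply, Pi.mul_apply, Finset.sum_apply, fstF, Pi.smul_apply, smul_eq_mul]
      rw [Finset.mul_sum, ← Finset.sum_add_distrib, Finset.sum_insert hj, hP]
      have e2 : ((j : ℝ) ^ 2 - b q.1) * g j q + (b q.1 - (j : ℝ) ^ 2) * g j q = 0 := by ring
      rw [e2, zero_add]
      refine Finset.sum_congr rfl fun k _ => ?_
      rw [hP]; ring
    have h1 := ih (fun k => ((k : ℝ) ^ 2 - (j : ℝ) ^ 2) • g k) (fun k => sm_smul _ (hg k))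
      (fun k q => by
        rw [dx_smul _ (hg k), dx_smul _ (hg k).dx]
        simp only [Pi.smul_apply, smul_eq_mul]
        rw [hP]; ring)
      (fun m => by
        rw [← e1]
        exact van_Pk hb _ (sm_sum _ fun _ _ => hg _) (hv (m + 2)))
    have h2 : ∀ k ∈ s, ∀ m, Van m (g k) p := by
      intro k hk m
      have h3 := Van.smul ((k : ℝ) ^ 2 - (j : ℝ) ^ 2)⁻¹ (sm_smul _ (hg k)) (h1 k hk m)
      rwa [inv_smul_smul₀ (hne k hk)] at h3
    intro k hk m
    rcases Finset.mem_insert.1 hk with rfl | hk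
    · have e3 : g k = (∑ i ∈ insert k s, g i) + (-1 : ℝ) • ∑ i ∈ s, g i := by
        rw [Finset.sum_insert hj]; module
      have h4 : ∀ m, Van m (∑ i ∈ s, g i) p := by
        intro m
        have key : ∀ t : Finset ℕ, t ⊆ s → Van m (∑ i ∈ t, g i) p := by
          intro t
          induction t using Finset.induction_on with
          | empty => intro _; rw [Finset.sum_empty]; exact van_zero m p
          | insert i t hi iht =>
            intro hts
            rw [Finset.sum_insert hi]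
            exact Van.add (hg i) (sm_sum _ fun _ _ => hg _)
              (h2 i (hts (Finset.mem_insert_self _ _)) m)
              (iht fun x hx => hts (Finset.mem_insert_of_mem hx))
        exact key s (Finset.Subset.refl s)
      rw [e3]
      exact Van.add (sm_sum _ fun _ _ => hg _) (sm_smul (-1 : ℝ) (sm_sum _ fun _ _ => hg _))
        (hv m) (Van.smul _ (sm_sum _ fun _ _ => hg _) (h4 m))
    · exact h2 k hk m

/-- zero Cauchy data for a component -/
theorem comp_zero (P : Pot b B) (hb : ContDiff ℝ ∞ b) (hG : Sm G) {k : ℕ}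
    (hx : ∀ q, dx (dx G) q = ((k : ℝ) ^ 2 - b q.1) * G q)
    (hy : ∀ q, dy (dy G) q = -(k : ℝ) ^ 2 * G q) {p : ℝ × ℝ} (hv : Van 2 G p) : G = 0 := by
  obtain ⟨x₀, y₀⟩ := p
  have hK : ∀ x, |(k : ℝ) ^ 2 - b x| ≤ (k : ℝ) ^ 2 + B := by
    intro x
    rw [abs_le]
    have h1 := P.nonneg x
    have h2 := P.leB x
    have h3 : (0 : ℝ) ≤ (k : ℝ) ^ 2 := by positivity
    constructor <;> linarith
  have hK2 : ∀ y : ℝ, |-(k : ℝ) ^ 2 - (fun _ => (0 : ℝ)) y| ≤ (k : ℝ) ^ 2 := by
    intro y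
    simp
  have hdy : ∀ q, dx (dx (dy G)) q = ((k : ℝ) ^ 2 - b q.1) * dy G q := by
    intro q
    rw [dx_dy hG, dx_dy hG.dx]
    have e : dx (dx G) = fstF (fun x => (k : ℝ) ^ 2 - b x) * G := by
      funext q; exact hx q
    have hs : ContDiff ℝ ∞ (fun x => (k : ℝ) ^ 2 - b x) := contDiff_const.sub hb
    rw [e, dy_mul (sm_fstF hs) hG, dy_fstF hs, mul_zero, add_zero]
    rfl
  have h1 : ∀ x, G (x, y₀) = 0 := fun x =>
    (ode_unique (v := fun x => G (x, y₀)) (v' := fun x => dx G (x, y₀)) (a := b)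
      (μ := (k : ℝ) ^ 2)
      (fun x => hG.hasDerivAt_x x y₀)
      (fun x => by
        have := hG.dx.hasDerivAt_x x y₀
        rwa [hx] at this) hK (x₀ := x₀) hv.1 hv.2.1.val x).1
  have h2 : ∀ x, dy G (x, y₀) = 0 := fun x =>
    (ode_unique (v := fun x => dy G (x, y₀)) (v' := fun x => dx (dy G) (x, y₀)) (a := b)
      (μ := (k : ℝ) ^ 2) (fun x => hG.dy.hasDerivAt_x x y₀)
      (fun x => by
        have := hG.dy.dx.hasDerivAt_x x y₀
        rwa [hdy] at this) hK (x₀ := x₀) hv.2.2.val hv.2.2.2.1.val x).1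
  funext ⟨x, y⟩
  exact (ode_unique (v := fun y => G (x, y)) (v' := fun y => dy G (x, y)) (a := fun _ => 0)
    (μ := -(k : ℝ) ^ 2) (fun y => hG.hasDerivAt_y x y)
    (fun y => by
      have := hG.dy.hasDerivAt_y x y
      rw [hy] at this
      rwa [sub_zero]) hK2 (x₀ := y₀) (h1 x) (h2 x) y).1

/-- strong unique continuation -/
theorem Cyl.unique_continuation (h : Cyl b B F) {p : ℝ × ℝ} (hv : ∀ m, Van m F p) : F = 0 := by
  have h1 := van_components (b := b) h.hb (freq B) (Gc B F) (fun k => Gc_sm h.sm k)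
    (fun k q => Gc_dxdx h k q) (fun m => by rw [← decomp h]; exact hv m)
  rw [decomp h]
  refine Finset.sum_eq_zero fun k hk => ?_
  exact comp_zero h.P h.hb (Gc_sm h.sm k) (fun q => Gc_dxdx h k q) (fun q => Gc_dydy h k q)
    (h1 k hk 2)

theorem Cyl.relation (h : Cyl b B F) {n : ℕ} {p : ℝ × ℝ} (hv : Van (n + 1) F p) (i j : ℕ)
    (hij : i + j ≤ n) : DD (i + 2) j F p + DD i (j + 2) F p = 0 := by
  have sF := h.sm
  have h1 : dx (dx F) + dy (dy F) = (-1 : ℝ) • fstF b * F := by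
    funext q
    have := h.pde q
    simp only [Pi.add_apply, Pi.mul_apply, Pi.smul_apply, smul_eq_mul, fstF]
    linarith
  have h2 : Van (n + 1) ((-1 : ℝ) • fstF b * F) p :=
    Van.mul sF (sm_smul (-1 : ℝ) (sm_fstF h.hb)) hv
  rw [← h1] at h2
  have h3 := (van_iff (sm_add sF.dx.dx sF.dy.dy)).1 h2 i j (by omega)
  rw [DD_add sF.dx.dx sF.dy.dy, ← DD_succ_left sF.dx, ← DD_succ_left sF, ← DD_succ_right,
    ← DD_succ_right] at h3
  exact h3

theorem Cyl.isolated (hF : Cyl b B F) {n : ℕ} {p : ℝ × ℝ} (hv : Van (n + 1) F p)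
    (hnv : ¬ Van (n + 2) F p) : ∀ᶠ q in 𝓝[≠] p, ¬ Van (n + 1) F q := by
  have sF := hF.sm
  set A := DD (n + 2) 0 F p with hA
  set B := DD (n + 1) 1 F p with hB
  have hAB : ¬ (A = 0 ∧ B = 0) := by
    rintro ⟨hA0, hB0⟩
    apply hnv
    rw [van_iff sF]
    intro i j hij
    rcases Nat.lt_or_ge (i + j) (n + 2) with h | h
    · exact (van_iff sF).1 hv i j (by omega)
    · have key : ∀ j i, i + j = n + 2 → DD i j F p = 0 := by
        intro j
        induction j using Nat.strong_induction_on with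
        | _ j ih =>
          intro i hij
          rcases j with _ | _ | j
          · obtain rfl : i = n + 2 := by omega
            exact hA0
          · obtain rfl : i = n + 1 := by omega
            exact hB0
          · have h1 := hF.relation hv i j (by omega)
            rw [ih j (by omega) (i + 2) (by omega), zero_add] at h1
            exact h1
      exact key j i (by omega)
  let W : ℝ × ℝ → ℝ × ℝ := fun q => (DD (n + 1) 0 F q, DD n 1 F q)
  have hW1 : HasFDerivAt (DD (n + 1) 0 F) (fderiv ℝ (DD (n + 1) 0 F) p) p :=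
    ((sm_DD sF _ _).diff p).hasFDerivAt
  have hW2 : HasFDerivAt (DD n 1 F) (fderiv ℝ (DD n 1 F) p) p :=
    ((sm_DD sF _ _).diff p).hasFDerivAt
  have hW := hW1.prodMk hW2
  have e11 : fderiv ℝ (DD (n + 1) 0 F) p (1, 0) = A := by
    show dx (DD (n + 1) 0 F) p = A
    rw [dx_DD sF]
  have e12 : fderiv ℝ (DD (n + 1) 0 F) p (0, 1) = B := by
    show dy (DD (n + 1) 0 F) p = B
    rw [dy_DD sF]
  have e21 : fderiv ℝ (DD n 1 F) p (1, 0) = B := by
    show dx (DD n 1 F) p = B
    rw [dx_DD sF]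
  have e22 : fderiv ℝ (DD n 1 F) p (0, 1) = -A := by
    show dy (DD n 1 F) p = -A
    rw [dy_DD sF]
    have := hF.relation hv n 0 (by omega)
    linarith
  have hlin : ∀ (L : ℝ × ℝ →L[ℝ] ℝ) (z : ℝ × ℝ), L z = z.1 * L (1, 0) + z.2 * L (0, 1) := by
    intro L z
    have : z = z.1 • ((1 : ℝ), (0 : ℝ)) + z.2 • ((0 : ℝ), (1 : ℝ)) := by
      ext <;> simp
    conv_lhs => rw [this]
    rw [map_add, map_smul, map_smul, smul_eq_mul, smul_eq_mul]
  have hR : 0 < A ^ 2 + B ^ 2 := by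
    by_contra hcon
    apply hAB
    have h1 := sq_nonneg A
    have h2 := sq_nonneg B
    exact ⟨by nlinarith, by nlinarith⟩
  -- the derivative is bounded below
  set L := (fderiv ℝ (DD (n + 1) 0 F) p).prod (fderiv ℝ (DD n 1 F) p) with hL
  have hLz : ∀ z : ℝ × ℝ, L z = (z.1 * A + z.2 * B, z.1 * B + z.2 * (-A)) := by
    intro z
    rw [hL]
    show (fderiv ℝ (DD (n + 1) 0 F) p z, fderiv ℝ (DD n 1 F) p z) = _
    rw [hlin (fderiv ℝ (DD (n + 1) 0 F) p) z, hlin (fderiv ℝ (DD n 1 F) p) z, e11, e12, e21, e22]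
  have hanti : ∃ C, AntilipschitzWith C L := by
    refine ⟨Real.toNNReal ((|A| + |B|) / (A ^ 2 + B ^ 2)), ?_⟩
    refine ContinuousLinearMap.antilipschitz_of_bound L fun z => ?_
    rw [Real.coe_toNNReal _ (by positivity), div_mul_eq_mul_div, le_div_iff₀ hR]
    rw [hLz z]
    set X := z.1 * A + z.2 * B with hX
    set Y := z.1 * B + z.2 * (-A) with hY
    rw [Prod.norm_def, Prod.norm_def]
    simp only [Real.norm_eq_abs]
    have e1 : z.1 * (A ^ 2 + B ^ 2) = A * X + B * Y := by rw [hX, hY]; ring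
    have e2 : z.2 * (A ^ 2 + B ^ 2) = B * X - A * Y := by rw [hX, hY]; ring
    have m1 : |X| ≤ max |X| |Y| := le_max_left _ _
    have m2 : |Y| ≤ max |X| |Y| := le_max_right _ _
    have a1 : |z.1| * (A ^ 2 + B ^ 2) ≤ (|A| + |B|) * max |X| |Y| := by
      calc |z.1| * (A ^ 2 + B ^ 2) = |A * X + B * Y| := by
            rw [← e1, abs_mul, abs_of_pos hR]
        _ ≤ |A * X| + |B * Y| := abs_add_le _ _
        _ = |A| * |X| + |B| * |Y| := by rw [abs_mul, abs_mul]
        _ ≤ |A| * max |X| |Y| + |B| * max |X| |Y| :=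
            add_le_add (mul_le_mul_of_nonneg_left m1 (abs_nonneg _))
              (mul_le_mul_of_nonneg_left m2 (abs_nonneg _))
        _ = _ := by ring
    have a2 : |z.2| * (A ^ 2 + B ^ 2) ≤ (|A| + |B|) * max |X| |Y| := by
      calc |z.2| * (A ^ 2 + B ^ 2) = |B * X - A * Y| := by
            rw [← e2, abs_mul, abs_of_pos hR]
        _ ≤ |B * X| + |A * Y| := by
            rw [sub_eq_add_neg]
            refine (abs_add_le _ _).trans ?_
            rw [abs_neg]
        _ = |B| * |X| + |A| * |Y| := by rw [abs_mul, abs_mul]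
        _ ≤ |B| * max |X| |Y| + |A| * max |X| |Y| :=
            add_le_add (mul_le_mul_of_nonneg_left m1 (abs_nonneg _))
              (mul_le_mul_of_nonneg_left m2 (abs_nonneg _))
        _ = _ := by ring
    rcases max_cases |z.1| |z.2| with ⟨h, _⟩ | ⟨h, _⟩ <;> rw [h]
    · exact a1
    · exact a2
  have := HasFDerivAt.eventually_ne (c := ((0 : ℝ), (0 : ℝ))) hW hanti
  filter_upwards [this] with q hq hvq
  apply hq
  rw [van_iff sF] at hvq
  have h1 := hvq (n + 1) 0 (by omega)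
  have h2 := hvq n 1 (by omega)
  simp only [h1, h2]

theorem Cyl.sing_countable (h : Cyl b B F) (hne : F ≠ 0) : (sing F).Countable := by
  have h1 : sing F ⊆ ⋃ n : ℕ, {p | Van (n + 1) F p ∧ ¬ Van (n + 2) F p} := by
    intro p hp
    have hex : ∃ k, ¬ Van k F p := by
      by_contra hcon
      push Not at hcon
      exact hne (h.unique_continuation hcon)
    classical
    have hm := Nat.find_spec hex
    set m := Nat.find hex with hmdef
    have h0 : Van 1 F p := ⟨hp.1, hp.2.1, hp.2.2⟩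
    have hm2 : 2 ≤ m := by
      by_contra hlt
      exact hm (h0.mono (by omega))
    obtain ⟨n, hn⟩ : ∃ n, m = n + 2 := ⟨m - 2, by omega⟩
    refine mem_iUnion.2 ⟨n, ?_, ?_⟩
    · by_contra hcon
      have := Nat.find_min' hex hcon
      omega
    · rw [← hn]; exact hm
  refine Set.Countable.mono h1 (Set.countable_iUnion fun n => ?_)
  refine countable_of_isolated fun p hp => ?_
  filter_upwards [h.isolated hp.1 hp.2] with q hq hq'
  exact hq hq'.1

end TH321.YR
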