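import Mathlib
import Pool.Agent.TH321.YR.Cover
import Pool.Agent.TH321.YR.Uniq

/-!
# The Mercator parametrisation of the sphere
-/

set_option autoImplicit false

open Set Filter Topology MeasureTheory
open scoped ContDiff ENNReal NNReal

namespace TH321.YR

open TH266.LT

/-- the Euclidean space -/
abbrev E3 : Type := EuclideanSpace ℝ (Fin 3)

/-- hyperbolic secant -/
noncomputable def sech (x : ℝ) : ℝ := 1 / Real.cosh x

theorem sech_pos (x : ℝ) : 0 < sech x := by
  have := Real.cosh_pos x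
  unfold sech; positivity

theorem sech_le_one (x : ℝ) : sech x ≤ 1 := by
  unfold sech
  rw [div_le_one (Real.cosh_pos x)]
  exact Real.one_le_cosh x

theorem tanh_eq (x : ℝ) : Real.tanh x = Real.sinh x * sech x := by
  rw [Real.tanh_eq_sinh_div_cosh, sech]; ring

theorem sech_sq_add (x : ℝ) : sech x ^ 2 + Real.tanh x ^ 2 = 1 := by
  rw [tanh_eq]
  have h1 : sech x * Real.cosh x = 1 := by
    unfold sech; field_simp [(Real.cosh_pos x).ne']
  have h2 := Real.cosh_sq x
  have : sech x ^ 2 + (Real.sinh x * sech x) ^ 2 = (sech x) ^ 2 * (Real.cosh x ^ 2) := by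
    rw [h2]; ring
  rw [this, ← mul_pow, h1, one_pow]

theorem sech_mul_cosh_sub (x x' : ℝ) :
    sech x * sech x' * Real.cosh (x - x') = 1 - Real.tanh x * Real.tanh x' := by
  rw [tanh_eq, tanh_eq, Real.cosh_sub]
  have h1 : sech x * Real.cosh x = 1 := by
    unfold sech; field_simp [(Real.cosh_pos x).ne']
  have h2 : sech x' * Real.cosh x' = 1 := by
    unfold sech; field_simp [(Real.cosh_pos x').ne']
  linear_combination (sech x' * Real.cosh x') * h1 + h2

theorem one_add_le_cosh (x : ℝ) : 1 + x ^ 2 / 2 ≤ Real.cosh x := by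
  have h1 : Real.cosh x = 1 + 2 * Real.sinh (x / 2) ^ 2 := by
    have := Real.cosh_two_mul (x / 2)
    rw [mul_div_cancel₀ x two_ne_zero] at this
    have h2 := Real.cosh_sq (x / 2)
    linarith
  have h3 : (x / 2) ^ 2 ≤ Real.sinh (x / 2) ^ 2 := by
    rcases le_total 0 x with h | h
    · exact pow_le_pow_left₀ (by linarith) (Real.self_le_sinh_iff.2 (by linarith)) 2
    · have := Real.sinh_le_self_iff.2 (show x / 2 ≤ 0 by linarith)
      nlinarith
  rw [h1]; nlinarith

theorem cosh_le_small {x : ℝ} (hx : |x| ≤ 1 / 10) : Real.cosh x ≤ 1 + x ^ 2 / 2 * (200 / 199) := by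
  have h0 : x ^ 2 ≤ (1 / 10) ^ 2 := by
    rw [← sq_abs]; exact pow_le_pow_left₀ (abs_nonneg _) hx 2
  have h1 := Real.cosh_le_exp_half_sq x
  set u := x ^ 2 / 2 with hu
  have hu0 : 0 ≤ u := by positivity
  have hu1 : u ≤ 1 / 200 := by rw [hu]; linarith
  have h2 := Real.exp_bound_div_one_sub_of_interval hu0 (by linarith)
  have h3 : 1 / (1 - u) ≤ 1 + u * (200 / 199) := by
    rw [div_le_iff₀ (by linarith)]
    nlinarith
  linarith

/-- the Mercator parametrisation -/
noncomputable def Φ (p : ℝ × ℝ) : E3 :=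
  !₂[sech p.1 * Real.cos p.2, sech p.1 * Real.sin p.2, Real.tanh p.1]

theorem dist_Φ_sq (p q : ℝ × ℝ) : dist (Φ p) (Φ q) ^ 2 =
    2 * (sech p.1 * sech q.1) * (Real.cosh (p.1 - q.1) - Real.cos (p.2 - q.2)) := by
  rw [EuclideanSpace.dist_eq, Real.sq_sqrt (Finset.sum_nonneg fun _ _ => sq_nonneg _),
    Fin.sum_univ_three]
  have e0 : (Φ p) 0 = sech p.1 * Real.cos p.2 := rfl
  have e1 : (Φ p) 1 = sech p.1 * Real.sin p.2 := rfl
  have e2 : (Φ p) 2 = Real.tanh p.1 := rfl
  have f0 : (Φ q) 0 = sech q.1 * Real.cos q.2 := rfl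
  have f1 : (Φ q) 1 = sech q.1 * Real.sin q.2 := rfl
  have f2 : (Φ q) 2 = Real.tanh q.1 := rfl
  rw [e0, e1, e2, f0, f1, f2]
  simp only [Real.dist_eq, sq_abs]
  have h1 := sech_sq_add p.1
  have h2 := sech_sq_add q.1
  have h3 := Real.cos_sq_add_sin_sq p.2
  have h4 := Real.cos_sq_add_sin_sq q.2
  have h5 := sech_mul_cosh_sub p.1 q.1
  have h6 := Real.cos_sub p.2 q.2
  rw [mul_sub, h6]
  linear_combination sech p.1 ^ 2 * h3 + sech q.1 ^ 2 * h4 + h1 + h2 - 2 * h5

theorem le_of_sq_le {a t c : ℝ} (h : a ^ 2 ≤ c * t ^ 2) (hc : c ≤ (157 / 100) ^ 2) :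
    a ≤ 157 / 100 * |t| := by
  have h1 : a ^ 2 ≤ (157 / 100 * |t|) ^ 2 := by
    rw [mul_pow, sq_abs]
    nlinarith [sq_nonneg t]
  exact (le_abs_self a).trans (abs_le_of_sq_le_sq h1 (by positivity))

/-- distances for steep pieces over `y` -/
theorem dist_Φ_y {p q : ℝ × ℝ} (h : |p.1 - q.1| ≤ 6 / 5 * |p.2 - q.2|)
    (hs : |p.1 - q.1| ≤ 1 / 10) : dist (Φ p) (Φ q) ≤ 157 / 100 * |p.2 - q.2| := by
  refine le_of_sq_le (c := 36 / 25 * (200 / 199) + 1) ?_ (by norm_num)
  rw [dist_Φ_sq]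
  have h1 := cosh_le_small hs
  have h2 := Real.one_sub_sq_div_two_le_cos (x := p.2 - q.2)
  have h3 : (p.1 - q.1) ^ 2 ≤ 36 / 25 * (p.2 - q.2) ^ 2 := by
    have := pow_le_pow_left₀ (abs_nonneg _) h 2
    rw [mul_pow, sq_abs, sq_abs] at this
    linarith
  have h4 : Real.cosh (p.1 - q.1) - Real.cos (p.2 - q.2) ≤
      (p.1 - q.1) ^ 2 / 2 * (200 / 199) + (p.2 - q.2) ^ 2 / 2 := by linarith
  have h5 : 0 ≤ Real.cosh (p.1 - q.1) - Real.cos (p.2 - q.2) := by
    have e1 := Real.one_le_cosh (p.1 - q.1)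
    have e2 := Real.cos_le_one (p.2 - q.2)
    linarith
  have h6 : sech p.1 * sech q.1 ≤ 1 :=
    mul_le_one₀ (sech_le_one _) (sech_pos _).le (sech_le_one _)
  have h7 : 2 * (sech p.1 * sech q.1) * (Real.cosh (p.1 - q.1) - Real.cos (p.2 - q.2)) ≤
      2 * 1 * (Real.cosh (p.1 - q.1) - Real.cos (p.2 - q.2)) := by
    refine mul_le_mul_of_nonneg_right ?_ h5
    linarith
  linarith

/-- the colatitude -/
noncomputable def col (x : ℝ) : ℝ := Real.arccos (-Real.tanh x)

theorem abs_tanh_le (x : ℝ) : |Real.tanh x| ≤ 1 := by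
  have := sech_sq_add x
  rw [abs_le_one_iff_mul_self_le_one]
  nlinarith [sq_nonneg (sech x)]

theorem cos_col (x : ℝ) : Real.cos (col x) = - Real.tanh x := by
  have := abs_le.1 (abs_tanh_le x)
  exact Real.cos_arccos (by linarith) (by linarith)

theorem sin_col (x : ℝ) : Real.sin (col x) = sech x := by
  unfold col
  rw [Real.sin_arccos]
  have h := sech_sq_add x
  rw [show 1 - (-Real.tanh x) ^ 2 = sech x ^ 2 by rw [neg_sq]; linarith,
    Real.sqrt_sq (sech_pos x).le]

theorem cont_col : Continuous col := by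
  have h : Continuous Real.tanh := by
    have : Real.tanh = fun x => Real.sinh x / Real.cosh x := by
      funext x; exact Real.tanh_eq_sinh_div_cosh x
    rw [this]
    exact Real.continuous_sinh.div Real.continuous_cosh fun x => (Real.cosh_pos x).ne'
  exact Real.continuous_arccos.comp h.neg

theorem col_chord (x x' : ℝ) :
    sech x * sech x' * (Real.cosh (x - x') - 1) = 1 - Real.cos (col x - col x') := by
  rw [Real.cos_sub, cos_col, cos_col, sin_col, sin_col, mul_sub, sech_mul_cosh_sub]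
  ring

theorem col_sq (x x' : ℝ) :
    sech x * sech x' * (Real.cosh (x - x') - 1) ≤ (col x - col x') ^ 2 / 2 := by
  rw [col_chord]
  have := Real.one_sub_sq_div_two_le_cos (x := col x - col x')
  linarith

theorem col_inj {x x' : ℝ} (h : col x = col x') : x = x' := by
  have h1 := col_sq x x'
  rw [h, sub_self] at h1
  have h2 := one_add_le_cosh (x - x')
  have h3 : 0 < sech x * sech x' := mul_pos (sech_pos _) (sech_pos _)
  have h4 : (x - x') ^ 2 ≤ 0 := by
    by_contra hcon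
    push Not at hcon
    have : 0 < sech x * sech x' * (Real.cosh (x - x') - 1) := mul_pos h3 (by linarith)
    norm_num at h1
    linarith
  have h5 : x - x' = 0 := by
    have := le_antisymm h4 (sq_nonneg _)
    exact pow_eq_zero_iff two_ne_zero |>.1 this
  linarith

/-- distances for flat pieces over `x`, in terms of the colatitude -/
theorem dist_Φ_x {p q : ℝ × ℝ} (h : |p.2 - q.2| ≤ 6 / 5 * |p.1 - q.1|) :
    dist (Φ p) (Φ q) ≤ 157 / 100 * |col p.1 - col q.1| := by
  refine le_of_sq_le (c := 61 / 25) ?_ (by norm_num)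
  rw [dist_Φ_sq]
  have h1 := one_add_le_cosh (p.1 - q.1)
  have h2 := Real.one_sub_sq_div_two_le_cos (x := p.2 - q.2)
  have h3 : (p.2 - q.2) ^ 2 ≤ 36 / 25 * (p.1 - q.1) ^ 2 := by
    have := pow_le_pow_left₀ (abs_nonneg _) h 2
    rw [mul_pow, sq_abs, sq_abs] at this
    linarith
  have h4 : Real.cosh (p.1 - q.1) - Real.cos (p.2 - q.2) ≤
      61 / 25 * (Real.cosh (p.1 - q.1) - 1) := by linarith
  have h6 : 0 < sech p.1 * sech q.1 := mul_pos (sech_pos _) (sech_pos _)
  have h7 : 2 * (sech p.1 * sech q.1) * (Real.cosh (p.1 - q.1) - Real.cos (p.2 - q.2)) ≤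
      2 * (sech p.1 * sech q.1) * (61 / 25 * (Real.cosh (p.1 - q.1) - 1)) :=
    mul_le_mul_of_nonneg_left h4 (by positivity)
  have h8 := col_sq p.1 q.1
  linarith

end TH321.YR
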