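import Mathlib
import Pool.Agent.TH321.YR.Merc

/-!
# The length of the nodal set on the sphere
-/

set_option autoImplicit false

open Set Filter Topology MeasureTheory
open scoped ContDiff ENNReal NNReal

namespace TH321.YR

open TH266.LT

variable {b : ℝ → ℝ} {B : ℝ} {F G : ℝ × ℝ → ℝ}

/-- steep zeros over `y` -/
def halfX (F : ℝ × ℝ → ℝ) : Set (ℝ × ℝ) :=
  {p | p.2 ∈ Ico 0 (2 * Real.pi) ∧ F p = 0 ∧ dx F p ≠ 0 ∧ |dy F p| ≤ |dx F p|}

/-- steep zeros over `x` -/
def halfY (F : ℝ × ℝ → ℝ) : Set (ℝ × ℝ) :=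
  {p | p.2 ∈ Ico 0 (2 * Real.pi) ∧ F p = 0 ∧ dy F p ≠ 0 ∧ |dx F p| ≤ |dy F p|}

theorem meas_halfX (hF : Sm F) : MeasurableSet (halfX F) := by
  have m2 : MeasurableSet {p : ℝ × ℝ | p.2 ∈ Ico 0 (2 * Real.pi)} :=
    measurable_snd measurableSet_Ico
  have m3 : MeasurableSet {p : ℝ × ℝ | F p = 0} :=
    (isClosed_eq hF.continuous continuous_const).measurableSet
  have m4 : MeasurableSet {p : ℝ × ℝ | dx F p ≠ 0} :=
    (isClosed_eq hF.dx.continuous continuous_const).measurableSet.compl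
  have m5 : MeasurableSet {p : ℝ × ℝ | |dy F p| ≤ |dx F p|} :=
    (isClosed_le hF.dy.continuous.abs hF.dx.continuous.abs).measurableSet
  exact m2.inter (m3.inter (m4.inter m5))

theorem meas_halfY (hF : Sm F) : MeasurableSet (halfY F) := by
  have m2 : MeasurableSet {p : ℝ × ℝ | p.2 ∈ Ico 0 (2 * Real.pi)} :=
    measurable_snd measurableSet_Ico
  have m3 : MeasurableSet {p : ℝ × ℝ | F p = 0} :=
    (isClosed_eq hF.continuous continuous_const).measurableSet
  have m4 : MeasurableSet {p : ℝ × ℝ | dy F p ≠ 0} :=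
    (isClosed_eq hF.dy.continuous continuous_const).measurableSet.compl
  have m5 : MeasurableSet {p : ℝ × ℝ | |dx F p| ≤ |dy F p|} :=
    (isClosed_le hF.dx.continuous.abs hF.dy.continuous.abs).measurableSet
  exact m2.inter (m3.inter (m4.inter m5))

theorem halfX_le (h : Cyl b B F) : μH[1] (Φ '' halfX F) ≤
    ENNReal.ofReal (157 / 100) * (ENNReal.ofReal √(8 * B) * volume (Ico 0 (2 * Real.pi))) := by
  classical
  refine cover_le (meas_halfX h.sm) (τ := Prod.snd) continuous_snd measurableSet_Ico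
    (fun p hp => hp.1) (fun p hp => ?_) (fun t Z hZ => ?_)
  · obtain ⟨U, hUo, hpU, hU⟩ := local_lip h.sm hp.2.2.1 hp.2.2.2
    refine ⟨U ∩ {q | |q.1 - p.1| < 1 / 20}, hUo.inter (isOpen_lt (by fun_prop) continuous_const),
      ⟨hpU, by simp⟩, ?_⟩
    rintro q ⟨⟨hq1, hq2⟩, hq3⟩ q' ⟨⟨hq1', hq2'⟩, hq3'⟩
    have h1 := hU q hq1 q' hq1' hq3.2.1 hq3'.2.1
    simp only [mem_ofPred_eq] at hq2 hq2'
    have h2 : |q.1 - q'.1| ≤ 1 / 10 := by
      have e1 := abs_lt.1 hq2
      have e2 := abs_lt.1 hq2'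
      rw [abs_le]; constructor <;> linarith
    refine ⟨dist_Φ_y h1 h2, fun he => ?_⟩
    rw [he, sub_self, abs_zero, mul_zero] at h1
    have := abs_nonpos_iff.1 h1
    exact Prod.ext (by linarith) he
  · have hinj : Set.InjOn Prod.fst (Z : Set (ℝ × ℝ)) := by
      intro p hp q hq hpq
      exact Prod.ext hpq ((hZ p hp).2.trans (hZ q hq).2.symm)
    have hc : (Z.image Prod.fst).card = Z.card := Finset.card_image_of_injOn hinj
    have hb := h.card_x t (Z := Z.image Prod.fst)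
      (fun z hz => by
        obtain ⟨p, hp, rfl⟩ := Finset.mem_image.1 hz
        have := (hZ p hp).1.2.1
        rw [← (hZ p hp).2]; exact this)
      (fun z hz => by
        obtain ⟨p, hp, rfl⟩ := Finset.mem_image.1 hz
        have := (hZ p hp).1.2.2.1
        rw [← (hZ p hp).2]; exact this)
    rw [hc] at hb
    exact Real.le_sqrt_of_sq_le hb

theorem halfY_le (h : Cyl b B F) : μH[1] (Φ '' halfY F) ≤
    ENNReal.ofReal (157 / 100) * (ENNReal.ofReal (2 * √B) * volume (Icc 0 Real.pi)) := by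
  classical
  refine cover_le (meas_halfY h.sm) (τ := fun p => col p.1) (cont_col.comp continuous_fst)
    measurableSet_Icc (fun p _ => ⟨Real.arccos_nonneg _, Real.arccos_le_pi _⟩) (fun p hp => ?_)
    (fun t Z hZ => ?_)
  · obtain ⟨U, hUo, hpU, hU⟩ := local_lip (p := p.swap) (sm_swap h.sm)
      (by rw [dx_swap h.sm]; exact hp.2.2.1)
      (by rw [dx_swap h.sm, dy_swap h.sm]; exact hp.2.2.2)
    refine ⟨Prod.swap ⁻¹' U, hUo.preimage continuous_swap, hpU, ?_⟩
    rintro q ⟨hq1, hq3⟩ q' ⟨hq1', hq3'⟩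
    have h1 := hU q.swap hq1 q'.swap hq1' hq3.2.1 hq3'.2.1
    simp only [Prod.fst_swap, Prod.snd_swap] at h1
    refine ⟨dist_Φ_x h1, fun he => ?_⟩
    have he' : q.1 = q'.1 := col_inj he
    rw [he', sub_self, abs_zero, mul_zero] at h1
    have := abs_nonpos_iff.1 h1
    exact Prod.ext he' (by linarith)
  · rcases Z.eq_empty_or_nonempty with rfl | ⟨p₀, hp₀⟩
    · simp
    have hx : ∀ p ∈ Z, p.1 = p₀.1 := fun p hp => col_inj ((hZ p hp).2.trans (hZ p₀ hp₀).2.symm)
    have hinj : Set.InjOn Prod.snd (Z : Set (ℝ × ℝ)) := by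
      intro p hp q hq hpq
      exact Prod.ext ((hx p hp).trans (hx q hq).symm) hpq
    have hc : (Z.image Prod.snd).card = Z.card := Finset.card_image_of_injOn hinj
    have hb := h.card_y p₀.1 (Z := Z.image Prod.snd)
      (fun z hz => by
        obtain ⟨p, hp, rfl⟩ := Finset.mem_image.1 hz
        exact (hZ p hp).1.1)
      (fun z hz => by
        obtain ⟨p, hp, rfl⟩ := Finset.mem_image.1 hz
        have := (hZ p hp).1.2.1
        rw [← hx p hp]; exact this)
      (fun z hz => by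
        obtain ⟨p, hp, rfl⟩ := Finset.mem_image.1 hz
        have := (hZ p hp).1.2.2.1
        rw [← hx p hp]; exact this)
    rw [hc] at hb
    have hpi := Real.pi_pos
    have : (Z.card : ℝ) * Real.pi ≤ (2 * √B) * Real.pi := by linarith
    exact le_of_mul_le_mul_right this hpi

/-- the length of the nodal set -/
theorem nodal_le (h : Cyl b B F) (hne : F ≠ 0) :
    μH[1] (Φ '' {p | p.2 ∈ Ico 0 (2 * Real.pi) ∧ F p = 0}) ≤ ENNReal.ofReal (38 * √B) := by
  have hcov : Φ '' {p | p.2 ∈ Ico 0 (2 * Real.pi) ∧ F p = 0} ⊆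
      Φ '' halfX F ∪ (Φ '' halfY F ∪ Φ '' sing F) := by
    rintro _ ⟨p, ⟨hp1, hp2⟩, rfl⟩
    by_cases h1 : |dy F p| ≤ |dx F p|
    · by_cases h2 : dx F p = 0
      · refine Or.inr (Or.inr ⟨p, ⟨hp2, h2, ?_⟩, rfl⟩)
        rw [h2, abs_zero] at h1
        exact abs_nonpos_iff.1 h1
      · exact Or.inl ⟨p, ⟨hp1, hp2, h2, h1⟩, rfl⟩
    · push Not at h1
      refine Or.inr (Or.inl ⟨p, ⟨hp1, hp2, ?_, h1.le⟩, rfl⟩)
      exact abs_pos.1 ((abs_nonneg _).trans_lt h1)
  have h1 := halfX_le h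
  have h2 := halfY_le h
  have h3 : μH[1] (Φ '' sing F) = 0 := by
    have : NullSingletonClass (μH[1] : Measure E3) :=
      MeasureTheory.Measure.nullSingletonClass_hausdorff E3 one_pos
    exact ((h.sing_countable hne).image _).measure_zero _
  have hs := Real.sqrt_nonneg B
  have hpi := Real.pi_pos
  rw [Real.volume_Ico, sub_zero, ← ENNReal.ofReal_mul (Real.sqrt_nonneg _),
    ← ENNReal.ofReal_mul (by norm_num)] at h1
  rw [Real.volume_Icc, sub_zero, ← ENNReal.ofReal_mul (by positivity),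
    ← ENNReal.ofReal_mul (by norm_num)] at h2
  have h8 : √(8 * B) ≤ 2.82843 * √B := by
    rw [Real.sqrt_mul (by norm_num)]
    refine mul_le_mul_of_nonneg_right ?_ hs
    rw [Real.sqrt_le_left (by norm_num)]
    norm_num
  calc μH[1] (Φ '' {p | p.2 ∈ Ico 0 (2 * Real.pi) ∧ F p = 0})
      ≤ μH[1] (Φ '' halfX F) + (μH[1] (Φ '' halfY F) + μH[1] (Φ '' sing F)) := by
        refine (measure_mono hcov).trans ((measure_union_le _ _).trans ?_)
        gcongr
        exact measure_union_le _ _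
    _ ≤ ENNReal.ofReal (157 / 100 * (√(8 * B) * (2 * Real.pi))) +
        (ENNReal.ofReal (157 / 100 * (2 * √B * Real.pi)) + 0) := by
        rw [h3]
        gcongr
    _ ≤ ENNReal.ofReal (38 * √B) := by
        rw [add_zero, ← ENNReal.ofReal_add (by positivity) (by positivity)]
        refine ENNReal.ofReal_le_ofReal ?_
        have hpi2 : Real.pi < 3.1416 := Real.pi_lt_d4
        have e1 : √(8 * B) * (2 * Real.pi) ≤ 2.82843 * √B * (2 * Real.pi) :=
          mul_le_mul_of_nonneg_right h8 (by positivity)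
        have e2 : 157 / 100 * (√(8 * B) * (2 * Real.pi)) + 157 / 100 * (2 * √B * Real.pi) ≤
            (157 / 100 * (2.82843 * 2 + 2)) * (√B * Real.pi) := by linarith
        have e3 : √B * Real.pi ≤ √B * 3.1416 := mul_le_mul_of_nonneg_left hpi2.le hs
        nlinarith
end TH321.YR
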