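import Mathlib
import Pool.Agent.TH321.YR.Len

/-!
# From the sphere to the cylinder
-/

set_option autoImplicit false

open Set Filter Topology MeasureTheory InnerProductSpace Laplacian
open scoped ContDiff ENNReal NNReal

namespace TH321.YR

open TH266.LT

/-- vectors of the space given by coordinates -/
noncomputable def v3 (a b c : ℝ) : E3 := !₂[a, b, c]

@[simp] theorem v3_0 (a b c : ℝ) : (v3 a b c) 0 = a := rfl
@[simp] theorem v3_1 (a b c : ℝ) : (v3 a b c) 1 = b := rfl
@[simp] theorem v3_2 (a b c : ℝ) : (v3 a b c) 2 = c := rfl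

theorem ext3 {u v : E3} (h0 : u 0 = v 0) (h1 : u 1 = v 1) (h2 : u 2 = v 2) : u = v := by
  ext i
  fin_cases i
  · exact h0
  · exact h1
  · exact h2

theorem v3_smul (t a b c : ℝ) : t • v3 a b c = v3 (t * a) (t * b) (t * c) :=
  ext3 (by simp) (by simp) (by simp)

theorem v3_add (a b c a' b' c' : ℝ) : v3 a b c + v3 a' b' c' = v3 (a + a') (b + b') (c + c') :=
  ext3 (by simp) (by simp) (by simp)

theorem hasDerivAt_v3 {a b c : ℝ → ℝ} {a' b' c' t : ℝ} (ha : HasDerivAt a a' t)
    (hb : HasDerivAt b b' t) (hc : HasDerivAt c c' t) :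
    HasDerivAt (fun t => v3 (a t) (b t) (c t)) (v3 a' b' c') t := by
  have h1 := ha.smul_const (v3 1 0 0)
  have h2 := hb.smul_const (v3 0 1 0)
  have h3 := hc.smul_const (v3 0 0 1)
  have h := (h1.add h2).add h3
  have e : ∀ a b c : ℝ, a • v3 1 0 0 + b • v3 0 1 0 + c • v3 0 0 1 = v3 a b c := by
    intro a b c
    simp only [v3_smul, v3_add]
    simp
  rw [e] at h
  refine h.congr_of_eventuallyEq (Filter.Eventually.of_forall fun s => ?_)
  exact (e _ _ _).symm

theorem inner_v3 (a b c a' b' c' : ℝ) : inner ℝ (v3 a b c) (v3 a' b' c') = a * a' + b * b' + c * c' := by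
  rw [PiLp.inner_apply, Fin.sum_univ_three]
  simp only [v3_0, v3_1, v3_2]
  simp only [RCLike.inner_apply, conj_trivial]
  ring

theorem sech_d (x : ℝ) : HasDerivAt sech (-(sech x * Real.tanh x)) x := by
  have h := (Real.hasDerivAt_cosh x).inv (Real.cosh_pos x).ne'
  have e : sech = fun x => (Real.cosh x)⁻¹ := by funext x; simp [sech]
  rw [e]
  refine h.congr_deriv ?_
  rw [Real.tanh_eq_sinh_div_cosh]
  field_simp

theorem tanh_d (x : ℝ) : HasDerivAt Real.tanh (sech x ^ 2) x := by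
  have h := (Real.hasDerivAt_sinh x).div (Real.hasDerivAt_cosh x) (Real.cosh_pos x).ne'
  have e : Real.tanh = fun x => Real.sinh x / Real.cosh x := by
    funext x; exact Real.tanh_eq_sinh_div_cosh x
  rw [e]
  refine h.congr_deriv ?_
  unfold sech
  have := Real.cosh_sq x
  have hc := (Real.cosh_pos x).ne'
  field_simp
  linarith

theorem sm_sech : ContDiff ℝ ∞ sech := by
  have e : sech = fun x => (Real.cosh x)⁻¹ := by funext x; simp [sech]
  rw [e]
  exact Real.contDiff_cosh.inv fun x => (Real.cosh_pos x).ne'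

theorem sm_tanh : ContDiff ℝ ∞ Real.tanh := by
  have e : Real.tanh = fun x => Real.sinh x / Real.cosh x := by
    funext x; exact Real.tanh_eq_sinh_div_cosh x
  rw [e]
  exact Real.contDiff_sinh.div Real.contDiff_cosh fun x => (Real.cosh_pos x).ne'

theorem Φ_eq (x y : ℝ) : Φ (x, y) = v3 (sech x * Real.cos y) (sech x * Real.sin y) (Real.tanh x) :=
  rfl

theorem sm_Φ : ContDiff ℝ ∞ Φ := by
  rw [contDiff_euclidean]
  intro i
  have h1 : ContDiff ℝ ∞ fun p : ℝ × ℝ => sech p.1 := sm_sech.comp contDiff_fst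
  have h2 : ContDiff ℝ ∞ fun p : ℝ × ℝ => Real.cos p.2 := Real.contDiff_cos.comp contDiff_snd
  have h3 : ContDiff ℝ ∞ fun p : ℝ × ℝ => Real.sin p.2 := Real.contDiff_sin.comp contDiff_snd
  have h4 : ContDiff ℝ ∞ fun p : ℝ × ℝ => Real.tanh p.1 := sm_tanh.comp contDiff_fst
  fin_cases i
  · exact h1.mul h2
  · exact h1.mul h3
  · exact h4

theorem inner_Φ (x y : ℝ) : inner ℝ (Φ (x, y)) (Φ (x, y)) = 1 := by
  rw [Φ_eq, inner_v3]
  have h1 := sech_sq_add x
  have h2 := Real.cos_sq_add_sin_sq y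
  linear_combination sech x ^ 2 * h2 + h1

theorem norm_Φ (p : ℝ × ℝ) : ‖Φ p‖ = 1 := by
  obtain ⟨x, y⟩ := p
  have h := inner_Φ x y
  rw [real_inner_self_eq_norm_sq] at h
  exact (pow_eq_one_iff_of_nonneg (norm_nonneg _) two_ne_zero).1 h

theorem Φ_ne (p : ℝ × ℝ) : Φ p ≠ 0 := by
  intro h
  have := norm_Φ p
  rw [h, norm_zero] at this
  exact zero_ne_one this

/-- unit vector in the direction of the meridian -/
noncomputable def Ea (x y : ℝ) : E3 :=
  v3 (-(Real.tanh x * Real.cos y)) (-(Real.tanh x * Real.sin y)) (sech x)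
/-- unit vector in the direction of the parallel -/
noncomputable def Eb (y : ℝ) : E3 := v3 (-Real.sin y) (Real.cos y) 0

theorem Φ_dx (x y : ℝ) : HasDerivAt (fun t => Φ (t, y)) (sech x • Ea x y) x := by
  have h := hasDerivAt_v3 ((sech_d x).mul_const (Real.cos y)) ((sech_d x).mul_const (Real.sin y))
    (tanh_d x)
  refine h.congr_deriv ?_
  unfold Ea
  rw [v3_smul]
  congr 1 <;> ring

theorem Φ_dy (x y : ℝ) : HasDerivAt (fun t => Φ (x, t)) (sech x • Eb y) y := by
  have h := hasDerivAt_v3 ((Real.hasDerivAt_cos y).const_mul (sech x))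
    ((Real.hasDerivAt_sin y).const_mul (sech x)) (hasDerivAt_const y (Real.tanh x))
  refine h.congr_deriv ?_
  unfold Eb
  rw [v3_smul]
  congr 1; ring

theorem Φ_dxx (x y : ℝ) : HasDerivAt (fun t => sech t • Ea t y)
    (v3 ((sech x * Real.tanh x ^ 2 - sech x ^ 3) * Real.cos y)
      ((sech x * Real.tanh x ^ 2 - sech x ^ 3) * Real.sin y)
      (-(2 * sech x ^ 2 * Real.tanh x))) x := by
  have h := hasDerivAt_v3
    ((sech_d x).mul (((tanh_d x).mul_const (Real.cos y)).neg))
    ((sech_d x).mul (((tanh_d x).mul_const (Real.sin y)).neg))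
    ((sech_d x).mul (sech_d x))
  have e : (fun t => sech t • Ea t y) = fun t => v3 (sech t * (-(Real.tanh t * Real.cos y)))
      (sech t * (-(Real.tanh t * Real.sin y))) (sech t * sech t) := by
    funext t
    unfold Ea
    rw [v3_smul]
  rw [e]
  refine HasDerivAt.congr_deriv (f' := _) h ?_
  congr 1 <;> (try simp only [Pi.neg_apply]) <;> ring

theorem Φ_dyy (x y : ℝ) : HasDerivAt (fun t => sech x • Eb t)
    (v3 (-(sech x * Real.cos y)) (-(sech x * Real.sin y)) 0) y := by
  have h := hasDerivAt_v3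
    (((Real.hasDerivAt_sin y).neg).const_mul (sech x))
    ((Real.hasDerivAt_cos y).const_mul (sech x))
    (hasDerivAt_const y (sech x * 0))
  have e : (fun t => sech x • Eb t) = fun t => v3 (sech x * (-Real.sin t))
      (sech x * Real.cos t) (sech x * 0) := by
    funext t
    unfold Eb
    rw [v3_smul]
  rw [e]
  refine HasDerivAt.congr_deriv (f' := _) h ?_
  congr 1 <;> ring

theorem Φ_harm (x y : ℝ) :
    v3 ((sech x * Real.tanh x ^ 2 - sech x ^ 3) * Real.cos y)
      ((sech x * Real.tanh x ^ 2 - sech x ^ 3) * Real.sin y)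
      (-(2 * sech x ^ 2 * Real.tanh x)) +
    v3 (-(sech x * Real.cos y)) (-(sech x * Real.sin y)) 0 = (-(2 * sech x ^ 2)) • Φ (x, y) := by
  rw [Φ_eq, v3_smul, v3_add]
  have h := sech_sq_add x
  have h' : Real.tanh x ^ 2 = 1 - sech x ^ 2 := by linarith
  rw [h']
  congr 1 <;> ring

theorem norm_of_inner {v : E3} (h : inner ℝ v v = 1) : ‖v‖ = 1 := by
  rw [real_inner_self_eq_norm_sq] at h
  exact (pow_eq_one_iff_of_nonneg (norm_nonneg _) two_ne_zero).1 h

/-- the orthonormal frame -/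
theorem frame_on (x y : ℝ) : Orthonormal ℝ ![Ea x y, Eb y, Φ (x, y)] := by
  have h1 := sech_sq_add x
  have h2 := Real.cos_sq_add_sin_sq y
  have n0 : ‖Ea x y‖ = 1 := norm_of_inner (by
    unfold Ea; rw [inner_v3]; linear_combination (Real.tanh x ^ 2) * h2 + h1)
  have n1 : ‖Eb y‖ = 1 := norm_of_inner (by
    unfold Eb; rw [inner_v3]; linear_combination h2)
  have n2 : ‖Φ (x, y)‖ = 1 := norm_Φ _
  have i01 : inner ℝ (Ea x y) (Eb y) = 0 := by
    unfold Ea Eb; rw [inner_v3]; ring
  have i02 : inner ℝ (Ea x y) (Φ (x, y)) = 0 := by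
    rw [Φ_eq]; unfold Ea; rw [inner_v3]
    linear_combination (-(Real.tanh x * sech x)) * h2
  have i12 : inner ℝ (Eb y) (Φ (x, y)) = 0 := by
    rw [Φ_eq]; unfold Eb; rw [inner_v3]; ring
  have i10 := real_inner_comm (Ea x y) (Eb y)
  have i20 := real_inner_comm (Ea x y) (Φ (x, y))
  have i21 := real_inner_comm (Eb y) (Φ (x, y))
  rw [i01] at i10
  rw [i02] at i20
  rw [i12] at i21
  rw [orthonormal_iff_ite]
  intro i j
  fin_cases i <;> fin_cases j <;> simp [n0, n1, n2, i01, i02, i12, i10, i20, i21]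

end TH321.YR
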