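import Mathlib
import Pool.Agent.TH321.YR.Sph

/-!
# The equation on the cylinder
-/

set_option autoImplicit false

open Set Filter Topology MeasureTheory InnerProductSpace Laplacian
open scoped ContDiff ENNReal NNReal

namespace TH321.YR

open TH266.LT

/-- solutions of `Δ u + lam ρ(x₃) u = 0` on the unit sphere, as functions homogeneous of degree
zero on the space -/
structure Eig (ρ : ℝ → ℝ) (lam : ℝ) (U : E3 → ℝ) : Prop where
  sm : ContDiffOn ℝ ∞ U {0}ᶜ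
  hom : ∀ t : ℝ, 0 < t → ∀ x, U (t • x) = U x
  eq : ∀ x, ‖x‖ = 1 → Δ U x + lam * ρ (x 2) * U x = 0

variable {ρ : ℝ → ℝ} {lam : ℝ} {U : E3 → ℝ}

theorem cda (h : ContDiffOn ℝ ∞ U {0}ᶜ) {z : E3} (hz : z ≠ 0) : ContDiffAt ℝ ∞ U z :=
  h.contDiffAt (isOpen_compl_singleton.mem_nhds hz)

theorem hd1 (h : ContDiffOn ℝ ∞ U {0}ᶜ) {z : E3} (hz : z ≠ 0) :
    HasFDerivAt U (fderiv ℝ U z) z :=
  ((cda h hz).differentiableAt (by simp)).hasFDerivAt

theorem hd2 (h : ContDiffOn ℝ ∞ U {0}ᶜ) {z : E3} (hz : z ≠ 0) :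
    HasFDerivAt (fderiv ℝ U) (fderiv ℝ (fderiv ℝ U) z) z :=
  (((cda h hz).fderiv_right (m := ∞) (by simp)).differentiableAt (by simp)).hasFDerivAt

theorem radial1 (h : ContDiffOn ℝ ∞ U {0}ᶜ) (hom : ∀ t : ℝ, 0 < t → ∀ x, U (t • x) = U x)
    {z : E3} (hz : z ≠ 0) : fderiv ℝ U z z = 0 := by
  have h1 : HasDerivAt (fun t : ℝ => t • z) z 1 := by
    have := (hasDerivAt_id (1 : ℝ)).smul_const z
    rwa [one_smul] at this
  have h2 : HasFDerivAt U (fderiv ℝ U z) ((1 : ℝ) • z) := by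
    rw [one_smul]; exact hd1 h hz
  have h3 : HasDerivAt (fun t : ℝ => U (t • z)) (fderiv ℝ U z z) 1 := h2.comp_hasDerivAt 1 h1
  have h4 : HasDerivAt (fun t : ℝ => U (t • z)) 0 1 := by
    refine (hasDerivAt_const (1 : ℝ) (U z)).congr_of_eventuallyEq ?_
    filter_upwards [lt_mem_nhds (zero_lt_one (α := ℝ))] with t ht
    exact hom t ht z
  exact h3.unique h4

theorem radial2 (h : ContDiffOn ℝ ∞ U {0}ᶜ) (hom : ∀ t : ℝ, 0 < t → ∀ x, U (t • x) = U x)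
    {z : E3} (hz : z ≠ 0) : fderiv ℝ (fderiv ℝ U) z z z = 0 := by
  have h1 : HasDerivAt (fun t : ℝ => t • z) z 1 := by
    have := (hasDerivAt_id (1 : ℝ)).smul_const z
    rwa [one_smul] at this
  have h2 : HasFDerivAt (fderiv ℝ U) (fderiv ℝ (fderiv ℝ U) z) ((1 : ℝ) • z) := by
    rw [one_smul]; exact hd2 h hz
  have h3 : HasDerivAt (fun t : ℝ => fderiv ℝ U (t • z)) (fderiv ℝ (fderiv ℝ U) z z) 1 :=
    h2.comp_hasDerivAt 1 h1
  have h4 : HasDerivAt (fun t : ℝ => fderiv ℝ U (t • z) z)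
      (fderiv ℝ (fderiv ℝ U) z z z + fderiv ℝ U ((1 : ℝ) • z) 0) 1 :=
    h3.clm_apply (hasDerivAt_const (1 : ℝ) z)
  have h5 : HasDerivAt (fun t : ℝ => fderiv ℝ U (t • z) z) 0 1 := by
    refine (hasDerivAt_const (1 : ℝ) (0 : ℝ)).congr_of_eventuallyEq ?_
    filter_upwards [lt_mem_nhds (zero_lt_one (α := ℝ))] with t ht
    have h6 := radial1 h hom (z := t • z) (smul_ne_zero ht.ne' hz)
    rw [map_smul, smul_eq_mul] at h6
    rcases mul_eq_zero.1 h6 with h7 | h7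
    · exact absurd h7 ht.ne'
    · exact h7
  have h6 := h4.unique h5
  rwa [map_zero, add_zero] at h6

/-- the orthonormal basis -/
noncomputable def frame (x y : ℝ) : OrthonormalBasis (Fin 3) ℝ E3 :=
  OrthonormalBasis.mk (frame_on x y) (by
    rw [(frame_on x y).linearIndependent.span_eq_top_of_card_eq_finrank (by simp)])

theorem lap_frame (x y : ℝ) : Δ U (Φ (x, y)) =
    fderiv ℝ (fderiv ℝ U) (Φ (x, y)) (Ea x y) (Ea x y) +
    fderiv ℝ (fderiv ℝ U) (Φ (x, y)) (Eb y) (Eb y) +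
    fderiv ℝ (fderiv ℝ U) (Φ (x, y)) (Φ (x, y)) (Φ (x, y)) := by
  have h := congrFun (laplacian_eq_iteratedFDeriv_orthonormalBasis U (frame x y)) (Φ (x, y))
  rw [h, Fin.sum_univ_three]
  simp only [iteratedFDeriv_two_apply]
  unfold frame
  simp only [OrthonormalBasis.coe_mk]
  rfl

/-- the function on the cylinder -/
noncomputable def cyl (U : E3 → ℝ) : ℝ × ℝ → ℝ := fun p => U (Φ p)

theorem cyl_sm (h : ContDiffOn ℝ ∞ U {0}ᶜ) : Sm (cyl U) :=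
  h.comp_contDiff sm_Φ fun p => Φ_ne p

theorem cyl_dx (h : ContDiffOn ℝ ∞ U {0}ᶜ) (x y : ℝ) :
    dx (cyl U) (x, y) = fderiv ℝ U (Φ (x, y)) (sech x • Ea x y) := by
  rw [dx_eq_deriv (cyl_sm h)]
  exact ((hd1 h (Φ_ne (x, y))).comp_hasDerivAt x (Φ_dx x y)).deriv

theorem cyl_dy (h : ContDiffOn ℝ ∞ U {0}ᶜ) (x y : ℝ) :
    dy (cyl U) (x, y) = fderiv ℝ U (Φ (x, y)) (sech x • Eb y) := by
  rw [dy_eq_deriv (cyl_sm h)]
  exact ((hd1 h (Φ_ne (x, y))).comp_hasDerivAt y (Φ_dy x y)).deriv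

theorem cyl_dxx (h : ContDiffOn ℝ ∞ U {0}ᶜ) (x y : ℝ) :
    dx (dx (cyl U)) (x, y) =
      fderiv ℝ (fderiv ℝ U) (Φ (x, y)) (sech x • Ea x y) (sech x • Ea x y) +
      fderiv ℝ U (Φ (x, y)) (v3 ((sech x * Real.tanh x ^ 2 - sech x ^ 3) * Real.cos y)
      ((sech x * Real.tanh x ^ 2 - sech x ^ 3) * Real.sin y)
      (-(2 * sech x ^ 2 * Real.tanh x))) := by
  rw [dx_eq_deriv (cyl_sm h).dx]
  have e : (fun t => dx (cyl U) (t, y)) = fun t => fderiv ℝ U (Φ (t, y)) (sech t • Ea t y) :=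
    funext fun t => cyl_dx h t y
  rw [e]
  have h1 : HasDerivAt (fun t => fderiv ℝ U (Φ (t, y)))
      (fderiv ℝ (fderiv ℝ U) (Φ (x, y)) (sech x • Ea x y)) x :=
    (hd2 h (Φ_ne (x, y))).comp_hasDerivAt x (Φ_dx x y)
  exact (h1.clm_apply (Φ_dxx x y)).deriv

theorem cyl_dyy (h : ContDiffOn ℝ ∞ U {0}ᶜ) (x y : ℝ) :
    dy (dy (cyl U)) (x, y) =
      fderiv ℝ (fderiv ℝ U) (Φ (x, y)) (sech x • Eb y) (sech x • Eb y) +
      fderiv ℝ U (Φ (x, y)) (v3 (-(sech x * Real.cos y)) (-(sech x * Real.sin y)) 0) := by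
  rw [dy_eq_deriv (cyl_sm h).dy]
  have e : (fun t => dy (cyl U) (x, t)) = fun t => fderiv ℝ U (Φ (x, t)) (sech x • Eb t) :=
    funext fun t => cyl_dy h x t
  rw [e]
  have h1 : HasDerivAt (fun t => fderiv ℝ U (Φ (x, t)))
      (fderiv ℝ (fderiv ℝ U) (Φ (x, y)) (sech x • Eb y)) y :=
    (hd2 h (Φ_ne (x, y))).comp_hasDerivAt y (Φ_dy x y)
  exact (h1.clm_apply (Φ_dyy x y)).deriv

theorem cyl_pde (h : Eig ρ lam U) (p : ℝ × ℝ) :
    dx (dx (cyl U)) p + dy (dy (cyl U)) p +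
      (lam * ρ (Real.tanh p.1) * sech p.1 ^ 2) * cyl U p = 0 := by
  obtain ⟨x, y⟩ := p
  rw [cyl_dxx h.sm, cyl_dyy h.sm]
  simp only [map_smul, smul_eq_mul, smul_apply]
  have h1 := h.eq (Φ (x, y)) (norm_Φ _)
  rw [lap_frame, radial2 h.sm h.hom (Φ_ne _)] at h1
  have h2 := congrArg (fderiv ℝ U (Φ (x, y))) (Φ_harm x y)
  rw [map_add, map_smul, radial1 h.sm h.hom (Φ_ne _), smul_zero] at h2
  have e : (Φ (x, y)) 2 = Real.tanh x := rfl
  rw [e] at h1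
  unfold cyl
  linear_combination sech x ^ 2 * h1 + h2

/-- the potential -/
noncomputable def pot (ρ : ℝ → ℝ) (lam : ℝ) (x : ℝ) : ℝ := lam * ρ (Real.tanh x) * sech x ^ 2

theorem pot_sm (hρ : ContDiff ℝ ∞ ρ) : ContDiff ℝ ∞ (pot ρ lam) :=
  (contDiff_const.mul (hρ.comp sm_tanh)).mul (sm_sech.pow 2)

theorem tanh_mem (x : ℝ) : Real.tanh x ∈ Icc (-1 : ℝ) 1 := abs_le.1 (abs_tanh_le x)

theorem sech_le_exp (x : ℝ) : sech x ≤ 2 * Real.exp x := by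
  unfold sech
  rw [div_le_iff₀ (Real.cosh_pos x), Real.cosh_eq]
  have h1 : Real.exp x * Real.exp (-x) = 1 := by rw [← Real.exp_add, add_neg_cancel, Real.exp_zero]
  have h2 := Real.exp_pos x
  nlinarith

theorem sech_neg (x : ℝ) : sech (-x) = sech x := by
  unfold sech; rw [Real.cosh_neg]

theorem is_pot (hρ : ContDiff ℝ ∞ ρ) (hlam : 0 < lam) {A : ℝ} (hA : 0 < A)
    (hρA : ∀ s ∈ Icc (-1 : ℝ) 1, 0 ≤ ρ s ∧ ρ s ≤ A) : Pot (pot ρ lam) (lam * A) := by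
  have hk : ∀ x, ∀ c : ℝ, 0 ≤ c → sech x ≤ c → pot ρ lam x ≤ lam * A * c ^ 2 := by
    intro x c hc hs
    unfold pot
    have h1 := hρA _ (tanh_mem x)
    have h2 : sech x ^ 2 ≤ c ^ 2 := pow_le_pow_left₀ (sech_pos x).le hs 2
    have h3 : lam * ρ (Real.tanh x) ≤ lam * A := mul_le_mul_of_nonneg_left h1.2 hlam.le
    have h4 : 0 ≤ lam * ρ (Real.tanh x) := mul_nonneg hlam.le h1.1
    exact mul_le_mul h3 h2 (sq_nonneg _) (by positivity)
  refine ⟨(pot_sm hρ).continuous, by positivity, fun x => ?_, fun x => ?_, fun x => ?_,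
    fun x => ?_⟩
  · have h1 := hρA _ (tanh_mem x)
    exact mul_nonneg (mul_nonneg hlam.le h1.1) (sq_nonneg _)
  · have := hk x 1 zero_le_one (sech_le_one x)
    simpa using this
  · exact hk x _ (by positivity) (sech_le_exp x)
  · refine hk x _ (by positivity) ?_
    have := sech_le_exp (-x)
    rwa [sech_neg] at this

theorem U_bdd (h : ContDiffOn ℝ ∞ U {0}ᶜ) : ∃ C, ∀ x : E3, ‖x‖ = 1 → |U x| ≤ C := by
  have hc : IsCompact (Metric.sphere (0 : E3) 1) := isCompact_sphere _ _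
  have hcont : ContinuousOn U (Metric.sphere (0 : E3) 1) := h.continuousOn.mono (by
    intro x hx
    rw [mem_sphere_zero_iff_norm] at hx
    intro h0
    rw [mem_singleton_iff.1 h0, norm_zero] at hx
    exact zero_ne_one hx)
  obtain ⟨C, hC⟩ := hc.exists_bound_of_continuousOn hcont
  exact ⟨C, fun x hx => hC x (mem_sphere_zero_iff_norm.2 hx)⟩

theorem is_cyl (h : Eig ρ lam U) (hρ : ContDiff ℝ ∞ ρ) (hlam : 0 < lam) {A : ℝ} (hA : 0 < A)
    (hρA : ∀ s ∈ Icc (-1 : ℝ) 1, 0 ≤ ρ s ∧ ρ s ≤ A) : Cyl (pot ρ lam) (lam * A) (cyl U) where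
  P := is_pot hρ hlam hA hρA
  hb := pot_sm hρ
  sm := cyl_sm h.sm
  per := fun x y => by
    unfold cyl
    rw [Φ_eq, Φ_eq, Real.cos_add_two_pi, Real.sin_add_two_pi]
  bdd := by
    obtain ⟨C, hC⟩ := U_bdd h.sm
    exact ⟨C, fun p => hC _ (norm_Φ p)⟩
  pde := fun p => cyl_pde h p

end TH321.YR
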