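import Mathlib
import Pool.Agent.TH321.YR.Sph2

/-!
# Yau's upper bound on spheres of revolution
-/

set_option autoImplicit false

open Set Filter Topology MeasureTheory InnerProductSpace Laplacian
open scoped ContDiff ENNReal NNReal

namespace TH321.YR

open TH266.LT

variable {ρ : ℝ → ℝ} {lam : ℝ} {U : E3 → ℝ}

theorem norm_sq_E3 (z : E3) : ‖z‖ ^ 2 = z 0 ^ 2 + z 1 ^ 2 + z 2 ^ 2 := by
  rw [EuclideanSpace.norm_eq, Real.sq_sqrt (Finset.sum_nonneg fun _ _ => sq_nonneg _),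
    Fin.sum_univ_three]
  simp only [Real.norm_eq_abs, sq_abs]

theorem exists_Φ {z : E3} (hz : ‖z‖ = 1) (hz' : z 0 ≠ 0 ∨ z 1 ≠ 0) :
    ∃ p : ℝ × ℝ, p.2 ∈ Ico 0 (2 * Real.pi) ∧ Φ p = z := by
  have h1 := norm_sq_E3 z
  rw [hz, one_pow] at h1
  have hpos : 0 < z 0 ^ 2 + z 1 ^ 2 := by
    rcases hz' with h | h
    · have := sq_nonneg (z 1); positivity
    · have := sq_nonneg (z 0); positivity
  have h2 : z 2 ∈ Ioo (-1 : ℝ) 1 := by
    have : |z 2| < 1 := by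
      rw [← sq_lt_one_iff_abs_lt_one]; linarith
    exact abs_lt.1 this
  set x := Real.artanh (z 2) with hx
  have h3 : Real.tanh x = z 2 := Real.tanh_artanh h2
  have h4 : sech x ^ 2 = z 0 ^ 2 + z 1 ^ 2 := by
    have := sech_sq_add x
    rw [h3] at this
    linarith
  set w : ℂ := ⟨z 0, z 1⟩ with hw
  have h5 : ‖w‖ = sech x := by
    have e1 : ‖w‖ ^ 2 = sech x ^ 2 := by
      rw [Complex.sq_norm, Complex.normSq_mk, h4]; ring
    exact (sq_eq_sq₀ (norm_nonneg _) (sech_pos x).le).1 e1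
  have h6 := Complex.norm_mul_cos_arg w
  have h7 := Complex.norm_mul_sin_arg w
  rw [h5] at h6 h7
  obtain ⟨n, hn, -⟩ := existsUnique_add_zsmul_mem_Ico Real.two_pi_pos (Complex.arg w) 0
  rw [zero_add] at hn
  refine ⟨(x, Complex.arg w + n • (2 * Real.pi)), hn, ?_⟩
  rw [Φ_eq, zsmul_eq_mul, Real.cos_add_int_mul_two_pi, Real.sin_add_int_mul_two_pi, h6, h7, h3]
  exact ext3 rfl rfl rfl

theorem cyl_ne (hU : ContDiffOn ℝ ∞ U {0}ᶜ) (hom : ∀ t : ℝ, 0 < t → ∀ x, U (t • x) = U x)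
    (hne : ∃ x, x ≠ 0 ∧ U x ≠ 0) : cyl U ≠ 0 := by
  have key : ∃ z : E3, z 0 ≠ 0 ∧ U z ≠ 0 := by
    obtain ⟨x, hx, hUx⟩ := hne
    by_cases h0 : x 0 = 0
    · have hc : ContinuousAt (fun t : ℝ => U (x + t • v3 1 0 0)) 0 := by
        have h1 : ContinuousAt U (x + (0 : ℝ) • v3 1 0 0) := by
          rw [zero_smul, add_zero]; exact (cda hU hx).continuousAt
        have h2 : ContinuousAt (fun t : ℝ => x + t • v3 1 0 0) 0 := by fun_prop
        exact ContinuousAt.comp (f := fun t : ℝ => x + t • v3 1 0 0) h1 h2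
      have h3 : ∀ᶠ t : ℝ in 𝓝 0, U (x + t • v3 1 0 0) ≠ 0 := by
        refine hc.eventually_ne ?_
        simpa using hUx
      have h4 : ∀ᶠ t : ℝ in 𝓝[≠] 0, U (x + t • v3 1 0 0) ≠ 0 := h3.filter_mono nhdsWithin_le_nhds
      obtain ⟨t, ht, ht0⟩ := (h4.and self_mem_nhdsWithin).exists
      refine ⟨x + t • v3 1 0 0, ?_, ht⟩
      have : (x + t • v3 1 0 0) 0 = t := by
        simp [h0]
      rw [this]; exact ht0
    · exact ⟨x, h0, hUx⟩
  obtain ⟨z, hz0, hUz⟩ := key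
  have hz : z ≠ 0 := by
    rintro rfl
    exact hz0 rfl
  have hn : 0 < ‖z‖⁻¹ := inv_pos.2 (norm_pos_iff.2 hz)
  obtain ⟨p, -, hp⟩ := exists_Φ (z := ‖z‖⁻¹ • z) (by
    rw [norm_smul, Real.norm_of_nonneg hn.le]
    exact inv_mul_cancel₀ (norm_pos_iff.2 hz).ne') (Or.inl (by
      simp only [PiLp.smul_apply, smul_eq_mul]
      exact mul_ne_zero hn.ne' hz0))
  intro h
  have h1 := congrFun h p
  unfold cyl at h1
  rw [hp, hom _ hn] at h1
  exact hUz h1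

/-- the length of the nodal set on the round sphere -/
theorem round_le (h : Eig ρ lam U) (hρ : ContDiff ℝ ∞ ρ) (hlam : 0 < lam) {A : ℝ} (hA : 0 < A)
    (hρA : ∀ s ∈ Icc (-1 : ℝ) 1, 0 ≤ ρ s ∧ ρ s ≤ A) (hne : ∃ x, x ≠ 0 ∧ U x ≠ 0) :
    μH[1] {p : E3 | ‖p‖ = 1 ∧ U p = 0} ≤ ENNReal.ofReal (38 * √(lam * A)) := by
  have h1 := nodal_le (is_cyl h hρ hlam hA hρA) (cyl_ne h.sm h.hom hne)
  have h2 : μH[1] ({v3 0 0 1, v3 0 0 (-1)} : Set E3) = 0 := by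
    have : NullSingletonClass (μH[1] : Measure E3) :=
      MeasureTheory.Measure.nullSingletonClass_hausdorff E3 one_pos
    exact (Set.toFinite _).measure_zero _
  have hcov : {p : E3 | ‖p‖ = 1 ∧ U p = 0} ⊆
      Φ '' {p | p.2 ∈ Ico 0 (2 * Real.pi) ∧ cyl U p = 0} ∪ {v3 0 0 1, v3 0 0 (-1)} := by
    rintro z ⟨hz1, hz2⟩
    by_cases h0 : z 0 ≠ 0 ∨ z 1 ≠ 0
    · obtain ⟨p, hp1, hp2⟩ := exists_Φ hz1 h0
      refine Or.inl ⟨p, ⟨hp1, ?_⟩, hp2⟩
      unfold cyl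
      rw [hp2]; exact hz2
    · push Not at h0
      have h3 := norm_sq_E3 z
      rw [hz1, h0.1, h0.2] at h3
      have h4 : (z 2 - 1) * (z 2 + 1) = 0 := by linarith
      rcases mul_eq_zero.1 h4 with h5 | h5
      · exact Or.inr (Or.inl (ext3 h0.1 h0.2 (by simp only [v3_2]; linarith)))
      · exact Or.inr (Or.inr (ext3 h0.1 h0.2 (by simp only [v3_2]; linarith)))
  calc μH[1] {p : E3 | ‖p‖ = 1 ∧ U p = 0} ≤ _ := measure_mono hcov
    _ ≤ μH[1] (Φ '' {p | p.2 ∈ Ico 0 (2 * Real.pi) ∧ cyl U p = 0}) +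
        μH[1] ({v3 0 0 1, v3 0 0 (-1)} : Set E3) := measure_union_le _ _
    _ ≤ ENNReal.ofReal (38 * √(lam * A)) := by rw [h2, add_zero]; exact h1

theorem closed_nodal (hU : ContDiffOn ℝ ∞ U {0}ᶜ) : IsClosed {p : E3 | ‖p‖ = 1 ∧ U p = 0} := by
  have hs : Metric.sphere (0 : E3) 1 ⊆ {0}ᶜ := by
    intro x hx
    rw [mem_sphere_zero_iff_norm] at hx
    intro h0
    rw [mem_singleton_iff.1 h0, norm_zero] at hx
    exact zero_ne_one hx
  have h := (hU.continuousOn.mono hs).preimage_isClosed_of_isClosed Metric.isClosed_sphere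
    (isClosed_singleton (x := (0 : ℝ)))
  have e : {p : E3 | ‖p‖ = 1 ∧ U p = 0} = Metric.sphere 0 1 ∩ U ⁻¹' {0} := by
    refine Set.ext fun p => ?_
    rw [Set.mem_inter_iff, mem_sphere_zero_iff_norm]
    rfl
  rw [e]; exact h

/-- the length of the nodal set in the metric `ρ(x₃) g_round` -/
theorem length_le (h : Eig ρ lam U) (hρ : ContDiff ℝ ∞ ρ) (hlam : 0 < lam) {A : ℝ} (hA : 0 < A)
    (hρA : ∀ s ∈ Icc (-1 : ℝ) 1, 0 ≤ ρ s ∧ ρ s ≤ A) (hne : ∃ x, x ≠ 0 ∧ U x ≠ 0) :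
    ∫⁻ p in {p : E3 | ‖p‖ = 1 ∧ U p = 0}, ENNReal.ofReal √(ρ (p 2)) ∂μH[1] ≤
      ENNReal.ofReal (38 * A * √lam) := by
  have h1 := round_le h hρ hlam hA hρA hne
  calc ∫⁻ p in {p : E3 | ‖p‖ = 1 ∧ U p = 0}, ENNReal.ofReal √(ρ (p 2)) ∂μH[1]
      ≤ ∫⁻ p in {p : E3 | ‖p‖ = 1 ∧ U p = 0}, ENNReal.ofReal √A ∂μH[1] := by
        refine setLIntegral_mono' (closed_nodal h.sm).measurableSet fun p hp => ?_
        refine ENNReal.ofReal_le_ofReal (Real.sqrt_le_sqrt ?_)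
        refine (hρA _ ?_).2
        have h2 := norm_sq_E3 p
        rw [hp.1] at h2
        have h3 : |p 2| ≤ 1 := by
          rw [← sq_le_one_iff_abs_le_one]
          nlinarith [sq_nonneg (p 0), sq_nonneg (p 1)]
        exact abs_le.1 h3
    _ = ENNReal.ofReal √A * μH[1] {p : E3 | ‖p‖ = 1 ∧ U p = 0} := by
        rw [setLIntegral_const]
    _ ≤ ENNReal.ofReal √A * ENNReal.ofReal (38 * √(lam * A)) := by gcongr
    _ = ENNReal.ofReal (38 * A * √lam) := by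
        rw [← ENNReal.ofReal_mul (Real.sqrt_nonneg _)]
        congr 1
        rw [Real.sqrt_mul hlam.le]
        have := Real.mul_self_sqrt hA.le
        linear_combination (38 * √lam) * this

end TH321.YR
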